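import Pool.Agent.Work.MP_d3517d_nt.Cnt.ResDefs
import Pool.Agent.Work.MP_d3517d_nt.P5.LinkX

/-!
# Residues of partial modular symbols on `Γ₀(N) ∞`: definitions (MP_d3517d_nt, CN)

The definitions of `Cnt/ResDefs` for the cusps `u/v`, `N ∣ v`, `(u, N) = 1`, and the symbols of
level `Γ₀(M)`, `N ∣ M`. The functions `vm`, `HF`, `hop`, `par`, `hev` are those of `Cnt/ResDefs`.

* `rst N n M` : restriction of full symbols to the cusps `u/v`, `N ∣ v`, `(u, N) = 1`;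
* `inC N v` : the vector `v` is a multiple of such a cusp;
* `HOut N e M` : the functions of `HF e M` which vanish on these vectors;
* `parN w j` : the matrix `par w (N j)` in `SN N`;
* `res N M n ψ w = M⁻¹ ψ(∞, par w M ∞)(w)` : the residue of `ψ` at the vector `w`.
-/

open Polynomial CongruenceSubgroup
open scoped MatrixGroups

noncomputable section

namespace Gouvea.CN

open Gouvea.Theta
open Gouvea.ES (GQ matOf)
open Gouvea.Cnt (sQ SF mem_SF BF mem_BF HF hop vm vm_mul par det_par vm_par par_mul hev)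

/-- the values of the restriction of a full symbol -/
def rstFun (N n : ℕ) (φ : Symb) : PX.Cusp N → PX.Cusp N → Fin (n + 1) → ℂ :=
  fun x y i => (φ (PX.toP x) (PX.toP y)).coeff i

variable {N : ℕ}

/-- a matrix of `Γ₀(M)` in `PX.SN N` as a matrix of `SL₂(ℤ)` -/
def toSL {M : ℕ} {g : PX.SN N} (hg : PX.IsG0 M g) : SL(2, ℤ) := ⟨g.1, hg.1⟩

lemma toSL_mem {M : ℕ} {g : PX.SN N} (hg : PX.IsG0 M g) : toSL hg ∈ Gamma0 M :=
  Gamma0_mem.2 ((ZMod.intCast_zmod_eq_zero_iff_dvd _ _).2 hg.2)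

lemma sQ_toSL {M : ℕ} {g : PX.SN N} (hg : PX.IsG0 M g) : sQ (toSL hg) = PX.gQ g := by
  ext i j
  rw [PX.gQ_apply]
  rfl

/-- a matrix of `Γ₀(M)` as an element of `PX.SN N`, `N ∣ M` -/
def ofSL {M : ℕ} (hN : N ∣ M) {g : SL(2, ℤ)} (hg : g ∈ Gamma0 M) : PX.SN N :=
  ⟨g.1, by
    have h0 : (M : ℤ) ∣ g.1 1 0 :=
      (ZMod.intCast_zmod_eq_zero_iff_dvd _ _).1 (Gamma0_mem.1 hg)
    have h1 : (N : ℤ) ∣ g.1 1 0 := (Int.natCast_dvd_natCast.2 hN).trans h0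
    refine ⟨by rw [g.2]; exact one_ne_zero, ?_, h1⟩
    obtain ⟨t, ht⟩ := h1
    refine ⟨g.1 1 1, -(g.1 0 1 * t), ?_⟩
    have h2 := g.2
    rw [Matrix.det_fin_two, ht] at h2
    linear_combination h2⟩

lemma ofSL_coe {M : ℕ} (hN : N ∣ M) {g : SL(2, ℤ)} (hg : g ∈ Gamma0 M) :
    (ofSL hN hg).1 = g.1 := rfl

lemma isG0_ofSL {M : ℕ} (hN : N ∣ M) {g : SL(2, ℤ)} (hg : g ∈ Gamma0 M) :
    PX.IsG0 M (ofSL hN hg) :=
  ⟨g.2, (ZMod.intCast_zmod_eq_zero_iff_dvd _ _).1 (Gamma0_mem.1 hg)⟩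

lemma gQ_ofSL {M : ℕ} (hN : N ∣ M) {g : SL(2, ℤ)} (hg : g ∈ Gamma0 M) :
    PX.gQ (ofSL hN hg) = sQ g := by
  rw [← sQ_toSL (isG0_ofSL hN hg)]
  rfl

lemma act_rstFun (n : ℕ) (φ : Symb) (g : PX.SN N) :
    PX.act ℂ N n g (rstFun N n φ) = rstFun N n (fact n (PX.gQ g) φ) := by
  funext x y i
  rw [PX.act_apply]
  change (PS.slk n (g.1.map (Int.cast : ℤ → ℂ))).mulVec
    (fun j : Fin (n + 1) => (φ (PX.toP (g • x)) (PX.toP (g • y))).coeff j) i = _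
  rw [← PS.coeff_slashM_eq]
  change _ = (slashM n (matOf ℂ (PX.gQ g)) (φ (PX.gQ g • PX.toP x) (PX.gQ g • PX.toP y))).coeff i
  rw [PX.matOf_gQ, PX.toP_smul, PX.toP_smul]

variable (N) in
/-- **Restriction** of full symbols to the cusps `u/v`, `N ∣ v`, `(u, N) = 1`. -/
def rst (n M : ℕ) : SF n M →ₗ[ℂ] PX.Sym ℂ N M n where
  toFun φ := ⟨rstFun N n φ, by
    obtain ⟨h1, h2, h3⟩ := φ.2
    refine ⟨fun x y z => ?_, fun g hg => ?_⟩
    · funext i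
      change (φ.1 (PX.toP x) (PX.toP y)).coeff i + (φ.1 (PX.toP y) (PX.toP z)).coeff i =
        (φ.1 (PX.toP x) (PX.toP z)).coeff i
      rw [← coeff_add, h2]
    · rw [act_rstFun, ← sQ_toSL hg, h3 _ (toSL_mem hg)]⟩
  map_add' φ ψ := by
    refine Subtype.ext ?_
    funext x y i
    exact coeff_add _ _ _
  map_smul' a φ := by
    refine Subtype.ext ?_
    funext x y i
    exact coeff_smul _ _ _

lemma rst_coe (n M : ℕ) (φ : SF n M) :
    (rst N n M φ : PX.Cusp N → PX.Cusp N → Fin (n + 1) → ℂ) = rstFun N n φ.1 := rfl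

variable (N) in
/-- the vectors `(l a, l c)` with `(a, N) = 1` and `N ∣ c`, `l ≠ 0`, `(a, c) ≠ 0`: those of the
cusps of `PX.Cusp N` -/
def inC (v : ℤ × ℤ) : Prop := ∃ l a c : ℤ, l ≠ 0 ∧ IsCoprime a (N : ℤ) ∧ (N : ℤ) ∣ c ∧
  (a ≠ 0 ∨ c ≠ 0) ∧ v = (l * a, l * c)

variable (N) in
/-- the functions of `HF e M` which vanish at the cusps of `PX.Cusp N` -/
def HOut (e : ℤ) (M : ℕ) : Submodule ℂ (ℤ × ℤ → ℂ) where
  carrier := {F | F ∈ HF e M ∧ ∀ v, inC N v → F v = 0}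
  add_mem' := by
    rintro F G ⟨h1, h2⟩ ⟨k1, k2⟩
    exact ⟨add_mem h1 k1, fun v hv => by simp [h2 v hv, k2 v hv]⟩
  zero_mem' := ⟨zero_mem _, fun v hv => rfl⟩
  smul_mem' := by
    rintro a F ⟨h1, h2⟩
    exact ⟨Submodule.smul_mem _ _ h1, fun v hv => by simp [h2 v hv]⟩

lemma mem_HOut {e : ℤ} {M : ℕ} {F : ℤ × ℤ → ℂ} :
    F ∈ HOut N e M ↔ F ∈ HF e M ∧ ∀ v, inC N v → F v = 0 := Iff.rfl

variable (N) in
/-- the matrix `par w (N j)` in `PX.SN N` -/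
def parN (w : ℤ × ℤ) (j : ℤ) : PX.SN N :=
  ⟨par w (N * j), by
    refine ⟨by rw [det_par]; exact one_ne_zero, ⟨1, j * (w.1 * w.2), ?_⟩, ?_⟩
    · simp only [par, Matrix.of_apply, Matrix.cons_val', Matrix.cons_val_zero,
        Matrix.empty_val', Matrix.cons_val_fin_one]
      ring
    · refine ⟨-(j * w.2 ^ 2), ?_⟩
      simp only [par, Matrix.of_apply, Matrix.cons_val', Matrix.cons_val_zero,
        Matrix.cons_val_one, Matrix.empty_val', Matrix.cons_val_fin_one]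
      ring⟩

lemma parN_coe (w : ℤ × ℤ) (j : ℤ) : (parN N w j).1 = par w (N * j) := rfl

lemma isG0_parN (M : ℕ) (w : ℤ × ℤ) {j : ℤ} (hj : (M : ℤ) ∣ N * j) : PX.IsG0 M (parN N w j) := by
  refine ⟨det_par _ _, ?_⟩
  rw [parN_coe]
  simp only [par, Matrix.of_apply, Matrix.cons_val', Matrix.cons_val_zero,
    Matrix.cons_val_one, Matrix.empty_val', Matrix.cons_val_fin_one]
  rw [dvd_neg]
  exact hj.mul_right _

variable (N) in
/-- **The residue of a partial symbol at a vector.** -/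
def res (M n : ℕ) (ψ : PX.Cusp N → PX.Cusp N → Fin (n + 1) → ℂ) (w : ℤ × ℤ) : ℂ :=
  (M : ℂ)⁻¹ * hev n (ψ (PX.inf N) (parN N w ((M / N : ℕ) : ℤ) • PX.inf N)) w

end Gouvea.CN
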