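import Pool.Agent.Work.MP_d3517d_nt.Cnt.BdF
import Pool.Agent.Work.MP_d3517d_nt.CN.ResDefs

/-!
# Boundary symbols and the kernel of the restriction to `Γ₀(N) ∞` (MP_d3517d_nt, CN)

The part of `Cnt/BdF` which depends on the set of cusps, for the cusps `u/v`, `N ∣ v`,
`(u, N) = 1`, and the level `Γ₀(M)`, `N ∣ M`.
-/

open Polynomial CongruenceSubgroup
open scoped MatrixGroups

noncomputable section

namespace Gouvea.CN

open Gouvea.Theta
open Gouvea.ES (GQ matOf)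
open Gouvea.Cnt (sQ SF mem_SF BF mem_BF BF_le HF Cu cuMk pt pt_smul pt_col col col_ne isCoprime_col
  gcd_ne Fof Fof_apply_of_ne Fof_mem Fof_surj Fof_injective WF bd wHF wHF_apply wHF_pt
  wHF_surjective bdHF bdHF_apply bdHF_surjective uu gOf gOf_smul col_dl dl dl_ne_zero coeff_ext)

variable {N : ℕ} {e : ℤ} {M : ℕ}

lemma inC_mk {a c : ℤ} (ha : IsCoprime a (N : ℤ)) (hc : (N : ℤ) ∣ c) (hne : a ≠ 0 ∨ c ≠ 0) :
    inC N (a, c) := ⟨1, a, c, one_ne_zero, ha, hc, hne, by simp⟩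

lemma inC_iff {v : ℤ × ℤ} : inC N v ↔ ∃ (l a c : ℤ) (_ : l ≠ 0) (ha : IsCoprime a (N : ℤ))
    (hc : (N : ℤ) ∣ c) (hne : a ≠ 0 ∨ c ≠ 0),
    v = (l * a, l * c) ∧ pt v = PX.toP (PX.Cusp.mk a c ha hc hne) := by
  constructor
  · rintro ⟨l, a, c, hl, ha, hc, hne, rfl⟩
    exact ⟨l, a, c, hl, ha, hc, hne, rfl,
      (pt_smul hl (a, c)).trans (PX.toP_mk a c ha hc hne).symm⟩
  · rintro ⟨l, a, c, hl, ha, hc, hne, rfl, -⟩
    exact ⟨l, a, c, hl, ha, hc, hne, rfl⟩

lemma inC_ne {v : ℤ × ℤ} (hv : inC N v) : v ≠ (0, 0) := by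
  obtain ⟨l, a, c, hl, ha, hc, hne, rfl⟩ := hv
  intro h
  have h1 : l * a = 0 := congrArg Prod.fst h
  have h2 : l * c = 0 := congrArg Prod.snd h
  rcases hne with h3 | h3
  · exact h3 ((mul_eq_zero.1 h1).resolve_left hl)
  · exact h3 ((mul_eq_zero.1 h2).resolve_left hl)

variable (N) in
/-- the functions on `Cu M` which vanish at the cusps of `PX.Cusp N` -/
def outC (M : ℕ) : Submodule ℂ (Cu M → ℂ) where
  carrier := {β | ∀ x : PX.Cusp N, β (cuMk M (PX.toP x)) = 0}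
  add_mem' := by
    intro β β' h h' x
    rw [Pi.add_apply, h x, h' x, add_zero]
  zero_mem' := fun x => rfl
  smul_mem' := by
    intro a β h x
    rw [Pi.smul_apply, h x, smul_zero]

lemma Fof_mem_out (he : Even e) {β : Cu M → ℂ} : Fof e M β ∈ HOut N e M ↔ β ∈ outC N M := by
  constructor
  · rintro ⟨-, h⟩ x
    refine PX.Cusp.ind' (P := fun x => β (cuMk M (PX.toP x)) = 0) (fun u v hu hv hne => ?_) x
    have h0 : inC N (u, v) := inC_mk hu hv hne
    have h1 := h (u, v) h0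
    rw [Fof_apply_of_ne e M β (inC_ne h0)] at h1
    have h2 := (mul_eq_zero.1 h1).resolve_left
      (zpow_ne_zero _ (by exact_mod_cast gcd_ne (inC_ne h0)))
    rw [PX.toP_mk]
    exact h2
  · intro h
    refine ⟨Fof_mem he M β, fun v hv => ?_⟩
    rw [Fof_apply_of_ne e M β (inC_ne hv)]
    obtain ⟨l, a, c, -, ha, hc, hne, -, hp⟩ := inC_iff.1 hv
    rw [hp, h, mul_zero]

variable (N) in
theorem map_Fof_outC (he : Even e) (M : ℕ) : (outC N M).map (Fof e M) = HOut N e M := by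
  refine le_antisymm ?_ fun F hF => ?_
  · rintro _ ⟨β, hβ, rfl⟩
    exact (Fof_mem_out he).2 hβ
  · obtain ⟨β, rfl⟩ := Fof_surj he hF.1
    exact ⟨β, (Fof_mem_out he).1 hF, rfl⟩

variable (N) in
theorem finrank_HOut (he : Even e) (M : ℕ) :
    Module.finrank ℂ (HOut N e M) = Module.finrank ℂ (outC N M) := by
  rw [← map_Fof_outC N he M]
  exact ((Submodule.equivMapOfInjective _ (Fof_injective e M) (outC N M)).finrank_eq).symm

variable (N) in
theorem finite_HOut (he : Even e) (M : ℕ) [NeZero M] : Module.Finite ℂ (HOut N e M) := by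
  rw [← map_Fof_outC N he M]
  infer_instance

variable (N) in
theorem finrank_HOut_eq {e' : ℤ} (he : Even e) (he' : Even e') (M : ℕ) :
    Module.finrank ℂ (HOut N e M) = Module.finrank ℂ (HOut N e' M) := by
  rw [finrank_HOut N he, finrank_HOut N he']

/-! ### The kernel of the restriction -/

lemma rst_eq_zero_iff {n M : ℕ} {φ : SF n M} :
    rst N n M φ = 0 ↔ ∀ x y : PX.Cusp N, φ.1 (PX.toP x) (PX.toP y) = 0 := by
  constructor
  · intro h x y
    refine coeff_ext (n := n) (φ.2.deg _ _) (by simp) fun i => ?_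
    rw [coeff_zero]
    exact congrFun (congrFun (congrFun (congrArg Subtype.val h) x) y) i
  · intro h
    refine Subtype.ext (funext fun x => funext fun y => funext fun i => ?_)
    show (φ.1 (PX.toP x) (PX.toP y)).coeff i = 0
    rw [h x y, coeff_zero]

/-- a cusp of the form `g ∞`, `g ∈ Γ₀(M)`, `N ∣ M` -/
lemma exists_toP {M : ℕ} (hM : N ∣ M) {g : SL(2, ℤ)} (hg : g ∈ Gamma0 M) :
    ∃ x : PX.Cusp N, PX.toP x = sQ g • (OnePoint.infty : OnePoint ℚ) := by
  refine ⟨ofSL hM hg • PX.inf N, ?_⟩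
  rw [PX.toP_smul, PX.toP_inf, gQ_ofSL]

/-- the invariant function of a symbol in the kernel of the restriction -/
theorem exists_WF_of_rst {n M : ℕ} (hM : N ∣ M) {φ : SF n M} (h : rst N n M φ = 0) :
    ∃ w : WF n M, (bd n M w).1 = φ.1 ∧ ∀ x : PX.Cusp N, w.1 (PX.toP x) = 0 := by
  rw [rst_eq_zero_iff] at h
  have hinf : ∀ x : PX.Cusp N, φ.1 (PX.toP x) OnePoint.infty = 0 := fun x => by
    rw [← PX.toP_inf (N := N)]
    exact h x (PX.inf N)
  refine ⟨⟨fun x => φ.1 x OnePoint.infty, fun x => φ.2.deg _ _, fun g hg x => ?_⟩, ?_, hinf⟩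
  · obtain ⟨y, hy⟩ := exists_toP hM hg
    have h1 : slashM n (matOf ℂ (sQ g)) (φ.1 (sQ g • x) (sQ g • OnePoint.infty)) =
        φ.1 x OnePoint.infty := congrFun (congrFun (φ.2.inv g hg) x) OnePoint.infty
    show slashM n (matOf ℂ (sQ g)) (φ.1 (sQ g • x) OnePoint.infty) = φ.1 x OnePoint.infty
    rw [← φ.2.add (sQ g • x) (sQ g • OnePoint.infty) OnePoint.infty, ← hy, hinf, add_zero, hy, h1]
  · funext x y
    show φ.1 x OnePoint.infty - φ.1 y OnePoint.infty = φ.1 x y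
    rw [← φ.2.add x y OnePoint.infty]
    ring

/-- **The kernel of the restriction consists of boundary symbols.** -/
theorem mem_BF_of_rst {n M : ℕ} (hM : N ∣ M) {φ : SF n M} (h : rst N n M φ = 0) :
    φ.1 ∈ BF n M := by
  obtain ⟨w, hw, -⟩ := exists_WF_of_rst hM h
  rw [← hw]
  exact (bd n M w).2

variable (N) in
/-- the map `HOut (-n) M → ker (rst n M)` -/
def outKer (n M : ℕ) (hn : Even n) : HOut N (-n) M →ₗ[ℂ] LinearMap.ker (rst N n M) where
  toFun F := ⟨⟨(bdHF n M hn ⟨F.1, F.2.1⟩).1, BF_le n M (bdHF n M hn ⟨F.1, F.2.1⟩).2⟩, by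
    rw [LinearMap.mem_ker, rst_eq_zero_iff]
    have hz : ∀ x : PX.Cusp N, (wHF n M hn ⟨F.1, F.2.1⟩).1 (PX.toP x) = 0 := by
      intro x
      refine PX.Cusp.ind' (P := fun x => (wHF n M hn ⟨F.1, F.2.1⟩).1 (PX.toP x) = 0)
        (fun u v hu hv hne => ?_) x
      have h0 : inC N (u, v) := inC_mk hu hv hne
      have h1 : PX.toP (PX.Cusp.mk u v hu hv hne) = pt (u, v) := rfl
      rw [h1, wHF_pt n M hn _ (inC_ne h0)]
      show C (F.1 (u, v)) * _ = 0
      rw [F.2.2 _ h0, C_0, zero_mul]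
    intro x y
    show (wHF n M hn ⟨F.1, F.2.1⟩).1 (PX.toP x) - (wHF n M hn ⟨F.1, F.2.1⟩).1 (PX.toP y) = 0
    rw [hz x, hz y, sub_zero]⟩
  map_add' F G := by
    refine Subtype.ext (Subtype.ext ?_)
    have h1 : (⟨(F + G).1, (F + G).2.1⟩ : HF (-n) M) = ⟨F.1, F.2.1⟩ + ⟨G.1, G.2.1⟩ := rfl
    show (bdHF n M hn ⟨(F + G).1, (F + G).2.1⟩).1 = _
    rw [h1, map_add]
    rfl
  map_smul' a F := by
    refine Subtype.ext (Subtype.ext ?_)
    have h1 : (⟨(a • F).1, (a • F).2.1⟩ : HF (-n) M) = a • ⟨F.1, F.2.1⟩ := rfl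
    show (bdHF n M hn ⟨(a • F).1, (a • F).2.1⟩).1 = _
    rw [h1, map_smul]
    rfl

lemma outKer_coe (n M : ℕ) (hn : Even n) (F : HOut N (-n) M) (x y : OnePoint ℚ) :
    (outKer N n M hn F).1.1 x y = F.1 (col (gOf x)) • uu n x - F.1 (col (gOf y)) • uu n y := rfl

lemma outKer_injective (n M : ℕ) (hn : Even n) : Function.Injective (outKer N n M hn) := by
  rw [injective_iff_map_eq_zero]
  intro F hF
  have h0 : F.1 (col (gOf OnePoint.infty)) = 0 := by
    refine F.2.2 _ ?_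
    have h1 : sQ (gOf OnePoint.infty) • (OnePoint.infty : OnePoint ℚ) = OnePoint.infty :=
      gOf_smul _
    have h2 : (gOf OnePoint.infty) 1 0 = 0 := by
      have := OnePoint.smul_infty_eq_self_iff.1 h1
      simpa using this
    have h3 := isCoprime_col (gOf OnePoint.infty)
    rw [h2, isCoprime_zero_right] at h3
    refine ⟨(gOf OnePoint.infty) 0 0, 1, 0, h3.ne_zero, isCoprime_one_left, dvd_zero _,
      Or.inl one_ne_zero, ?_⟩
    refine Prod.ext ?_ ?_
    · simp [col]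
    · rw [mul_zero]
      exact h2
  have h1 : ∀ x, F.1 (col (gOf x)) • uu n x = 0 := by
    intro x
    have h2 := outKer_coe n M hn F x OnePoint.infty
    rw [hF, h0, zero_smul, sub_zero] at h2
    exact h2.symm
  refine Subtype.ext (funext fun v => ?_)
  by_cases hv : v = (0, 0)
  · rw [hv]
    exact F.2.1.1
  · have h2 := col_dl n v hv hn F.2.1
    rw [h1] at h2
    have h3 : dl n (v.1 : ℂ) (v.2 : ℂ) ≠ 0 := by
      refine dl_ne_zero n fun h => hv ?_
      exact Prod.ext (by exact_mod_cast h.1) (by exact_mod_cast h.2)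
    exact (smul_eq_zero.1 h2).resolve_right h3

lemma outKer_surjective (n M : ℕ) [NeZero M] (hM : N ∣ M) (hn : Even n) :
    Function.Surjective (outKer N n M hn) := by
  rintro ⟨φ, hφ⟩
  obtain ⟨w, hw, hw0⟩ := exists_WF_of_rst hM (LinearMap.mem_ker.1 hφ)
  obtain ⟨F, rfl⟩ := wHF_surjective n M hn w
  have hout : F.1 ∈ HOut N (-n) M := by
    refine ⟨F.2, fun v hv => ?_⟩
    obtain ⟨l, a, c, -, ha, hc, hne, -, hp⟩ := inC_iff.1 hv
    have h1 := wHF_pt n M hn F (inC_ne hv)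
    rw [hp, hw0] at h1
    have h2 : dl n (v.1 : ℂ) (v.2 : ℂ) ≠ 0 := by
      refine dl_ne_zero n fun h => inC_ne hv ?_
      exact Prod.ext (by exact_mod_cast h.1) (by exact_mod_cast h.2)
    exact C_eq_zero.1 ((mul_eq_zero.1 h1.symm).resolve_right h2)
  exact ⟨⟨F.1, hout⟩, Subtype.ext (Subtype.ext hw)⟩

variable (N) in
/-- **The kernel of the restriction of full symbols** is isomorphic to `HOut (-n) M`. -/
def outEquiv (n M : ℕ) [NeZero M] (hM : N ∣ M) (hn : Even n) :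
    HOut N (-n) M ≃ₗ[ℂ] LinearMap.ker (rst N n M) :=
  LinearEquiv.ofBijective (outKer N n M hn)
    ⟨outKer_injective n M hn, outKer_surjective n M hM hn⟩

theorem finrank_ker_rst (he : Even e) (n M : ℕ) [NeZero M] (hM : N ∣ M) (hn : Even n) :
    Module.finrank ℂ (LinearMap.ker (rst N n M)) = Module.finrank ℂ (HOut N e M) := by
  rw [← (outEquiv N n M hM hn).finrank_eq]
  refine finrank_HOut_eq N ?_ he M
  rw [even_neg]
  exact_mod_cast hn

/-- the values of the restriction of a boundary symbol -/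
theorem rst_bdHF (n M : ℕ) (hn : Even n) (F : HF (-n) M) {a c a' c' : ℤ}
    (ha : IsCoprime a (N : ℤ)) (hc : (N : ℤ) ∣ c) (hne : a ≠ 0 ∨ c ≠ 0)
    (ha' : IsCoprime a' (N : ℤ)) (hc' : (N : ℤ) ∣ c') (hne' : a' ≠ 0 ∨ c' ≠ 0)
    (i : Fin (n + 1)) :
    (rst N n M ⟨(bdHF n M hn F).1, BF_le n M (bdHF n M hn F).2⟩).1 (PX.Cusp.mk a c ha hc hne)
        (PX.Cusp.mk a' c' ha' hc' hne') i =
      (C (F.1 (a, c)) * dl n (a : ℂ) (c : ℂ) -
        C (F.1 (a', c')) * dl n (a' : ℂ) (c' : ℂ)).coeff i := by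
  show ((wHF n M hn F).1 (pt (a, c)) - (wHF n M hn F).1 (pt (a', c'))).coeff i = _
  rw [wHF_pt n M hn F (inC_ne (inC_mk ha hc hne)), wHF_pt n M hn F (inC_ne (inC_mk ha' hc' hne'))]

end Gouvea.CN
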