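import Pool.Agent.Work.MP_d3517d_nt.CN.ResDefs
import Pool.Agent.Work.MP_d3517d_nt.Cnt.BdS

/-!
# Partial boundary symbols on the cusps `a/c`, `N ∣ c` (MP_d3517d_nt, exact Eichler–Shimura)

`bdS N M n F` is the partial boundary symbol attached to a homogeneous function `F` of degree `-n`
on vectors: `(x, y) ↦ β(x) - β(y)` with `β(a/c) = F(a, c) (a - c X)^n`.
-/

open Polynomial CongruenceSubgroup
open scoped MatrixGroups

noncomputable section

namespace Gouvea.CN

open Gouvea.Cnt (HF hop hop_apply hopF hop_mem_HF vm IsHom isHom_of_mem dl hom_dl hom_dl_eq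
  natDegree_dl_le slashM_dl_smul dl_ne_zero)

variable {N : ℕ}

lemma inC_up {v : ℤ × ℤ} (hv : inC N v) {q : ℕ} (hq : q ≠ 0) (b : ℤ) :
    inC N (vm !![1, b; 0, (q : ℤ)] v) := by
  obtain ⟨l, a, c, hl, ha, hc, hne, rfl⟩ := hv
  refine ⟨l, a + b * c, q * c, hl, ?_, hc.mul_left _, ?_, ?_⟩
  · obtain ⟨t, ht⟩ := hc
    rw [ht, mul_left_comm]
    exact ha.add_mul_left_left _
  · by_contra h
    rw [not_or, not_not, not_not] at h
    have hq' : (q : ℤ) ≠ 0 := by exact_mod_cast hq
    have h1 : c = 0 := (mul_eq_zero.1 h.2).resolve_left hq'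
    have h2 : a = 0 := by
      have h3 := h.1
      rw [h1, mul_zero, add_zero] at h3
      exact h3
    exact hne.elim (fun h3 => h3 h2) (fun h3 => h3 h1)
  · simp only [vm, Matrix.of_apply, Matrix.cons_val', Matrix.cons_val_zero,
      Matrix.cons_val_one, Matrix.empty_val', Matrix.cons_val_fin_one]
    refine Prod.ext ?_ ?_ <;> ring

lemma inC_V {v : ℤ × ℤ} (hv : inC N v) {q : ℕ} (hq : IsCoprime (q : ℤ) (N : ℤ))
    (hq0 : q ≠ 0) : inC N (vm !![(q : ℤ), 0; 0, 1] v) := by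
  obtain ⟨l, a, c, hl, ha, hc, hne, rfl⟩ := hv
  have hq' : (q : ℤ) ≠ 0 := by exact_mod_cast hq0
  refine ⟨l, q * a, c, hl, hq.mul_left ha, hc, ?_, ?_⟩
  · exact hne.imp (fun h => mul_ne_zero hq' h) id
  · simp only [vm, Matrix.of_apply, Matrix.cons_val', Matrix.cons_val_zero,
      Matrix.cons_val_one, Matrix.empty_val', Matrix.cons_val_fin_one]
    refine Prod.ext ?_ ?_ <;> ring

lemma coprime_of_level {M q : ℕ} (hq : q.Prime) (hM : N ∣ M) (h : ¬ q ∣ M) :
    IsCoprime (q : ℤ) (N : ℤ) := by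
  rw [Nat.isCoprime_iff_coprime]
  exact (Nat.Prime.coprime_iff_not_dvd hq).2 fun h1 => h (h1.trans hM)

theorem hop_mem_HOut {e : ℤ} {M q : ℕ} (hq : q.Prime) (hM : N ∣ M) {F : ℤ × ℤ → ℂ}
    (hF : F ∈ HOut N e M) : hop M q F ∈ HOut N e M := by
  refine ⟨hop_mem_HF hq hF.1, fun v hv => ?_⟩
  rw [hop_apply, Finset.sum_eq_zero, zero_add]
  · split_ifs with h
    · rfl
    · exact hF.2 _ (inC_V hv (coprime_of_level hq hM h) hq.ne_zero)
  · intro b _
    exact hF.2 _ (inC_up hv hq.ne_zero _)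

lemma hom_dl_eq' {n : ℕ} {F : ℤ × ℤ → ℂ} (hF : IsHom n F) {a c a' c' : ℤ} (ha : a ≠ 0 ∨ c ≠ 0)
    (ha' : a' ≠ 0 ∨ c' ≠ 0) (h : a * c' = a' * c) :
    C (F (a, c)) * dl n (a : ℂ) (c : ℂ) = C (F (a', c')) * dl n (a' : ℂ) (c' : ℂ) := by
  by_cases ha0 : a = 0
  · have hc : c ≠ 0 := ha.resolve_left fun h => h ha0
    have ha0' : a' = 0 := by
      rw [ha0, zero_mul] at h
      exact (mul_eq_zero.1 h.symm).resolve_right hc
    have hc' : c' ≠ 0 := ha'.resolve_left fun h => h ha0'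
    rw [← hom_dl hF hc' a c, ← hom_dl hF hc a' c', ha0, ha0', mul_zero, mul_zero, mul_comm c' c]
  · have ha0' : a' ≠ 0 := by
      intro h0
      have hc' : c' ≠ 0 := ha'.resolve_left fun h => h h0
      rw [h0, zero_mul] at h
      exact (mul_ne_zero ha0 hc') h
    exact hom_dl_eq hF ha0 ha0' h

/-- the value of the boundary function at a cusp -/
def bval {n : ℕ} {F : ℤ × ℤ → ℂ} (hF : IsHom n F) : PX.Cusp N → ℂ[X] :=
  Quotient.lift (fun x : PX.PreCusp N => C (F (x.u, x.v)) * dl n (x.u : ℂ) (x.v : ℂ))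
    fun x y (h : x.u * y.v = y.u * x.v) => hom_dl_eq' hF x.hne y.hne h

lemma bval_mk {n : ℕ} {F : ℤ × ℤ → ℂ} (hF : IsHom n F) (u v : ℤ) (hu hv hne) :
    bval hF (PX.Cusp.mk (N := N) u v hu hv hne) = C (F (u, v)) * dl n (u : ℂ) (v : ℂ) := rfl

lemma natDegree_bval_le {n : ℕ} {F : ℤ × ℤ → ℂ} (hF : IsHom n F) (x : PX.Cusp N) :
    (bval hF x).natDegree ≤ n := by
  induction x using PX.Cusp.ind' with
  | h u v hu hv hne =>
    rw [bval_mk]
    exact (natDegree_C_mul_le _ _).trans (natDegree_dl_le n _ _)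

/-- the action of a matrix on the boundary function -/
lemma slash_bval {n : ℕ} {F : ℤ × ℤ → ℂ} (hF : IsHom n F) (g : PX.SN N) (u v : ℤ)
    (hu : IsCoprime u (N : ℤ)) (hv : (N : ℤ) ∣ v) (hne : u ≠ 0 ∨ v ≠ 0) :
    slashM n (g.1.map (Int.cast : ℤ → ℂ)) (bval hF (g • PX.Cusp.mk u v hu hv hne)) =
      C ((g.1.det : ℂ) ^ n * F (vm g.1 (u, v))) * dl n (u : ℂ) (v : ℂ) := by
  obtain ⟨hu', hv', hne', h⟩ := PX.smul_mk g u v hu hv hne
  rw [h, bval_mk, ← smul_eq_C_mul, map_smul]
  have h1 := slashM_dl_smul n (g.1.map (Int.cast : ℤ → ℂ)) (u : ℂ) (v : ℂ)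
  have h2 : (g.1.map (Int.cast : ℤ → ℂ)).det = (g.1.det : ℂ) := by
    rw [Matrix.det_fin_two, Matrix.det_fin_two]
    simp
  simp only [Matrix.map_apply] at h1
  push_cast
  rw [h1, h2, smul_eq_C_mul, ← mul_assoc, ← map_mul, mul_comm (F _)]
  rfl

variable (N) in
/-- **The partial boundary symbol** of a homogeneous function of degree `-n`. -/
def bdS (M n : ℕ) : HF (-(n : ℤ)) M →ₗ[ℂ] PX.Sym ℂ N M n where
  toFun F := ⟨fun x y i => (bval (isHom_of_mem F.2) x).coeff i -
      (bval (isHom_of_mem F.2) y).coeff i, by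
    refine ⟨fun x y z => ?_, fun g hg => ?_⟩
    · funext i
      simp only [Pi.add_apply]
      ring
    · funext x y i
      have h1 : ∀ x : PX.Cusp N, slashM n (g.1.map (Int.cast : ℤ → ℂ))
          (bval (isHom_of_mem F.2) (g • x)) = bval (isHom_of_mem F.2) x := by
        intro x
        induction x using PX.Cusp.ind' with
        | h u v hu hv hne =>
          have h2 := F.2.2.2 _ (toSL_mem hg) (u, v)
          have h3 : (toSL hg).1 = g.1 := rfl
          rw [h3] at h2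
          rw [slash_bval, h2, hg.1, bval_mk]
          simp
      rw [PX.act_apply]
      have h2 : (fun i : Fin (n + 1) => (bval (isHom_of_mem F.2) (g • x)).coeff i -
          (bval (isHom_of_mem F.2) (g • y)).coeff i) = fun i : Fin (n + 1) =>
          (bval (isHom_of_mem F.2) (g • x) - bval (isHom_of_mem F.2) (g • y)).coeff i := by
        funext i
        rw [coeff_sub]
      have h3 := PS.coeff_slashM_eq n (g.1.map (Int.cast : ℤ → ℂ))
        (bval (isHom_of_mem F.2) (g • x) - bval (isHom_of_mem F.2) (g • y)) i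
      rw [map_sub, h1, h1, coeff_sub] at h3
      rw [h2]
      exact h3.symm⟩
  map_add' F G := by
    refine Subtype.ext ?_
    funext x y i
    induction x using PX.Cusp.ind' with
    | h u v hu hv hne =>
      induction y using PX.Cusp.ind' with
      | h u' v' hu' hv' hne' =>
        change (bval _ (PX.Cusp.mk u v hu hv hne)).coeff i -
            (bval _ (PX.Cusp.mk u' v' hu' hv' hne')).coeff i
          = ((bval _ (PX.Cusp.mk u v hu hv hne)).coeff i -
            (bval _ (PX.Cusp.mk u' v' hu' hv' hne')).coeff i) +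
            ((bval _ (PX.Cusp.mk u v hu hv hne)).coeff i -
              (bval _ (PX.Cusp.mk u' v' hu' hv' hne')).coeff i)
        simp only [bval_mk, coeff_C_mul]
        change (F.1 (u, v) + G.1 (u, v)) * _ - (F.1 (u', v') + G.1 (u', v')) * _ = _
        ring
  map_smul' a F := by
    refine Subtype.ext ?_
    funext x y i
    induction x using PX.Cusp.ind' with
    | h u v hu hv hne =>
      induction y using PX.Cusp.ind' with
      | h u' v' hu' hv' hne' =>
        change (bval _ (PX.Cusp.mk u v hu hv hne)).coeff i -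
            (bval _ (PX.Cusp.mk u' v' hu' hv' hne')).coeff i
          = a * ((bval _ (PX.Cusp.mk u v hu hv hne)).coeff i -
            (bval _ (PX.Cusp.mk u' v' hu' hv' hne')).coeff i)
        simp only [bval_mk, coeff_C_mul]
        change (a * F.1 (u, v)) * _ - (a * F.1 (u', v')) * _ = _
        ring

variable (N) in
lemma bdS_apply (M n : ℕ) (F : HF (-(n : ℤ)) M) (x y : PX.Cusp N) (i : Fin (n + 1)) :
    (bdS N M n F : PX.Cusp N → PX.Cusp N → Fin (n + 1) → ℂ) x y i =
      (bval (isHom_of_mem F.2) x).coeff i - (bval (isHom_of_mem F.2) y).coeff i := rfl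

/-- the action of a matrix on a partial boundary symbol -/
lemma act_bdS {M n : ℕ} (F : HF (-(n : ℤ)) M) (g : PX.SN N) (u v u' v' : ℤ)
    (hu : IsCoprime u (N : ℤ)) (hv : (N : ℤ) ∣ v) (hne : u ≠ 0 ∨ v ≠ 0)
    (hu' : IsCoprime u' (N : ℤ)) (hv' : (N : ℤ) ∣ v') (hne' : u' ≠ 0 ∨ v' ≠ 0)
    (i : Fin (n + 1)) :
    PX.act ℂ N n g (bdS N M n F) (PX.Cusp.mk u v hu hv hne) (PX.Cusp.mk u' v' hu' hv' hne') i =
      (g.1.det : ℂ) ^ n * (F.1 (vm g.1 (u, v)) * (dl n (u : ℂ) (v : ℂ)).coeff i -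
        F.1 (vm g.1 (u', v')) * (dl n (u' : ℂ) (v' : ℂ)).coeff i) := by
  rw [PX.act_apply]
  have h2 : (bdS N M n F : PX.Cusp N → PX.Cusp N → Fin (n + 1) → ℂ)
      (g • PX.Cusp.mk u v hu hv hne)
      (g • PX.Cusp.mk u' v' hu' hv' hne') = fun i : Fin (n + 1) =>
      (bval (isHom_of_mem F.2) (g • PX.Cusp.mk u v hu hv hne) -
        bval (isHom_of_mem F.2) (g • PX.Cusp.mk u' v' hu' hv' hne')).coeff i := by
    funext i
    rw [coeff_sub]
    rfl
  rw [h2, ← PS.coeff_slashM_eq, map_sub, slash_bval, slash_bval, coeff_sub, coeff_C_mul,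
    coeff_C_mul]
  ring

/-- **The Hecke operators on the partial boundary symbols.** -/
theorem bdS_hecke {M n q : ℕ} (hq : q.Prime) (hM : N ∣ M) (F : HF (-(n : ℤ)) M) :
    PX.hecke ℂ N M n q (bdS N M n F) =
      (bdS N M n ((q : ℂ) ^ n • hopF (-(n : ℤ)) M hq F) :
        PX.Cusp N → PX.Cusp N → Fin (n + 1) → ℂ) := by
  funext x y i
  induction x using PX.Cusp.ind' with
  | h u v hu hv hne =>
    induction y using PX.Cusp.ind' with
    | h u' v' hu' hv' hne' =>
      rw [bdS_apply, bval_mk, bval_mk, coeff_C_mul, coeff_C_mul]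
      have h1 : ∀ w : ℤ × ℤ, ((((q : ℂ) ^ n • hopF (-(n : ℤ)) M hq F : HF (-(n : ℤ)) M) :
          ℤ × ℤ → ℂ) w) = (q : ℂ) ^ n * hop M q F.1 w := fun w => rfl
      rw [h1, h1, PX.hecke, LinearMap.add_apply, LinearMap.sum_apply]
      simp only [Pi.add_apply, Finset.sum_apply]
      have hq0 : (q : ℤ) ≠ 0 := by exact_mod_cast hq.ne_zero
      have h2 : ∀ b : ℕ, PX.act ℂ N n (PX.upS N 1 (b : ℤ) (q : ℤ)) (bdS N M n F)
          (PX.Cusp.mk u v hu hv hne) (PX.Cusp.mk u' v' hu' hv' hne') i =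
          (q : ℂ) ^ n * (F.1 (vm !![1, (b : ℤ); 0, (q : ℤ)] (u, v)) *
            (dl n (u : ℂ) (v : ℂ)).coeff i -
          F.1 (vm !![1, (b : ℤ); 0, (q : ℤ)] (u', v')) * (dl n (u' : ℂ) (v' : ℂ)).coeff i) := by
        intro b
        rw [act_bdS, PX.upS_coe isCoprime_one_left (by rw [one_mul]; exact hq0)]
        congr 2
        rw [Matrix.det_fin_two_of]
        push_cast
        ring
      rw [Finset.sum_congr rfl fun b _ => h2 b, ← Finset.mul_sum, Finset.sum_sub_distrib,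
        ← Finset.sum_mul, ← Finset.sum_mul, hop_apply, hop_apply]
      by_cases h : q ∣ M
      · simp only [if_pos h, LinearMap.zero_apply, Pi.zero_apply]
        ring
      · simp only [if_neg h]
        rw [act_bdS, PX.upS_coe (coprime_of_level hq hM h) (by rw [mul_one]; exact hq0)]
        have h3 : ((!![(q : ℤ), 0; 0, 1] : Matrix (Fin 2) (Fin 2) ℤ).det : ℂ) = q := by
          rw [Matrix.det_fin_two_of]
          push_cast
          ring
        rw [h3]
        ring

/-- **the kernel**, `n > 0` -/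
theorem bdS_eq_zero_iff {M n : ℕ} (hN : N ≠ 0) (hn : n ≠ 0) (F : HF (-(n : ℤ)) M) :
    bdS N M n F = 0 ↔ (F : ℤ × ℤ → ℂ) ∈ HOut N (-(n : ℤ)) M := by
  constructor
  · intro h
    have h1 : ∀ x y : PX.Cusp N, bval (isHom_of_mem F.2) x = bval (isHom_of_mem F.2) y := by
      intro x y
      ext i
      by_cases hi : i ≤ n
      · have h2 := congrFun (congrFun (congrFun (congrArg Subtype.val h) x) y)
          ⟨i, Nat.lt_succ_of_le hi⟩
        rw [bdS_apply] at h2
        exact sub_eq_zero.1 h2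
      · rw [coeff_eq_zero_of_natDegree_lt ((natDegree_bval_le _ x).trans_lt (not_le.1 hi)),
          coeff_eq_zero_of_natDegree_lt ((natDegree_bval_le _ y).trans_lt (not_le.1 hi))]
    have h2 := h1 (PX.inf N) (PX.Cusp.mk 1 N isCoprime_one_left dvd_rfl (Or.inl one_ne_zero))
    have hN' : (N : ℂ) ≠ 0 := by exact_mod_cast hN
    rw [PX.inf, bval_mk, bval_mk] at h2
    have h3 : F.1 (1, 0) = 0 := by
      have h5 := congrArg (fun P : ℂ[X] => P.eval (1 / N : ℂ)) h2
      simp only [dl, eval_mul, eval_C, eval_pow, eval_sub, eval_X] at h5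
      push_cast at h5
      rw [zero_mul, sub_zero, one_pow, mul_one, mul_one_div_cancel hN', sub_self,
        zero_pow hn, mul_zero] at h5
      exact h5
    refine ⟨F.2, ?_⟩
    rintro w ⟨l, u, v, hl, hu, hv, hne, rfl⟩
    have h4 := h1 (PX.inf N) (PX.Cusp.mk u v hu hv hne)
    rw [PX.inf, bval_mk, bval_mk, h3, map_zero, zero_mul] at h4
    have h5 : dl n (u : ℂ) (v : ℂ) ≠ 0 := by
      refine dl_ne_zero n fun h6 => ?_
      rcases hne with h7 | h7
      · exact h7 (by exact_mod_cast h6.1)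
      · exact h7 (by exact_mod_cast h6.2)
    have h6 := C_eq_zero.1 ((mul_eq_zero.1 h4.symm).resolve_right h5)
    have h7 := F.2.2.1 l hl (u, v)
    rw [h7, h6, mul_zero]
  · intro h
    have h1 : ∀ x : PX.Cusp N, bval (isHom_of_mem F.2) x = 0 := by
      intro x
      induction x using PX.Cusp.ind' with
      | h u v hu hv hne =>
        rw [bval_mk, h.2 (u, v) ⟨1, u, v, one_ne_zero, hu, hv, hne, by simp⟩, map_zero, zero_mul]
    refine Subtype.ext ?_
    funext x y i
    rw [bdS_apply, h1, h1]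
    simp

/-- **the kernel**, `n = 0` -/
theorem bdS_zero_eq_zero_iff {M : ℕ} (F : HF (-((0 : ℕ) : ℤ)) M) :
    bdS N M 0 F = 0 ↔ ∃ c : ℂ, ∀ v, inC N v → (F : ℤ × ℤ → ℂ) v = c := by
  constructor
  · intro h
    refine ⟨F.1 (1, 0), ?_⟩
    rintro w ⟨l, a, c, hl, ha, hc, hne, rfl⟩
    have h1 := F.2.2.1 l hl (a, c)
    have h2 := congrFun (congrFun (congrFun (congrArg Subtype.val h)
      (PX.Cusp.mk a c ha hc hne)) (PX.inf N)) 0
    rw [bdS_apply, PX.inf, bval_mk, bval_mk] at h2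
    have h3 : F.1 (a, c) - F.1 (1, 0) = 0 := by
      simpa [dl] using h2
    rw [h1]
    simp only [Nat.cast_zero, neg_zero, zpow_zero, one_mul]
    exact sub_eq_zero.1 h3
  · rintro ⟨c, hc⟩
    refine Subtype.ext ?_
    funext x y i
    induction x using PX.Cusp.ind' with
    | h u v hu hv hne =>
      induction y using PX.Cusp.ind' with
      | h u' v' hu' hv' hne' =>
        rw [bdS_apply, bval_mk, bval_mk, hc (u, v) ⟨1, u, v, one_ne_zero, hu, hv, hne, by simp⟩,
          hc (u', v') ⟨1, u', v', one_ne_zero, hu', hv', hne', by simp⟩]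
        simp [dl]

end Gouvea.CN
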