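import Pool.Agent.Work.MP_d3517d_nt.POS.CuspFin
import Pool.Agent.Work.MP_d3517d_nt.CN.ResDefs

/-!
# The Eisenstein lines for the cusps `N ∣ c` (MP_d3517d_nt, CN)

The general `N` version of `POS/CuspFin`.
-/

open Finset Module CongruenceSubgroup MvPolynomial
open scoped MatrixGroups

noncomputable section

namespace Gouvea.CN

open Gouvea.Sys Gouvea.POS
open Gouvea.Cnt (HF hop vm)

variable {N : ℕ}

/-! ### The vectors of `PX.Cusp N` -/

lemma ne_of_isCoprime {u v : ℤ} (h : IsCoprime u v) : u ≠ 0 ∨ v ≠ 0 := by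
  by_contra hne
  push Not at hne
  rw [hne.1, hne.2] at h
  exact not_isCoprime_zero_zero h

lemma inC_prim_iff {u v : ℤ} (h : IsCoprime u v) : inC N (u, v) ↔ (N : ℤ) ∣ v := by
  constructor
  · rintro ⟨l, a, c, hl, ha, hc, hne, heq⟩
    rw [Prod.mk.injEq] at heq
    rw [heq.2]
    exact hc.mul_left _
  · intro hv
    exact ⟨1, u, v, one_ne_zero, h.of_isCoprime_of_dvd_right hv, hv, ne_of_isCoprime h, by simp⟩

lemma inC_mul_iff {l : ℤ} (hl : l ≠ 0) {u v : ℤ} : inC N (l * u, l * v) ↔ inC N (u, v) := by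
  constructor
  · rintro ⟨m, a, c, hm, ha, hc, hne, heq⟩
    rw [Prod.mk.injEq] at heq
    by_cases h0 : ((u, v) : ℤ × ℤ) = (0, 0)
    · rw [Prod.mk.injEq] at h0
      rw [h0.1, h0.2, mul_zero] at heq
      have h1 : a = 0 := (mul_eq_zero.1 heq.1.symm).resolve_left hm
      have h2 : c = 0 := (mul_eq_zero.1 heq.2.symm).resolve_left hm
      rcases hne with h | h
      · exact absurd h1 h
      · exact absurd h2 h
    · obtain ⟨k, hk, x, y, h, hxy⟩ := exists_prim h0
      rw [Prod.mk.injEq] at hxy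
      have hk' : (k : ℤ) ≠ 0 := by exact_mod_cast hk.ne'
      have e1 : l * k * x = m * a := by rw [← heq.1, hxy.1]; ring
      have e2 : l * k * y = m * c := by rw [← heq.2, hxy.2]; ring
      have e3 : x * c = y * a := by
        have h3 : l * k * m * (x * c) = l * k * m * (y * a) := by
          linear_combination (m * c) * e1 - (m * a) * e2
        exact mul_left_cancel₀ (mul_ne_zero (mul_ne_zero hl hk') hm) h3
      have hprim := h
      obtain ⟨X, Y, hXY⟩ := h
      have ea : (X * a + Y * c) * x = a := by linear_combination Y * e3 + a * hXY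
      have ec : (X * a + Y * c) * y = c := by linear_combination (-X) * e3 + c * hXY
      have hx : IsCoprime x (N : ℤ) := by
        rw [← ea] at ha
        exact ha.of_mul_left_right
      have ht : IsCoprime (X * a + Y * c) (N : ℤ) := by
        have ha' := ha
        rw [← ea] at ha'
        exact ha'.of_mul_left_left
      have hy : (N : ℤ) ∣ y := by
        rw [← ec] at hc
        exact ht.symm.dvd_of_dvd_mul_left hc
      exact ⟨k, x, y, hk', hx, hy, ne_of_isCoprime hprim, by rw [← hxy.1, ← hxy.2]⟩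
  · rintro ⟨m, a, c, hm, ha, hc, hne, heq⟩
    rw [Prod.mk.injEq] at heq
    exact ⟨l * m, a, c, mul_ne_zero hl hm, ha, hc, hne, by
      rw [heq.1, heq.2, mul_assoc, mul_assoc]⟩

lemma dvd_cd {L : ℕ} (hN : N ∣ L) (v : ℤ) : N ∣ cd L v ↔ (N : ℤ) ∣ v := by
  constructor
  · intro h
    have h1 : (N : ℤ) ∣ (cd L v : ℤ) := Int.natCast_dvd_natCast.2 h
    exact h1.trans (cd_dvd_left L v)
  · intro h
    have h1 : (N : ℤ) ∣ (Int.gcd v L : ℤ) := Int.dvd_coe_gcd h (by exact_mod_cast hN)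
    exact Int.natCast_dvd_natCast.1 h1

lemma inC_of {u v : ℤ} (h : IsCoprime u v) (hv : (N : ℤ) ∣ v) {q : ℕ} (hq : q.Prime) (b : ℤ) :
    inC N (u + b * v, q * v) := by
  refine ⟨1, u + b * v, q * v, one_ne_zero, ?_, hv.mul_left _, ?_, by simp⟩
  · obtain ⟨t, rfl⟩ := hv
    have h1 : IsCoprime u (N : ℤ) := h.of_mul_right_left
    rw [show u + b * ((N : ℤ) * t) = u + (N : ℤ) * (b * t) by ring]
    exact (IsCoprime.add_mul_left_left_iff).2 h1
  · by_cases hv0 : v = 0
    · left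
      rw [hv0, mul_zero, add_zero]
      rintro rfl
      rw [hv0] at h
      exact not_isCoprime_zero_zero h
    · right
      exact mul_ne_zero (by exact_mod_cast hq.ne_zero) hv0

lemma inC_of' {u v : ℤ} (h : IsCoprime u v) (hv : (N : ℤ) ∣ v) {q : ℕ} (h2 : ¬ q ∣ N)
    (hq : q.Prime) : inC N (q * u, v) := by
  refine ⟨1, q * u, v, one_ne_zero, ?_, hv, ?_, by simp⟩
  · refine IsCoprime.mul_left ?_ (h.of_isCoprime_of_dvd_right hv)
    exact Nat.isCoprime_iff_coprime.2 ((Nat.Prime.coprime_iff_not_dvd hq).2 h2)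
  · rcases ne_of_isCoprime h with h1 | h1
    · exact Or.inl (mul_ne_zero (by exact_mod_cast hq.ne_zero) h1)
    · exact Or.inr h1

/-! ### The lines -/

/-- the values of the line `(d, ψ)` on the boundary symbols -/
def inV (n L d : ℕ) (ψ : DirichletCharacter ℂ (d.gcd (L / d))) (q : Nat.Primes) : ℂ :=
  (if (q : ℕ) ∣ d then 0 else ψ⁻¹ ((q : ℕ) : ZMod (d.gcd (L / d)))) +
    (if (q : ℕ) ∣ L / d then 0 else
      ((q : ℕ) : ℂ) ^ (n + 1) * ψ ((q : ℕ) : ZMod (d.gcd (L / d))))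

/-- the values of the line `(d, ψ)` on the residues -/
def outV (n L d : ℕ) (ψ : DirichletCharacter ℂ (d.gcd (L / d))) (q : Nat.Primes) : ℂ :=
  (if (q : ℕ) ∣ d then 0 else
      ((q : ℕ) : ℂ) ^ (n + 1) * ψ⁻¹ ((q : ℕ) : ZMod (d.gcd (L / d)))) +
    (if (q : ℕ) ∣ L / d then 0 else ψ ((q : ℕ) : ZMod (d.gcd (L / d))))

variable (N) in
/-- the Eisenstein lines for `¬ N ∣ d` (residues) -/
def eisOut (n L : ℕ) : Multiset (MvPolynomial Nat.Primes ℤ →+* ℂ) :=
  ∑ d ∈ L.divisors with ¬ N ∣ d, ∑ ψ : DirichletCharacter ℂ (d.gcd (L / d)),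
    {sysOf (outV n L d ψ)}

variable (N) in
/-- the Eisenstein lines for `N ∣ d` (boundary symbols) -/
def eisIn (n L : ℕ) : Multiset (MvPolynomial Nat.Primes ℤ →+* ℂ) :=
  ∑ d ∈ L.divisors with N ∣ d, ∑ ψ : DirichletCharacter ℂ (d.gcd (L / d)),
    {sysOf (inV n L d ψ)}

/-- **The residues.** -/
theorem Sys_HOut {n : ℕ} (hn : Even n) {L : ℕ} [NeZero L] (hN : N ∣ L) {V : Type*}
    [AddCommGroup V] [Module ℂ V] (ρ : MvPolynomial Nat.Primes ℤ →+* Module.End ℂ V)
    (ev : V →ₗ[ℂ] (ℤ × ℤ → ℂ)) (hinj : Function.Injective ev)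
    (hmem : ∀ x, ev x ∈ HOut N ((n : ℤ) + 2) L) (hsurj : ∀ F ∈ HOut N ((n : ℤ) + 2) L, ∃ x, ev x = F)
    (hT : ∀ (q : Nat.Primes) x, ev (ρ (X q) x) = ((q : ℕ) : ℂ)⁻¹ • hop L q (ev x)) :
    ∃ _ : FiniteDimensional ℂ V, Sys ρ = eisOut N n L := by
  have hL : 0 < L := Nat.pos_of_ne_zero (NeZero.ne L)
  have he : Even ((n : ℤ) + 2) := by
    obtain ⟨m, hm⟩ := hn
    exact ⟨m + 1, by rw [hm]; push_cast; ring⟩
  obtain ⟨hfd, hS⟩ := Sys_cusps (K := ℂ) (fun q : Nat.Primes => (q : ℕ)) (fun q => q.2) hL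
    (L.divisors.filter fun d => ¬ N ∣ d) (fun d hd => Nat.dvd_of_mem_divisors (mem_filter.1 hd).1)
    ρ ev (fun q => (q : ℂ) ^ (n + 1)) (fun q => (q : ℂ)⁻¹)
    (by
      intro x hx
      apply hinj
      rw [map_zero]
      refine HF_zero_of_prim (hmem x).1 fun u v h => ?_
      by_cases hv : (N : ℤ) ∣ v
      · exact (hmem x).2 _ ((inC_prim_iff h).2 hv)
      · exact hx u v h (mem_filter.2 ⟨Nat.mem_divisors.2 ⟨cd_dvd_right L v, hL.ne'⟩,
          fun h1 => hv ((dvd_cd hN v).1 h1)⟩))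
    (by
      intro d hd ψ
      obtain ⟨hd1, hd2⟩ := mem_filter.1 hd
      obtain ⟨x, hx⟩ := hsurj (Eh ((n : ℤ) + 2) L d ψ) ⟨Eh_mem_HF he hL d ψ, by
        intro v hv
        by_cases h0 : v = (0, 0)
        · rw [h0]
          simp [Eh]
        · obtain ⟨m, hm, a, c, hac, rfl⟩ := exists_prim h0
          have hm' : (m : ℤ) ≠ 0 := by exact_mod_cast hm.ne'
          rw [Eh_mul he L d ψ hm' hac]
          rw [inC_mul_iff hm', inC_prim_iff hac, ← dvd_cd hN] at hv
          unfold Ep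
          rw [if_neg (fun h1 : cd L c = d => hd2 (h1 ▸ hv)), mul_zero]⟩
      refine ⟨x, fun u v h => ?_⟩
      rw [hx, Eh_prim he L d ψ h]
      rfl)
    (by
      intro x a b c e u v h1 h2 _
      exact HF_inv (hmem x).1 h1 h2)
    (by
      intro x q u v _
      have h1 := (hmem x).1.2.1 ((q : ℕ) : ℤ) (by exact_mod_cast q.2.ne_zero) (u, v)
      rw [h1, ← mul_assoc]
      congr 1
      have h2 : ((n : ℤ) + 2) = ((n + 1 : ℕ) : ℤ) + 1 := by push_cast; ring
      rw [h2, Int.cast_natCast, zpow_add_one₀ (prime_ne_zero q), zpow_natCast, mul_comm,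
        mul_assoc, mul_inv_cancel₀ (prime_ne_zero q), mul_one])
    (by
      intro x u v h hv
      refine (hmem x).2 _ ((inC_prim_iff h).2 ?_)
      rw [← dvd_cd hN]
      by_contra h1
      exact hv (mem_filter.2 ⟨Nat.mem_divisors.2 ⟨cd_dvd_right L v, hL.ne'⟩, h1⟩))
    (by
      intro x q u v _ _
      rw [hT, Pi.smul_apply, smul_eq_mul, hop_apply'])
  refine ⟨hfd, hS.trans ?_⟩
  unfold eisOut
  refine sum_congr rfl fun d hd => ?_
  obtain ⟨hd1, hd2⟩ := mem_filter.1 hd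
  refine sum_congr rfl fun ψ _ => ?_
  congr 1
  refine line_eq_sysOf fun q => ?_
  unfold lam outV
  rw [mul_inv_cancel₀ (prime_ne_zero q), one_mul]
  rfl

/-- **The boundary symbols.** -/
theorem Sys_HIn {n : ℕ} (hn : Even n) {L : ℕ} [NeZero L] (hN : N ∣ L) {V : Type*}
    [AddCommGroup V] [Module ℂ V] (ρ : MvPolynomial Nat.Primes ℤ →+* Module.End ℂ V)
    (π : HF (-(n : ℤ)) L →ₗ[ℂ] V) (hsurj : Function.Surjective π)
    (hker : ∀ F, π F = 0 ↔ ∀ v, inC N v → (F : ℤ × ℤ → ℂ) v = 0)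
    (hT : ∀ (q : Nat.Primes) (F : HF (-(n : ℤ)) L), ∃ G : HF (-(n : ℤ)) L,
      (G : ℤ × ℤ → ℂ) = ((q : ℕ) : ℂ) ^ n • hop L q F ∧ ρ (X q) (π F) = π G) :
    ∃ _ : FiniteDimensional ℂ V, Sys ρ = eisIn N n L := by
  classical
  have hL : 0 < L := Nat.pos_of_ne_zero (NeZero.ne L)
  have he : Even (-(n : ℤ)) := by
    obtain ⟨m, hm⟩ := hn
    exact ⟨-m, by rw [hm]; push_cast; ring⟩
  -- the values at the cusps `4 ∣ c`
  have hwd : ∀ F G : HF (-(n : ℤ)) L, π F = π G → ∀ v, inC N v →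
      (F : ℤ × ℤ → ℂ) v = (G : ℤ × ℤ → ℂ) v := by
    intro F G h v hv
    have h1 := (hker (F - G)).1 (by rw [map_sub, h, sub_self]) v hv
    exact sub_eq_zero.1 h1
  let ev : V →ₗ[ℂ] (ℤ × ℤ → ℂ) :=
    { toFun := fun x v => if inC N v then ((Function.surjInv hsurj x : HF (-(n : ℤ)) L) :
        ℤ × ℤ → ℂ) v else 0
      map_add' := fun x y => by
        funext v
        by_cases hv : inC N v
        · rw [Pi.add_apply, if_pos hv, if_pos hv, if_pos hv]
          refine hwd _ (Function.surjInv hsurj x + Function.surjInv hsurj y) ?_ v hv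
          rw [map_add, Function.surjInv_eq hsurj, Function.surjInv_eq hsurj,
            Function.surjInv_eq hsurj]
        · rw [Pi.add_apply, if_neg hv, if_neg hv, if_neg hv, add_zero]
      map_smul' := fun a x => by
        funext v
        by_cases hv : inC N v
        · rw [Pi.smul_apply, if_pos hv, if_pos hv]
          refine hwd _ (a • Function.surjInv hsurj x) ?_ v hv
          rw [map_smul, Function.surjInv_eq hsurj, Function.surjInv_eq hsurj]
        · rw [Pi.smul_apply, if_neg hv, if_neg hv, smul_zero] }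
  have hev : ∀ F v, ev (π F) v = if inC N v then (F : ℤ × ℤ → ℂ) v else 0 := by
    intro F v
    change (if inC N v then ((Function.surjInv hsurj (π F) : HF (-(n : ℤ)) L) : ℤ × ℤ → ℂ) v
      else 0) = _
    by_cases hv : inC N v
    · rw [if_pos hv, if_pos hv]
      exact hwd _ _ (Function.surjInv_eq hsurj _) v hv
    · rw [if_neg hv, if_neg hv]
  have hinv4 : ∀ {a b c e u v : ℤ}, a * e - b * c = 1 → (L : ℤ) ∣ c → IsCoprime u v →
      (inC N (a * u + b * v, c * u + e * v) ↔ inC N (u, v)) := by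
    intro a b c e u v h1 h2 h
    have h5 : IsCoprime (a * u + b * v) (c * u + e * v) :=
      isCoprime_vm (g := !![a, b; c, e]) (by rw [Matrix.det_fin_two_of]; linear_combination h1) h
    rw [inC_prim_iff h5, inC_prim_iff h, ← dvd_cd hN, ← dvd_cd hN, cd_smul h1 h2]
  obtain ⟨hfd, hS⟩ := Sys_cusps (K := ℂ) (fun q : Nat.Primes => (q : ℕ)) (fun q => q.2) hL
    (L.divisors.filter fun d => N ∣ d) (fun d hd => Nat.dvd_of_mem_divisors (mem_filter.1 hd).1)
    ρ ev (fun _ => 1) (fun q => (q : ℂ) ^ n)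
    (by
      intro x hx
      obtain ⟨F, rfl⟩ := hsurj x
      rw [hker]
      intro v hv
      by_cases h0 : v = (0, 0)
      · rw [h0]
        exact F.2.1
      · obtain ⟨m, hm, a, c, hac, rfl⟩ := exists_prim h0
        have hm' : (m : ℤ) ≠ 0 := by exact_mod_cast hm.ne'
        rw [inC_mul_iff hm'] at hv
        have h1 := hx a c hac (mem_filter.2 ⟨Nat.mem_divisors.2 ⟨cd_dvd_right L c, hL.ne'⟩,
          (dvd_cd hN c).2 ((inC_prim_iff hac).1 hv)⟩)
        rw [hev, if_pos hv] at h1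
        rw [F.2.2.1 m hm' (a, c), h1, mul_zero])
    (by
      intro d hd ψ
      obtain ⟨hd1, hd2⟩ := mem_filter.1 hd
      refine ⟨π ⟨Eh (-(n : ℤ)) L d ψ, Eh_mem_HF he hL d ψ⟩, fun u v h => ?_⟩
      rw [hev]
      change (if inC N (u, v) then Eh (-(n : ℤ)) L d ψ (u, v) else 0) = _
      rw [Eh_prim he L d ψ h]
      by_cases hv : inC N (u, v)
      · rw [if_pos hv]
        rfl
      · rw [if_neg hv, if_neg]
        intro h1
        rw [inC_prim_iff h, ← dvd_cd hN, h1] at hv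
        exact hv hd2)
    (by
      intro x a b c e u v h1 h2 h
      obtain ⟨F, rfl⟩ := hsurj x
      rw [hev, hev]
      by_cases hv : inC N (u, v)
      · rw [if_pos hv, if_pos ((hinv4 h1 h2 h).2 hv), HF_inv F.2 h1 h2]
      · rw [if_neg hv, if_neg (fun h3 => hv ((hinv4 h1 h2 h).1 h3))])
    (by
      intro x q u v _
      obtain ⟨F, rfl⟩ := hsurj x
      have hq : ((q : ℕ) : ℤ) ≠ 0 := by exact_mod_cast q.2.ne_zero
      rw [hev, hev]
      by_cases hv : inC N (u, v)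
      · rw [if_pos hv, if_pos ((inC_mul_iff hq).2 hv), F.2.2.1 _ hq (u, v), one_mul, zpow_neg,
          Int.cast_natCast, zpow_natCast, ← mul_assoc,
          mul_inv_cancel₀ (pow_ne_zero _ (prime_ne_zero q)), one_mul]
      · rw [if_neg hv, if_neg (fun h => hv ((inC_mul_iff hq).1 h)), mul_zero, mul_zero])
    (by
      intro x u v h hv
      obtain ⟨F, rfl⟩ := hsurj x
      rw [hev, if_neg]
      intro h1
      rw [inC_prim_iff h, ← dvd_cd hN] at h1
      exact hv (mem_filter.2 ⟨Nat.mem_divisors.2 ⟨cd_dvd_right L v, hL.ne'⟩, h1⟩))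
    (by
      intro x q u v h hv
      obtain ⟨F, rfl⟩ := hsurj x
      obtain ⟨G, hG, hπ⟩ := hT q F
      have hv4 : (N : ℤ) ∣ v := (dvd_cd hN v).1 (mem_filter.1 hv).2
      rw [hπ, hev, if_pos ((inC_prim_iff h).2 hv4), hG, Pi.smul_apply, smul_eq_mul, hop_apply']
      congr 2
      · refine sum_congr rfl fun b _ => ?_
        rw [hev, if_pos]
        exact inC_of h hv4 q.2 b
      · by_cases hq : (q : ℕ) ∣ L
        · rw [if_pos hq, if_pos hq]
        · rw [if_neg hq, if_neg hq, hev, if_pos]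
          exact inC_of' h hv4 (fun h2 => hq (h2.trans hN)) q.2)
  refine ⟨hfd, hS.trans ?_⟩
  unfold eisIn
  refine sum_congr rfl fun d hd => ?_
  obtain ⟨hd1, hd2⟩ := mem_filter.1 hd
  refine sum_congr rfl fun ψ _ => ?_
  congr 1
  refine line_eq_sysOf fun q => ?_
  unfold lam inV
  rw [one_mul, pow_succ']
  rfl

end Gouvea.CN
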