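import Pool.Agent.Work.MP_d3517d_nt.CN.TwoA
import Pool.Agent.Work.MP_d3517d_nt.CN.ResDefs
import Pool.Agent.Work.MP_d3517d_nt.Cnt.E0

/-!
# The sum of the residues in weight two, general cusps (MP_d3517d_nt, CN)

* `E0_res` : the sum of the residues of a symbol of weight `2` is zero;
* `exists_E0_ne_zero` : there is a function of degree `2` which vanishes at the cusps of
  `PX.Cusp N` (`N ≥ 2`) with nonzero sum.
-/

open CongruenceSubgroup
open scoped MatrixGroups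

noncomputable section

namespace Gouvea.CN

open Gouvea.Cnt (X E0 E0fun E0_eq_sum E0fun_mk exists_prim isCoprime_vm vm_smul_E0 par vm HF)

variable {N : ℕ}

/-- **The residue theorem in weight two.** -/
theorem E0_res {M : ℕ} [NeZero M] (hM : N ∣ M) (ψ : PX.Sym ℂ N M 0) :
    E0 M (res N M 0 (ψ : PX.Cusp N → PX.Cusp N → Fin (0 + 1) → ℂ)) = 0 := by
  have : Fintype (X M) := Fintype.ofFinite _
  rw [E0_eq_sum]
  have h0 := TwoA.sum_val hM ψ
  have h1 : ∀ x : X M, E0fun M (res N M 0 (ψ : PX.Cusp N → PX.Cusp N → Fin (0 + 1) → ℂ)) x =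
      (M : ℂ)⁻¹ * (ψ : PX.Cusp N → PX.Cusp N → Fin (0 + 1) → ℂ) (PX.inf N)
      (PX.ofG0 hM (x.out⁻¹ * ModularGroup.T ^ M * x.out) (Cnt.TwoA.conj_mem M x.out) •
        PX.inf N) 0 := by
    intro x
    have h2 : PX.ofG0 hM (x.out⁻¹ * ModularGroup.T ^ M * x.out) (Cnt.TwoA.conj_mem M x.out) =
        parN N (vm (x.out⁻¹).1 (1, 0)) ((M / N : ℕ) : ℤ) := by
      refine Subtype.ext ?_
      have h3 : (N : ℤ) * ((M / N : ℕ) : ℤ) = M := by
        have := Nat.mul_div_cancel' hM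
        exact_mod_cast this
      rw [parN_coe, h3, ← Cnt.TwoA.conj_eq]
      rfl
    rw [h2, E0fun, res, Cnt.hev]
    simp
  rw [Finset.sum_congr rfl fun x _ => h1 x, ← Finset.mul_sum, h0, mul_zero]

/-! ### A function with nonzero sum -/

variable (N) in
/-- `gcd²` on the vectors `l (a, c)`, `(a, c)` primitive with `N ∤ c`, and `0` on the others -/
def hgen (v : ℤ × ℤ) : ℂ :=
  if (N : ℤ) ∣ v.2 / (Int.gcd v.1 v.2 : ℤ) then 0 else ((Int.gcd v.1 v.2 : ℕ) : ℂ) ^ 2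

lemma hgen_eq {l a c : ℤ} (hl : l ≠ 0) (hac : IsCoprime a c) :
    hgen N (l * a, l * c) = if (N : ℤ) ∣ c then 0 else (l : ℂ) ^ 2 := by
  have h1 : Int.gcd (l * a) (l * c) = l.natAbs := by
    rw [Int.gcd_mul_left, Int.isCoprime_iff_gcd_eq_one.1 hac, mul_one]
  have h2 : ((l.natAbs : ℕ) : ℂ) ^ 2 = (l : ℂ) ^ 2 := by
    rcases Int.natAbs_eq l with h3 | h3
    · have h4 : (l : ℂ) = ((l.natAbs : ℕ) : ℂ) := by
        conv_lhs => rw [h3]
        exact Int.cast_natCast _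
      rw [h4]
    · have h4 : (l : ℂ) = -((l.natAbs : ℕ) : ℂ) := by
        conv_lhs => rw [h3]
        rw [Int.cast_neg, Int.cast_natCast]
      rw [h4, neg_sq]
  simp only [hgen]
  rw [h1, h2]
  rcases le_or_gt 0 l with h | h
  · have h3 : ((l.natAbs : ℕ) : ℤ) = l := Int.natAbs_of_nonneg h
    rw [h3, Int.mul_ediv_cancel_left _ hl]
  · have h3 : ((l.natAbs : ℕ) : ℤ) = -l := by omega
    have h4 : l * c / ((l.natAbs : ℕ) : ℤ) = -c := by
      rw [h3, show l * c = -l * -c by ring, Int.mul_ediv_cancel_left _ (by omega)]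
    rw [h4]
    simp only [dvd_neg]

lemma hgen_zero : hgen N (0, 0) = 0 := by
  simp [hgen]

lemma hgen_mem {M : ℕ} (hM : N ∣ M) : hgen N ∈ HF 2 M := by
  refine ⟨hgen_zero, fun l hl v => ?_, fun g hg v => ?_⟩
  · rcases exists_prim v with rfl | ⟨k, a, c, hk, hac, rfl⟩
    · simp [hgen_zero]
    · simp only
      rw [← mul_assoc, ← mul_assoc, hgen_eq (mul_ne_zero hl hk) hac, hgen_eq hk hac]
      split_ifs
      · rw [mul_zero]
      · push_cast
        rw [mul_pow]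
        norm_cast
  · rcases exists_prim v with rfl | ⟨k, a, c, hk, hac, rfl⟩
    · simp [vm]
    · rw [vm_smul_E0, hgen_eq hk (isCoprime_vm g hac), hgen_eq hk hac]
      have h1 : (N : ℤ) ∣ g.1 1 0 := by
        have h2 := Gamma0_mem.1 hg
        rw [ZMod.intCast_zmod_eq_zero_iff_dvd] at h2
        exact (Int.natCast_dvd_natCast.2 hM).trans h2
      have hd := Matrix.SpecialLinearGroup.det_coe g
      rw [Matrix.det_fin_two] at hd
      obtain ⟨t, ht⟩ := h1
      have h3 : IsCoprime (g.1 1 1) (N : ℤ) :=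
        ⟨g.1 0 0, -(g.1 0 1 * t), by rw [ht] at hd; linear_combination hd⟩
      have h4 : (N : ℤ) ∣ (vm g.1 (a, c)).2 ↔ (N : ℤ) ∣ c := by
        have h5 : (vm g.1 (a, c)).2 = N * (t * a) + g.1 1 1 * c := by
          simp only [vm]
          rw [ht]
          ring
        rw [h5, dvd_add_right (dvd_mul_right _ _)]
        exact ⟨fun h => h3.symm.dvd_of_dvd_mul_left h, fun h => h.mul_left _⟩
      simp only [h4]

lemma hgen_mem_HOut {M : ℕ} (hM : N ∣ M) : hgen N ∈ HOut N 2 M := by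
  refine ⟨hgen_mem hM, ?_⟩
  rintro v ⟨l, a, c, hl, ha, hc, -, rfl⟩
  rcases exists_prim (l * a, l * c) with h | ⟨k, a', c', hk, hac, h⟩
  · rw [h, hgen_zero]
  · rw [h, hgen_eq hk hac]
    obtain ⟨h1, h2⟩ := Prod.ext_iff.1 h
    simp only at h1 h2
    -- `a c' = a' c`
    have h3 : a * c' = a' * c := by
      have h4 : l * k * (a * c') = l * k * (a' * c) := by
        linear_combination (k * c') * h1 - (k * a') * h2
      exact mul_left_cancel₀ (mul_ne_zero hl hk) h4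
    have h5 : (N : ℤ) ∣ a * c' := by
      rw [h3]
      exact hc.mul_left _
    rw [if_pos (ha.symm.dvd_of_dvd_mul_left h5)]

/-- `hgen` has natural values -/
lemma hgen_nat (v : ℤ × ℤ) : ∃ r : ℕ, hgen N v = (r : ℂ) := by
  unfold hgen
  split_ifs
  · exact ⟨0, by simp⟩
  · exact ⟨(Int.gcd v.1 v.2) ^ 2, by push_cast; rfl⟩

lemma hgen_one (hN : 2 ≤ N) : hgen N (0, 1) = 1 := by
  have h1 := hgen_eq (N := N) (l := 1) (a := 0) (c := 1) one_ne_zero isCoprime_one_right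
  have h2 : ¬ (N : ℤ) ∣ 1 := by
    intro h
    have := Int.le_of_dvd one_pos h
    omega
  rw [if_neg h2] at h1
  simpa using h1

/-- **There is a function `h` of degree `2` which vanishes at the cusps of `PX.Cusp N`, with
`E0 M h ≠ 0`.** -/
theorem exists_E0_ne_zero (hN : 2 ≤ N) (M : ℕ) [NeZero M] (hM : N ∣ M) :
    ∃ h ∈ HOut N 2 M, E0 M h ≠ 0 := by
  refine ⟨hgen N, hgen_mem_HOut hM, ?_⟩
  have : Fintype (X M) := Fintype.ofFinite _
  choose r hr using hgen_nat (N := N)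
  rw [E0_eq_sum]
  have h1 : ∑ x : X M, E0fun M (hgen N) x =
      ((∑ x : X M, r (vm (x.out⁻¹ : SL(2, ℤ)).1 (1, 0)) : ℕ) : ℂ) := by
    push_cast
    exact Finset.sum_congr rfl fun x _ => hr _
  rw [h1, Nat.cast_ne_zero]
  have h2 : r (vm (((QuotientGroup.mk Cnt.Sm⁻¹ : X M).out)⁻¹ : SL(2, ℤ)).1 (1, 0)) = 1 := by
    have h3 := E0fun_mk (hgen_mem hM) (M := M) Cnt.Sm⁻¹
    rw [inv_inv] at h3
    have h4 : vm Cnt.Sm.1 (1, 0) = (0, 1) := by
      simp [vm, Cnt.Sm]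
    rw [h4, hgen_one hN] at h3
    have h5 := hr (vm (((QuotientGroup.mk Cnt.Sm⁻¹ : X M).out)⁻¹ : SL(2, ℤ)).1 (1, 0))
    have h6 : ((r (vm (((QuotientGroup.mk Cnt.Sm⁻¹ : X M).out)⁻¹ : SL(2, ℤ)).1 (1, 0)) : ℕ) : ℂ) =
        ((1 : ℕ) : ℂ) := by
      rw [← h5, Nat.cast_one]
      exact h3
    exact_mod_cast h6
  have h7 := Finset.single_le_sum
    (f := fun x : X M => r (vm (x.out⁻¹ : SL(2, ℤ)).1 (1, 0))) (fun x _ => Nat.zero_le _)
    (Finset.mem_univ (QuotientGroup.mk Cnt.Sm⁻¹ : X M))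
  simp only [h2] at h7
  omega

end Gouvea.CN
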