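import Pool.Agent.Work.MP_d3517d_nt.PN.Psi
import Pool.Agent.Work.MP_d3517d_nt.PN.ToX

/-!
# The index of `Γ₀(9)` and the dimension of the partial symbols of level `9 ∣ M` (MP_d3517d_nt)
-/

open Matrix CongruenceSubgroup
open scoped MatrixGroups

noncomputable section

namespace Gouvea.CN

/-- the class of the column `(a, c)` in `ℙ¹(ℤ/9)` -/
def kap9 (a c : ZMod 9) : Fin 12 :=
  if 3 * c = 0 then Fin.ofNat 12 (9 + (c * a ^ 5).val / 3) else Fin.ofNat 12 (a * c ^ 5).val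

lemma kap9_prim : ∀ a b c d : ZMod 9, a * d - b * c = 1 → (3 * a ≠ 0 ∨ 3 * c ≠ 0) := by
  intro a b c d h
  by_contra hc
  rw [not_or, not_not, not_not] at hc
  obtain ⟨h1, h2⟩ := hc
  have h3 : (3 : ZMod 9) = 0 := by
    have e := congrArg (fun x => 3 * x) h
    simp only [mul_one] at e
    rw [← e]
    linear_combination d * h1 - b * h2
  revert h3
  decide

lemma kap9_iff1 : ∀ a c c' : ZMod 9, 3 * c ≠ 0 → 3 * c' ≠ 0 → ∀ a' : ZMod 9,
    (kap9 a c = kap9 a' c' ↔ a * c' = c * a') := by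
  decide +kernel

lemma kap9_iff2 : ∀ a c c' : ZMod 9, 3 * c = 0 → 3 * a ≠ 0 → 3 * c' = 0 → ∀ a' : ZMod 9,
    3 * a' ≠ 0 → (kap9 a c = kap9 a' c' ↔ a * c' = c * a') := by
  decide +kernel

lemma kap9_iff3 : ∀ a c c' : ZMod 9, 3 * c = 0 → 3 * a ≠ 0 → 3 * c' ≠ 0 → ∀ a' : ZMod 9,
    (kap9 a c = kap9 a' c' ↔ a * c' = c * a') := by
  decide +kernel

lemma kap9_iff4 : ∀ a c c' : ZMod 9, 3 * c ≠ 0 → 3 * c' = 0 → ∀ a' : ZMod 9, 3 * a' ≠ 0 →
    (kap9 a c = kap9 a' c' ↔ a * c' = c * a') := by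
  decide +kernel

lemma kap9_iff (a c a' c' : ZMod 9) (h : 3 * a ≠ 0 ∨ 3 * c ≠ 0) (h' : 3 * a' ≠ 0 ∨ 3 * c' ≠ 0) :
    (kap9 a c = kap9 a' c' ↔ a * c' = c * a') := by
  by_cases h1 : 3 * c = 0
  · have ha := h.resolve_right (not_not.2 h1)
    by_cases h2 : 3 * c' = 0
    · exact kap9_iff2 a c c' h1 ha h2 a' (h'.resolve_right (not_not.2 h2))
    · exact kap9_iff3 a c c' h1 ha h2 a'
  · by_cases h2 : 3 * c' = 0
    · exact kap9_iff4 a c c' h1 h2 a' (h'.resolve_right (not_not.2 h2))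
    · exact kap9_iff1 a c c' h1 h2 a'

/-- the class of `g` -/
def cl9 (g : SL(2, ℤ)) : Fin 12 := kap9 ((g 0 0 : ℤ) : ZMod 9) ((g 1 0 : ℤ) : ZMod 9)

lemma col9_prim (g : SL(2, ℤ)) :
    3 * ((g 0 0 : ℤ) : ZMod 9) ≠ 0 ∨ 3 * ((g 1 0 : ℤ) : ZMod 9) ≠ 0 := by
  refine kap9_prim _ ((g 0 1 : ℤ) : ZMod 9) _ ((g 1 1 : ℤ) : ZMod 9) ?_
  have h := Matrix.SpecialLinearGroup.det_coe g
  rw [Matrix.det_fin_two] at h
  have h2 := congrArg (Int.cast : ℤ → ZMod 9) h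
  push_cast at h2
  exact h2

lemma cl9_iff (g h : SL(2, ℤ)) : cl9 g = cl9 h ↔ g⁻¹ * h ∈ Gamma0 9 := by
  rw [cl9, cl9, kap9_iff _ _ _ _ (col9_prim g) (col9_prim h), Gamma0_mem]
  have e : ((g⁻¹ * h) 1 0 : ℤ) = -(g 1 0) * h 0 0 + g 0 0 * h 1 0 := by
    have e1 : ((g⁻¹ * h : SL(2, ℤ)) : Matrix (Fin 2) (Fin 2) ℤ) =
        ((g⁻¹ : SL(2, ℤ)) : Matrix (Fin 2) (Fin 2) ℤ) * (h : Matrix (Fin 2) (Fin 2) ℤ) :=
      Matrix.SpecialLinearGroup.coe_mul _ _
    have e2 := congrFun (congrFun e1 1) 0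
    rw [Matrix.mul_apply, Fin.sum_univ_two] at e2
    rw [Matrix.SpecialLinearGroup.coe_inv, Matrix.adjugate_fin_two] at e2
    simpa using e2
  rw [show (((g⁻¹ * h : SL(2, ℤ)) : Matrix (Fin 2) (Fin 2) ℤ) 1 0) =
    -(g 1 0) * h 0 0 + g 0 0 * h 1 0 from e]
  push_cast
  constructor
  · intro h1
    rw [h1]
    ring
  · intro h1
    linear_combination h1

/-- twelve representatives -/
def rep9 (i : Fin 12) : SL(2, ℤ) :=
  if (i : ℕ) < 9 then ⟨!![(i : ℤ), -1; 1, 0], by simp⟩ else ⟨!![1, 0; 3 * ((i : ℤ) - 9), 1], by simp⟩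

lemma cl9_rep9 (i : Fin 12) : cl9 (rep9 i) = i := by
  fin_cases i <;> simp [cl9, rep9] <;> decide

theorem index_Gamma0_nine : (Gamma0 9).index = 12 := by
  have hb : Function.Bijective (Quotient.lift (s := QuotientGroup.leftRel (Gamma0 9)) cl9
      fun g h hgh => (cl9_iff g h).2 (QuotientGroup.leftRel_apply.1 hgh)) := by
    constructor
    · intro x y
      induction x using Quotient.inductionOn with
      | h g =>
        induction y using Quotient.inductionOn with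
        | h h =>
          intro hgh
          exact Quotient.sound (s := QuotientGroup.leftRel (Gamma0 9))
            (QuotientGroup.leftRel_apply.2 ((cl9_iff g h).1 hgh))
    · intro i
      exact ⟨Quotient.mk _ (rep9 i), cl9_rep9 i⟩
  have h1 := Nat.card_eq_of_bijective _ hb
  rw [Subgroup.index]
  refine h1.trans ?_
  simp

/-! ### `T9` and `Γ₀(9)` -/

/-- the determinant -/
def detT : PN.T9 →* ℤˣ := (Matrix.GeneralLinearGroup.det).comp PN.T9.subtype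

lemma detT_eq (g : PN.T9) : ((detT g : ℤˣ) : ℤ) = (PN.mt g).det := rfl

lemma G0_nine : PN.G0 9 = detT.ker := by
  ext g
  rw [PN.mem_G0, MonoidHom.mem_ker, ← Units.val_inj, detT_eq, Units.val_one]
  exact ⟨fun h => h.1, fun h => ⟨h, by exact_mod_cast PN.mt_dvd g⟩⟩

lemma index_G0_nine : (PN.G0 9).index = 2 := by
  rw [G0_nine, Subgroup.index_ker]
  have h1 : detT.range = ⊤ := by
    rw [eq_top_iff]
    rintro u -
    rcases Int.units_eq_one_or u with rfl | rfl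
    · exact one_mem _
    · obtain ⟨g, hg⟩ := PN.g9_mk (-1) 0 0 1 (Or.inr (by norm_num)) (dvd_zero _)
      refine ⟨g, Units.ext ?_⟩
      rw [detT_eq, hg, Matrix.det_fin_two_of]
      norm_num
  rw [h1, Nat.card_congr Subgroup.topEquiv.toEquiv]
  simp

/-- `Γ₀(9)` in `T9` -/
def inT : Gamma0 9 →* PN.T9 where
  toFun g := ⟨Matrix.SpecialLinearGroup.toGL (g : SL(2, ℤ)), by
    have h := Gamma0_mem.1 g.2
    rw [ZMod.intCast_zmod_eq_zero_iff_dvd] at h
    exact h⟩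
  map_one' := by
    refine Subtype.ext ?_
    exact map_one _
  map_mul' g h := by
    refine Subtype.ext ?_
    exact map_mul _ _ _

lemma mt_inT (g : Gamma0 9) : PN.mt (inT g) = (g : SL(2, ℤ)).1 := rfl

lemma range_inT : inT.range = PN.G0 9 := by
  ext g
  constructor
  · rintro ⟨h, rfl⟩
    rw [PN.mem_G0, mt_inT]
    refine ⟨(h : SL(2, ℤ)).2, ?_⟩
    have h1 := Gamma0_mem.1 h.2
    rw [ZMod.intCast_zmod_eq_zero_iff_dvd] at h1
    exact h1
  · intro hg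
    rw [PN.mem_G0] at hg
    refine ⟨⟨⟨PN.mt g, hg.1⟩, ?_⟩, ?_⟩
    · rw [Gamma0_mem, ZMod.intCast_zmod_eq_zero_iff_dvd]
      exact hg.2
    · exact PN.mt_inj rfl

lemma comap_inT (M : ℕ) : (PN.G0 M).comap inT = (Gamma0 M).subgroupOf (Gamma0 9) := by
  ext g
  rw [Subgroup.mem_comap, Subgroup.mem_subgroupOf, PN.mem_G0, mt_inT, Gamma0_mem,
    ZMod.intCast_zmod_eq_zero_iff_dvd]
  exact ⟨fun h => h.2, fun h => ⟨(g : SL(2, ℤ)).2, h⟩⟩

/-- `6 · |Γ₀(M) \ T9| = [SL₂(ℤ) : Γ₀(M)]` for `9 ∣ M` -/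
theorem card_Vx {M : ℕ} [NeZero M] (hM : 9 ∣ M) :
    Fintype.card (PN.Vx M) * 6 = (Gamma0 M).index := by
  have hle : Gamma0 M ≤ Gamma0 9 := by
    intro g hg
    rw [Gamma0_mem, ZMod.intCast_zmod_eq_zero_iff_dvd] at hg ⊢
    exact (Int.natCast_dvd_natCast.2 hM).trans hg
  have h1 : Fintype.card (PN.Vx M) = (PN.G0 M).index := by
    rw [Subgroup.index, ← Nat.card_eq_fintype_card]
    exact Nat.card_congr (QuotientGroup.quotientRightRelEquivQuotientLeftRel (PN.G0 M))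
  have h2 : (PN.G0 M).relIndex (PN.G0 9) = (Gamma0 M).relIndex (Gamma0 9) := by
    rw [← range_inT, ← Subgroup.index_comap, comap_inT]
    rfl
  have h3 := Subgroup.relIndex_mul_index (PN.G0_le hM)
  have h4 := Subgroup.relIndex_mul_index hle
  rw [h2, index_G0_nine] at h3
  rw [index_Gamma0_nine] at h4
  rw [h1, ← h3, ← h4]
  ring

theorem finiteDimensional_Sym9 (k : Type) [Field k] (M : ℕ) [NeZero M] (n : ℕ) (hn : Even n) :
    FiniteDimensional k (PX.Sym k 9 M n) := by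
  have : FiniteDimensional k (PN.Sym k M n) := Module.Finite.equiv (PN.Psi k M n hn).symm
  exact Module.Finite.equiv (PN.symX k n M).symm

/-- `6 dim Sym_n(Γ₀(M)) = [SL₂(ℤ) : Γ₀(M)] (n + 1)` -/
theorem six_mul_finrank_Sym9 (k : Type) [Field k] (M : ℕ) [NeZero M] (hM : 9 ∣ M) (n : ℕ)
    (hn : Even n) :
    6 * Module.finrank k (PX.Sym k 9 M n) = (Gamma0 M).index * (n + 1) := by
  rw [(PN.symX k n M).finrank_eq, (PN.Psi k M n hn).finrank_eq,
    Module.finrank_fintype_fun_eq_card, Fintype.card_prod, Fintype.card_fin, ← mul_assoc,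
    mul_comm 6, card_Vx hM]

end Gouvea.CN
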