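import Pool.Agent.Work.MP_d3517d_nt.Cnt.Inj

/-!
# The upper bound for the full modular symbols of level `Γ₀(M)`, `4 ∣ M` or `9 ∣ M`

Only the fact that `Γ₀(M)` contains no elements of trace `0, 1, -1` is used.
-/

open Matrix CongruenceSubgroup Module
open scoped MatrixGroups

noncomputable section

namespace Gouvea.CN

open Gouvea.Cnt (X rho rho_apply rho_mul rho_one rho_neg_one Sm Rm Sm_sq Rm_cube Man mem_of_fix
  trace_conj trace_rho finrank_W ss rrr rrr' rr r4 triv triv_top finrank_quot_le SF toMan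
  toMan_injective)

section Fix

variable {M : ℕ}

/-- an element of `Γ₀(M)`, `9 ∣ M`, has trace `± 2` mod `9` -/
lemma trace_nine (hM : 9 ∣ M) {g : SL(2, ℤ)} (hg : g ∈ Gamma0 M) :
    ((Matrix.trace g.1 : ℤ) : ZMod 9) = 2 ∨ ((Matrix.trace g.1 : ℤ) : ZMod 9) = 7 := by
  rw [Gamma0_mem, ZMod.intCast_zmod_eq_zero_iff_dvd] at hg
  have h9 : (9 : ℤ) ∣ g 1 0 := (Int.natCast_dvd_natCast.2 hM).trans hg
  have h5 : ((g 1 0 : ℤ) : ZMod 9) = 0 := (ZMod.intCast_zmod_eq_zero_iff_dvd _ 9).2 h9
  have hd := Matrix.SpecialLinearGroup.det_coe g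
  rw [Matrix.det_fin_two] at hd
  have h2 := congrArg (Int.cast : ℤ → ZMod 9) hd
  push_cast at h2
  rw [h5, mul_zero, sub_zero] at h2
  rw [Matrix.trace_fin_two]
  push_cast
  generalize ((g.1 0 0 : ℤ) : ZMod 9) = a at *
  generalize ((g.1 1 1 : ℤ) : ZMod 9) = d at *
  revert a d
  decide

/-- `Γ₀(M)` has no elliptic elements -/
lemma trace_ne' (hM : 4 ∣ M ∨ 9 ∣ M) {g : SL(2, ℤ)} (hg : g ∈ Gamma0 M) :
    Matrix.trace g.1 ≠ 0 ∧ Matrix.trace g.1 ≠ 1 ∧ Matrix.trace g.1 ≠ -1 := by
  rcases hM with hM | hM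
  · have h := Cnt.trace_ne hM hg
    refine ⟨fun h0 => ?_, fun h0 => ?_, fun h0 => ?_⟩ <;> rw [h0] at h <;> revert h <;> decide
  · have h := trace_nine hM hg
    refine ⟨fun h0 => ?_, fun h0 => ?_, fun h0 => ?_⟩ <;> rw [h0] at h <;> revert h <;> decide

lemma no_fix' (hM : 4 ∣ M ∨ 9 ∣ M) {h : SL(2, ℤ)}
    (ht : Matrix.trace h.1 = 0 ∨ Matrix.trace h.1 = 1 ∨ Matrix.trace h.1 = -1) (x : X M) :
    h • x ≠ x := by
  induction x using QuotientGroup.induction_on with
  | H g =>
    intro hx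
    have h1 := trace_ne' hM (mem_of_fix hx)
    rw [trace_conj] at h1
    rcases ht with ht | ht | ht
    · exact h1.1 ht
    · exact h1.2.1 ht
    · exact h1.2.2 ht

lemma no_fix_inv (hM : 4 ∣ M ∨ 9 ∣ M) {h : SL(2, ℤ)}
    (ht : Matrix.trace h.1 = 0 ∨ Matrix.trace h.1 = 1 ∨ Matrix.trace h.1 = -1) (x : X M) :
    h⁻¹ • x ≠ x := fun hx => by
  rw [inv_smul_eq_iff] at hx
  exact no_fix' hM ht x hx.symm

end Fix

section Dim

variable (M n : ℕ) [NeZero M]

lemma finrank_A (hM : 4 ∣ M ∨ 9 ∣ M) (hn : Even n) :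
    2 * finrank ℂ (LinearMap.ker (1 + rho M n Sm)) = finrank ℂ (X M → Fin (n + 1) → ℂ) := by
  have : Finite (X M) := inferInstance
  have h1 : LinearMap.IsProj (LinearMap.ker (1 + rho M n Sm))
      ((1 / 2 : ℂ) • (1 - rho M n Sm)) := by
    constructor
    · intro F
      rw [LinearMap.mem_ker]
      simp only [LinearMap.add_apply, LinearMap.smul_apply, LinearMap.sub_apply,
        Module.End.one_apply, map_smul, map_sub, ss M n hn]
      module
    · intro F hF
      rw [LinearMap.mem_ker, LinearMap.add_apply, Module.End.one_apply] at hF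
      have h2 : rho M n Sm F = -F := eq_neg_of_add_eq_zero_right hF
      simp only [LinearMap.smul_apply, LinearMap.sub_apply, Module.End.one_apply, h2]
      module
  have h3 := h1.trace
  have h4 : LinearMap.trace ℂ _ (rho M n Sm) = 0 := by
    refine trace_rho M n fun x => no_fix_inv hM (Or.inl ?_) x
    simp [Sm, Matrix.trace_fin_two]
  rw [map_smul, map_sub, h4, LinearMap.trace_one, sub_zero, smul_eq_mul] at h3
  have h5 : ((2 * finrank ℂ (LinearMap.ker (1 + rho M n Sm)) : ℕ) : ℂ) =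
      (finrank ℂ (X M → Fin (n + 1) → ℂ) : ℂ) := by
    push_cast
    rw [← h3]
    ring
  exact_mod_cast h5

lemma finrank_B (hM : 4 ∣ M ∨ 9 ∣ M) (hn : Even n) :
    3 * finrank ℂ (LinearMap.ker (1 + rho M n Rm + rho M n (Rm * Rm))) =
      2 * finrank ℂ (X M → Fin (n + 1) → ℂ) := by
  have : Finite (X M) := inferInstance
  have h1 : LinearMap.IsProj (LinearMap.ker (1 + rho M n Rm + rho M n (Rm * Rm)))
      ((1 / 3 : ℂ) • ((2 : ℂ) • 1 - rho M n Rm - rho M n (Rm * Rm))) := by
    constructor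
    · intro F
      rw [LinearMap.mem_ker]
      simp only [LinearMap.add_apply, LinearMap.smul_apply, LinearMap.sub_apply,
        Module.End.one_apply, map_smul, map_sub, rr M n, rrr M n hn, rrr' M n hn, r4 M n hn]
      module
    · intro F hF
      rw [LinearMap.mem_ker, LinearMap.add_apply, LinearMap.add_apply, Module.End.one_apply] at hF
      have h2 : rho M n (Rm * Rm) F = -(F + rho M n Rm F) := eq_neg_of_add_eq_zero_right hF
      simp only [LinearMap.smul_apply, LinearMap.sub_apply, Module.End.one_apply, h2]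
      module
  have h3 := h1.trace
  have h4 : LinearMap.trace ℂ _ (rho M n Rm) = 0 := by
    refine trace_rho M n fun x => no_fix_inv hM (Or.inr (Or.inl ?_)) x
    simp [Rm, Matrix.trace_fin_two]
  have h4' : LinearMap.trace ℂ _ (rho M n (Rm * Rm)) = 0 := by
    refine trace_rho M n fun x => no_fix_inv hM (Or.inr (Or.inr ?_)) x
    simp [Rm, Matrix.trace_fin_two]
  rw [map_smul, map_sub, map_sub, map_smul, h4, h4', LinearMap.trace_one, sub_zero, sub_zero,
    smul_eq_mul, smul_eq_mul] at h3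
  have h5 : ((3 * finrank ℂ (LinearMap.ker (1 + rho M n Rm + rho M n (Rm * Rm))) : ℕ) : ℂ) =
      ((2 * finrank ℂ (X M → Fin (n + 1) → ℂ) : ℕ) : ℂ) := by
    push_cast
    rw [← h3]
    ring
  exact_mod_cast h5

end Dim

theorem finrank_Man_le (M n : ℕ) [NeZero M] (hM : 4 ∣ M ∨ 9 ∣ M) (hn : Even n) :
    6 * finrank ℂ (Man M n) ≤ (Gamma0 M).index * (n + 1) + if n = 0 then 6 else 0 := by
  have : Finite (X M) := inferInstance
  set A := LinearMap.ker (1 + rho M n Sm) with hA
  set B := LinearMap.ker (1 + rho M n Rm + rho M n (Rm * Rm)) with hB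
  have hS : Sm ∈ triv M n (A ⊔ B) := by
    intro F
    refine Submodule.mem_sup_left ?_
    rw [hA, LinearMap.mem_ker, LinearMap.add_apply, Module.End.one_apply, map_sub, ss M n hn]
    abel
  have hR : Rm ∈ triv M n (A ⊔ B) := by
    intro F
    refine Submodule.mem_sup_right ?_
    rw [hB, LinearMap.mem_ker, LinearMap.add_apply, LinearMap.add_apply, Module.End.one_apply,
      map_sub, map_sub, rr, rrr' M n hn]
    abel
  have h1 := finrank_quot_le (triv_top hS hR)
  have h2 := Submodule.finrank_quotient_add_finrank (A ⊔ B)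
  have h3 := Submodule.finrank_sup_add_finrank_inf_eq A B
  have h4 := finrank_A M n hM hn
  have h5 := finrank_B M n hM hn
  rw [← hA] at h4
  rw [← hB] at h5
  have h6 : Man M n = A ⊓ B := rfl
  rw [h6, ← finrank_W M n]
  split_ifs at h1 ⊢ <;> omega

/-- **The upper bound of the dimension of the space of full modular symbols.** -/
theorem finrank_SF_le {n M : ℕ} [NeZero M] (hM : 4 ∣ M ∨ 9 ∣ M) (hn : Even n) :
    6 * Module.finrank ℂ (SF n M) ≤ (Gamma0 M).index * (n + 1) + if n = 0 then 6 else 0 :=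
  le_trans (Nat.mul_le_mul_left 6
    (LinearMap.finrank_le_finrank_of_injective (toMan_injective n M))) (finrank_Man_le M n hM hn)

end Gouvea.CN
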