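import Pool.Agent.Work.MP_d3517d_nt.CN.ResRst
import Pool.Agent.Work.MP_d3517d_nt.CN.BdF
import Pool.Agent.Work.MP_d3517d_nt.CN.Manin
import Pool.Agent.Work.MP_d3517d_nt.CN.Index9
import Pool.Agent.Work.MP_d3517d_nt.CN.E0
import Pool.Agent.Work.MP_d3517d_nt.ES.ThetaMain
import Pool.Agent.Work.MP_d3517d_nt.ES.InjWtTwo
import Pool.Agent.Work.MP_d3517d_nt.Cnt.Wt2

/-!
# Exact dimensions (MP_d3517d_nt, CN)

`6 dim SF = [SL₂(ℤ) : Γ₀(M)] (n + 1)` for `n ≥ 2` even, `SF = S + S + BF`, and the residues of the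
partial symbols are all of `HOut N (n + 2) M`.
-/

open Polynomial CongruenceSubgroup Module
open scoped MatrixGroups

noncomputable section

namespace Gouvea.CN

open Gouvea.Theta
open Gouvea.ES (GQ matOf sym sym_add sym_smul nice_of_cuspForm iQ cSL eq_zero_of_eps_period
  cusp_slash)
open Gouvea.Cnt (sQ SF mem_SF BF mem_BF BF_le HF finrank_HF finite_HF finrank_BF_eq_HF finite_BF
  finrank_BF_zero_eq_HF factL factL_apply E0 wt2)

variable {N M n : ℕ}

/-! ### `SF = S + S + BF` -/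

lemma cusp_sym_add (n : ℕ) [NeZero M] (f g : Gouvea.Cusp M (n + 2)) :
    (sym n (f + g : Gouvea.Cusp M (n + 2)) : Symb) = sym n f + sym n g := by
  funext x y
  exact sym_add (nice_of_cuspForm f) (nice_of_cuspForm g) x y

lemma cusp_sym_smul (n : ℕ) [NeZero M] (c : ℂ) (f : Gouvea.Cusp M (n + 2)) :
    (sym n (c • f : Gouvea.Cusp M (n + 2)) : Symb) = c • sym n f := by
  funext x y
  exact sym_smul n f c x y

/-- `(f, g) ↦ sym f + sym g | ε` -/
def SS (n M : ℕ) [NeZero M] : Gouvea.Cusp M (n + 2) × Gouvea.Cusp M (n + 2) →ₗ[ℂ] SF n M where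
  toFun x := ⟨sym n x.1 + fact n ES.eps (sym n x.2), (FSM_sym x.1).plus (FSM_sym x.2).eps⟩
  map_add' x y := by
    refine Subtype.ext ?_
    change sym n (x.1 + y.1 : Gouvea.Cusp M (n + 2)) +
        fact n ES.eps (sym n (x.2 + y.2 : Gouvea.Cusp M (n + 2))) =
      (sym n x.1 + fact n ES.eps (sym n x.2)) + (sym n y.1 + fact n ES.eps (sym n y.2))
    rw [cusp_sym_add, cusp_sym_add, fact_add]
    abel
  map_smul' c x := by
    refine Subtype.ext ?_
    change sym n (c • x.1 : Gouvea.Cusp M (n + 2)) +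
        fact n ES.eps (sym n (c • x.2 : Gouvea.Cusp M (n + 2))) =
      c • (sym n x.1 + fact n ES.eps (sym n x.2))
    rw [cusp_sym_smul, cusp_sym_smul, fact_smul, smul_add]

lemma SS_coe (n M : ℕ) [NeZero M] (x : Gouvea.Cusp M (n + 2) × Gouvea.Cusp M (n + 2)) :
    (SS n M x).1 = sym n x.1 + fact n ES.eps (sym n x.2) := rfl

/-- the linear map `S × S × BF → SF` -/
def SB (n M : ℕ) [NeZero M] :
    (Gouvea.Cusp M (n + 2) × Gouvea.Cusp M (n + 2)) × BF n M →ₗ[ℂ] SF n M :=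
  (SS n M).coprod (Submodule.inclusion (BF_le n M))

lemma SB_apply [NeZero M] (x : (Gouvea.Cusp M (n + 2) × Gouvea.Cusp M (n + 2)) × BF n M) :
    SB n M x = SS n M x.1 + Submodule.inclusion (BF_le n M) x.2 := rfl

lemma SB_injective_of [NeZero M]
    (h : ∀ x, IsBdry n M (SS n M x).1 → x = 0) : Function.Injective (SB n M) := by
  rw [injective_iff_map_eq_zero]
  rintro ⟨x, b⟩ hx
  rw [SB_apply] at hx
  have h1 : (SS n M x).1 = -b.1 := by
    have h0 : (SS n M x).1 + b.1 = 0 := congrArg (fun z : SF n M => z.1) hx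
    exact eq_neg_of_add_eq_zero_left h0
  have h2 : (SS n M x).1 ∈ BF n M := by
    rw [h1]
    exact neg_mem b.2
  have h3 := h x h2
  subst h3
  rw [map_zero, zero_add] at hx
  have h5 : b.1 = 0 := congrArg (fun z : SF n M => z.1) hx
  have h4 : b = 0 := Subtype.ext h5
  rw [h4]
  rfl

lemma SB_injective [NeZero M] (h2 : 2 ≤ n) (hn : Even n) : Function.Injective (SB n M) :=
  SB_injective_of fun x hx => by
    obtain ⟨h1, h3⟩ := eq_zero_of_isBdry h2 hn hx
    exact Prod.ext h1 h3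

lemma SB_surjective [NeZero M] (h2 : 2 ≤ n) (hn : Even n) : Function.Surjective (SB n M) := by
  intro φ
  obtain ⟨f, g, h⟩ := exists_decomp h2 hn φ.2
  refine ⟨((f, g), ⟨φ.1 - sym n f - fact n ES.eps (sym n g), h⟩), ?_⟩
  rw [SB_apply]
  refine Subtype.ext ?_
  change sym n f + fact n ES.eps (sym n g) + (φ.1 - sym n f - fact n ES.eps (sym n g)) = φ.1
  abel

instance [NeZero M] (n : ℕ) : Module.Finite ℂ (Gouvea.Cusp M n) := Cnt.finite_cusp M n

/-- `dim SF = 2 dim S + c` -/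
theorem finrank_SF [NeZero M] (h2 : 2 ≤ n) (hn : Even n) :
    finrank ℂ (SF n M) = 2 * finrank ℂ (Gouvea.Cusp M (n + 2)) + finrank ℂ (HF 0 M) := by
  have := finite_BF n M hn
  have e := (LinearEquiv.ofBijective (SB n M) ⟨SB_injective h2 hn, SB_surjective h2 hn⟩).finrank_eq
  rw [← e, Module.finrank_prod, Module.finrank_prod,
    finrank_BF_eq_HF (e := 0) ⟨0, by ring⟩ n M hn h2]
  ring

/-! ### weight two -/

lemma slashM_zero_apply (g : Matrix (Fin 2) (Fin 2) ℂ) {P : ℂ[X]} (hP : P.natDegree ≤ 0) :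
    slashM 0 g P = P := by
  rw [eq_C_of_natDegree_le_zero hP]
  ext i
  rw [slashM_apply]
  simp

/-- a boundary symbol of weight two vanishes on `(∞, γ ∞)` -/
lemma bdry_zero {φ : Symb} (h : IsBdry 0 M φ) {γ : SL(2, ℤ)} (hγ : γ ∈ Gamma0 M) :
    φ OnePoint.infty (sQ γ • OnePoint.infty) = 0 := by
  obtain ⟨w, h1, h2, h3⟩ := h
  have h4 := h2 γ hγ OnePoint.infty
  rw [slashM_zero_apply _ (h1 _)] at h4
  rw [h3]
  change w OnePoint.infty - w ((Matrix.SpecialLinearGroup.mapGL ℚ γ : GQ) • OnePoint.infty) = 0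
  rw [h4, sub_self]

lemma eps_smul_inf : (ES.eps : GQ) • (OnePoint.infty : OnePoint ℚ) = OnePoint.infty :=
  Theta.eps_smul_infty

lemma fact_eps_pair {χ : Symb} (hχ : ∀ x y, (χ x y).natDegree ≤ 0) (γ : SL(2, ℤ)) :
    fact 0 ES.eps χ OnePoint.infty (sQ γ • OnePoint.infty) =
      χ OnePoint.infty (sQ (cSL γ) • OnePoint.infty) := by
  rw [fact, slashM_zero_apply _ (hχ _ _), eps_smul_inf]
  have h1 : ES.eps • (sQ γ • (OnePoint.infty : OnePoint ℚ)) =
      sQ (cSL γ) • (OnePoint.infty : OnePoint ℚ) := by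
    have h2 := eps_mul_mapGL γ
    rw [← mul_smul]
    change (ES.eps * Matrix.SpecialLinearGroup.mapGL ℚ γ : GQ) • (OnePoint.infty : OnePoint ℚ) = _
    rw [h2, mul_smul, eps_smul_inf]
    rfl
  rw [h1]

/-- **Exact Eichler-Shimura, uniqueness in weight two.** -/
theorem eq_zero_of_isBdry_zero [NeZero M] {f g : Gouvea.Cusp M (0 + 2)}
    (h : IsBdry 0 M (sym 0 f + fact 0 ES.eps (sym 0 g))) : f = 0 ∧ g = 0 := by
  have s1 := FSM_sym (M := M) (n := 0) f
  have s2 := FSM_sym (M := M) (n := 0) g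
  have h' := h.eps
  rw [fact_add, fact_eps_eps s2.deg] at h'
  have key : ∀ (s : ℝ) (hs : s ^ 2 = 1), f + (s : ℂ) • g = 0 := by
    intro s hs
    have h0 : ((f + (s : ℂ) • g : Gouvea.Cusp M (0 + 2)) : UpperHalfPlane → ℂ) = 0 := by
      refine eq_zero_of_eps_period (M := M) (nice_of_cuspForm _) (cusp_slash _) hs fun γ hγ => ?_
      have e1 := bdry_zero h hγ
      have e2 := bdry_zero h' hγ
      rw [Pi.add_apply, Pi.add_apply, fact_eps_pair s2.deg] at e1
      rw [Pi.add_apply, Pi.add_apply, fact_eps_pair s1.deg] at e2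
      have e3 := congrArg (fun P : ℂ[X] => P.coeff 0) e1
      have e4 := congrArg (fun P : ℂ[X] => P.coeff 0) e2
      simp only [coeff_add, coeff_zero] at e3 e4
      have e5 : ∀ x y, sym 0 (f + (s : ℂ) • g : Gouvea.Cusp M (0 + 2)) x y =
          sym 0 f x y + (s : ℂ) • sym 0 g x y := by
        intro x y
        have e6 := cusp_sym_add (M := M) 0 f ((s : ℂ) • g)
        rw [cusp_sym_smul] at e6
        exact congrFun (congrFun e6 x) y
      rw [e5, e5, coeff_add, coeff_add, coeff_smul, coeff_smul, smul_eq_mul, smul_eq_mul]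
      have hs' : (s : ℂ) ^ 2 = 1 := by exact_mod_cast hs
      linear_combination e3 + (s : ℂ) * e4 +
        ((sym 0 g OnePoint.infty (iQ (cSL γ) • OnePoint.infty)).coeff 0) * (hs' - (1 : ℂ) * hs' + hs')
    exact DFunLike.coe_injective h0
  have k1 := key 1 (by norm_num)
  have k2 := key (-1) (by norm_num)
  push_cast at k1 k2
  rw [one_smul] at k1
  rw [neg_smul, one_smul] at k2
  have hf : (2 : ℂ) • f = 0 := by
    have : (2 : ℂ) • f = (f + g) + (f + -g) := by module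
    rw [this, k1, k2, add_zero]
  have hf0 : f = 0 := (smul_eq_zero.1 hf).resolve_left two_ne_zero
  refine ⟨hf0, ?_⟩
  rwa [hf0, zero_add] at k1

end Gouvea.CN
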