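import Pool.Agent.Work.MP_d3517d_nt.CN.ExactPos
import Pool.Agent.Work.MP_d3517d_nt.P5.Ex9Defs

/-!
# `ExactES9 n` for `n ≥ 2` (MP_d3517d_nt, CN)
-/

noncomputable section

namespace Gouvea.CN

open Gouvea.POS Gouvea.Sys

/-- **Exact Eichler-Shimura at the levels divisible by `9`, in degree `n ≥ 2`.** -/
theorem exactES9_pos {n : ℕ} (hn2 : 2 ≤ n) : ExactES9 n := by
  intro hn L _ h9
  rw [if_neg (by omega), add_zero, eis9_eq_add]
  exact exactES_nine h9 hn hn2

end Gouvea.CN

namespace Gouvea.POS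

/-- the same theorem, under the name of `ExactES9` -/
theorem exactES9_pos {n : ℕ} (hn2 : 2 ≤ n) : ExactES9 n := CN.exactES9_pos hn2

end Gouvea.POS
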