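import Pool.Agent.Work.MP_d3517d_nt.CN.Main
import Pool.Agent.Work.MP_d3517d_nt.CN.CuspFin

/-!
# Exact Eichler-Shimura relation for the cusps `Γ₀(N) ∞`, `n ≥ 2` (MP_d3517d_nt, CN)

`Sys (Sym ℂ N M n) = 2 • Sys (S_{n+2}(Γ₀(M))) + eisIn N n M + eisOut N n M` for `N ∣ M`,
(`4 ∣ M` or `9 ∣ M`), `2 ≤ n` even; for `N = 9` without hypotheses.
-/

open CongruenceSubgroup Polynomial
open scoped MatrixGroups

noncomputable section

namespace Gouvea.CN

open Gouvea.ES Gouvea.Theta Gouvea.POS Gouvea.Sys Gouvea.Desc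
open Gouvea.Cnt (SF HF hop hopF)

lemma mem_of_X {ι K V : Type*} [Field K] [AddCommGroup V] [Module K V]
    {ρ : MvPolynomial ι ℤ →+* Module.End K V} {W : Submodule K V}
    (h : ∀ i, ∀ v ∈ W, ρ (MvPolynomial.X i) v ∈ W) (r : MvPolynomial ι ℤ) :
    ∀ v ∈ W, ρ r v ∈ W := by
  induction r using MvPolynomial.induction_on with
  | C a =>
    intro v hv
    have e : (MvPolynomial.C a : MvPolynomial ι ℤ) = ((a : ℤ) : MvPolynomial ι ℤ) := by simp
    rw [e, map_intCast, Module.End.intCast_apply]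
    exact zsmul_mem hv a
  | add p q hp hq =>
    intro v hv
    rw [map_add, LinearMap.add_apply]
    exact add_mem (hp v hv) (hq v hv)
  | mul_X p i hp =>
    intro v hv
    rw [map_mul, Module.End.mul_apply]
    exact hp _ (h i v hv)

variable {N M n : ℕ} [NeZero M]

lemma resL_rhoN (hN : N ∣ M) (q : Nat.Primes) (ψ : PX.Sym ℂ N M n) :
    resL N M n (PX.rhoN ℂ N M n hN (MvPolynomial.X q) ψ) =
      ((q : ℕ) : ℂ)⁻¹ • hop M q (resL N M n ψ) := by
  rw [PX.rhoN_X, resL_apply, PX.opN_coe, res_hecke hN ψ q.2]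
  rfl

lemma ker_resL_stable (hN : N ∣ M) (r : MvPolynomial Nat.Primes ℤ) :
    ∀ v ∈ LinearMap.ker (resL N M n), PX.rhoN ℂ N M n hN r v ∈ LinearMap.ker (resL N M n) := by
  refine mem_of_X (fun q v hv => ?_) r
  rw [LinearMap.mem_ker] at hv ⊢
  rw [resL_rhoN, hv, map_zero, smul_zero]

lemma rhoN_bdS (hN : N ∣ M) (q : Nat.Primes) (F : HF (-(n : ℤ)) M) :
    PX.rhoN ℂ N M n hN (MvPolynomial.X q) (bdS N M n F) =
      bdS N M n (((q : ℕ) : ℂ) ^ n • hopF (-(n : ℤ)) M q.2 F) := by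
  rw [PX.rhoN_X]
  exact Subtype.ext (bdS_hecke q.2 hN F)

lemma range_bdS_stable (hN : N ∣ M) (r : MvPolynomial Nat.Primes ℤ) :
    ∀ v ∈ LinearMap.range (bdS N M n), PX.rhoN ℂ N M n hN r v ∈ LinearMap.range (bdS N M n) := by
  refine mem_of_X (fun q v hv => ?_) r
  obtain ⟨F, rfl⟩ := hv
  rw [rhoN_bdS]
  exact LinearMap.mem_range_self _ _

/-- the representation of the Hecke ring on the residues -/
def rhoQ (N M n : ℕ) [NeZero M] (hN : N ∣ M) : MvPolynomial Nat.Primes ℤ →+*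
    Module.End ℂ (PX.Sym ℂ N M n ⧸ LinearMap.ker (resL N M n)) :=
  quotRep (PX.rhoN ℂ N M n hN) _ (ker_resL_stable hN)

/-- the representation of the Hecke ring on the boundary symbols -/
def rhoB (N M n : ℕ) [NeZero M] (hN : N ∣ M) : MvPolynomial Nat.Primes ℤ →+*
    Module.End ℂ (LinearMap.range (bdS N M n)) :=
  subRep (PX.rhoN ℂ N M n hN) _ (range_bdS_stable hN)

/-- **The systems of `Sym` = two times the cusp forms, the boundary symbols, the residues**, in all
even degrees. -/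
theorem Sys_eq_add (hN2 : 2 ≤ N) (hN : N ∣ M) (hn : Even n)
    (hs : Function.Surjective (SB n M)) :
    haveI := finite_Sym (n := n) hN2 hN hn
    Sys (PX.rhoN ℂ N M n hN) = 2 • Sys (rhoC M (n + 2)) + Sys (V := LinearMap.range (bdS N M n)) (rhoB N M n hN) +
      Sys (rhoQ N M n hN) := by
  have hfd := finite_Sym (n := n) hN2 hN hn
  have hker := ker_resL (n := n) hN
  have hmem : ∀ x, PhiX N n M x ∈ LinearMap.ker (resL N M n) := by
    intro x
    rw [hker, ← range_PhiX hN hn hs]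
    exact LinearMap.mem_range_self _ _
  let Φ := (PhiX N n M).codRestrict (LinearMap.ker (resL N M n)) hmem
  have hΦ : Function.Bijective Φ := by
    constructor
    · intro x y hxy
      exact PhiX_injective hN hn (congrArg Subtype.val hxy)
    · rintro ⟨v, hv⟩
      have hv' := hv
      rw [hker, ← range_PhiX hN hn hs] at hv'
      obtain ⟨x, hx⟩ := hv'
      exact ⟨x, Subtype.ext hx⟩
  have hk : Sys (V := (Gouvea.Cusp M (n + 2) × Gouvea.Cusp M (n + 2)) ×
      LinearMap.range (bdS N M n))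
      (prodRep (V := LinearMap.range (bdS N M n)) (prodRep (rhoC M (n + 2)) (rhoC M (n + 2)))
        (rhoB N M n hN)) =
      Sys (V := LinearMap.ker (resL N M n)) (subRep (PX.rhoN ℂ N M n hN) _
        (ker_resL_stable hN)) := by
    refine Sys_congr (LinearEquiv.ofBijective Φ hΦ) ?_
    rintro r ⟨x, b⟩
    refine Subtype.ext ?_
    change PhiX N n M (prodRep (rhoC M (n + 2)) (rhoC M (n + 2)) r x, rhoB N M n hN r b) =
      PX.rhoN ℂ N M n hN r (PhiX N n M (x, b))
    rw [PhiX_apply, PhiX_apply, PX.ESX_equivariant hN, map_add]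
    rfl
  rw [Sys_sub_add_quot (PX.rhoN ℂ N M n hN) _ (ker_resL_stable hN), ← hk, Sys_prod, Sys_prod,
    two_nsmul]
  rfl

/-- **the boundary symbols**, `n ≥ 2` -/
theorem Sys_rhoB (hN2 : 2 ≤ N) (hN : N ∣ M) (hn : Even n) (hn2 : 2 ≤ n) :
    haveI := finite_Sym (n := n) hN2 hN hn
    Sys (V := LinearMap.range (bdS N M n)) (rhoB N M n hN) = eisIn N n M := by
  obtain ⟨_, h⟩ := Sys_HIn (V := LinearMap.range (bdS N M n)) hn hN (rhoB N M n hN)
    (bdS N M n).rangeRestrict (LinearMap.surjective_rangeRestrict _) (fun F => by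
      have h1 := bdS_eq_zero_iff (N := N) (M := M) (n := n) (by omega) (by omega) F
      constructor
      · intro h
        exact (h1.1 (congrArg Subtype.val h)).2
      · intro h
        exact Subtype.ext (h1.2 ⟨F.2, h⟩)) (fun q F =>
      ⟨((q : ℕ) : ℂ) ^ n • hopF (-(n : ℤ)) M q.2 F, rfl, Subtype.ext (rhoN_bdS hN q F)⟩)
  exact h

/-- **the residues**, if they are arbitrary -/
theorem Sys_rhoQ (hN2 : 2 ≤ N) (hN : N ∣ M) (hn : Even n)
    (hr : LinearMap.range (resL N M n) = HOut N (n + 2) M) :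
    haveI := finite_Sym (n := n) hN2 hN hn
    Sys (rhoQ N M n hN) = eisOut N n M := by
  have hrange : LinearMap.range ((LinearMap.ker (resL N M n)).liftQ (resL N M n) le_rfl) =
      HOut N (n + 2) M := by
    rw [Submodule.range_liftQ, hr]
  obtain ⟨_, h⟩ := Sys_HOut hn hN (rhoQ N M n hN)
    ((LinearMap.ker (resL N M n)).liftQ (resL N M n) le_rfl)
    (LinearMap.ker_eq_bot.1 (Submodule.ker_liftQ_eq_bot _ _ _ le_rfl))
    (fun x => by
      rw [← hrange]
      exact LinearMap.mem_range_self _ _)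
    (fun F hF => by
      rw [← hrange] at hF
      exact hF) (by
      intro q x
      induction x using Submodule.Quotient.induction_on with
      | H v =>
        unfold rhoQ
        rw [quotRep_mk, Submodule.liftQ_apply, Submodule.liftQ_apply, resL_rhoN])
  exact h

/-- **Exact Eichler-Shimura on the cusps `Γ₀(N) ∞`, `n ≥ 2`.** -/
theorem exactES (hN2 : 2 ≤ N) (hN : N ∣ M) (h49 : 4 ∣ M ∨ 9 ∣ M) (H : SymRank N M)
    (hn : Even n) (hn2 : 2 ≤ n) :
    haveI := finite_Sym (n := n) hN2 hN hn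
    Sys (PX.rhoN ℂ N M n hN) = 2 • Sys (rhoC M (n + 2)) + (eisIn N n M + eisOut N n M) := by
  have hs := SB_surjective_all hN2 hN h49 H hn
  rw [Sys_eq_add hN2 hN hn hs, Sys_rhoB hN2 hN hn hn2,
    Sys_rhoQ hN2 hN hn (range_resL hN2 hN h49 H hn hn2), add_assoc]

/-- **Exact Eichler-Shimura on the cusps `Γ₀(9) ∞`, `n ≥ 2`.** -/
theorem exactES_nine (h9 : 9 ∣ M) (hn : Even n) (hn2 : 2 ≤ n) :
    haveI := finite_Sym (n := n) (by norm_num) h9 hn
    Sys (PX.rhoN ℂ 9 M n h9) = 2 • Sys (rhoC M (n + 2)) + (eisIn 9 n M + eisOut 9 n M) :=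
  exactES (by norm_num) h9 (Or.inr h9) (symRank_nine h9) hn hn2

end Gouvea.CN
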