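import Pool.Agent.Work.MP_d3517d_nt.CN.ExactZeroR
import Pool.Agent.Work.MP_d3517d_nt.CN.Ex9Pos

/-!
# Exact Eichler-Shimura relation in weight two, cusps `N ∣ c` (MP_d3517d_nt, CN)

`exactES9_zero : POS.ExactES9 0`, `exactES9 : POS.ExactES9 n` for all even `n`.
-/

open CongruenceSubgroup Module
open scoped MatrixGroups

noncomputable section

namespace Gouvea.CN

open Gouvea.ES Gouvea.Theta Gouvea.POS Gouvea.Sys Gouvea.Desc
open Gouvea.Cnt (HF hop hopF hopF_comm hop_mem_HF e0 cst cst_mem rhoB_cst Sys_range_add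
  stable_of_X)

variable {N M : ℕ}

/-! ### The boundary symbols -/

variable (N M) in
/-- the functions which vanish at the cusps of `PX.Cusp N` -/
def WB : Submodule ℂ (HF e0 M) := (HOut N e0 M).comap (HF e0 M).subtype

lemma mem_WB {F : HF e0 M} : F ∈ WB N M ↔ ∀ v, inC N v → (F : ℤ × ℤ → ℂ) v = 0 :=
  ⟨fun h => h.2, fun h => ⟨F.2, h⟩⟩

lemma WB_stable (hN : N ∣ M) : ∀ r, ∀ v ∈ WB N M, Gouvea.Cnt.rhoB M r v ∈ WB N M := by
  refine stable_of_X fun q v hv => ?_
  rw [Gouvea.Cnt.rhoB_X]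
  exact hop_mem_HOut q.2 hN hv

variable (N M) in
/-- the quotient -/
abbrev QB : Type := HF e0 M ⧸ WB N M

/-- the representation on the quotient -/
def rhoQB (hN : N ∣ M) : MvPolynomial Nat.Primes ℤ →+* Module.End ℂ (QB N M) :=
  quotRep (Gouvea.Cnt.rhoB M) (WB N M) (WB_stable hN)

variable [NeZero M]

theorem Sys_rhoQB (hN : N ∣ M) :
    ∃ _ : FiniteDimensional ℂ (QB N M), Sys (V := QB N M) (rhoQB hN) = eisIn N 0 M := by
  have h0 := @Sys_HIn N 0 Even.zero M _ hN (QB N M) _ _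
  have h1 := h0 (rhoQB hN) (WB N M).mkQ (WB N M).mkQ_surjective
  have h2 := h1 (by
    intro F
    rw [Submodule.mkQ_apply, Submodule.Quotient.mk_eq_zero]
    exact mem_WB)
  exact h2 (by
    intro q F
    refine ⟨Gouvea.Cnt.rhoB M (MvPolynomial.X q) F, ?_, rfl⟩
    rw [Gouvea.Cnt.rhoB_X, pow_zero, one_smul]
    rfl)

omit [NeZero M] in
lemma inC_one_zero : inC N (1, 0) :=
  ⟨1, 1, 0, one_ne_zero, isCoprime_one_left, dvd_zero _, Or.inl one_ne_zero, by simp⟩

omit [NeZero M] in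
lemma cst_inC {v : ℤ × ℤ} (hv : inC N v) : cst v = 1 := if_neg (inC_ne hv)

theorem Sys_rhoB_zero (hN2 : 2 ≤ N) (hN : N ∣ M) :
    haveI := finite_Sym (n := 0) hN2 hN Even.zero
    Sys (V := LinearMap.range (bdS N M 0)) (rhoB N M 0 hN) + {sysOf (trivV M)} =
      eisIn N 0 M := by
  have hfd := finite_Sym (n := 0) hN2 hN Even.zero
  obtain ⟨hfin, hS⟩ := Sys_rhoQB hN
  rw [← hS]
  refine Sys_range_add (Gouvea.Cnt.rhoB M) (PX.rhoN ℂ N M 0 hN) (bdS N M 0) (WB N M)
    (WB_stable hN) ?_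
    (range_bdS_stable hN) ⟨cst, cst_mem M⟩ ?_ (sysOf (trivV M)) (rhoB_cst M) ?_
  · intro r v
    refine equivariant_of_X (fun q z => ?_) r v
    rw [Gouvea.Cnt.rhoB_X, rhoN_bdS, pow_zero, one_smul]
  · intro h
    have h1 : cst (1, 0) = 0 := mem_WB.1 h (1, 0) inC_one_zero
    rw [cst_inC (N := N) inC_one_zero] at h1
    exact one_ne_zero h1
  · intro F
    rw [bdS_zero_eq_zero_iff]
    refine exists_congr fun c => ?_
    rw [mem_WB]
    refine forall₂_congr fun v hv => ?_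
    change _ ↔ (F : ℤ × ℤ → ℂ) v - c * cst v = 0
    rw [cst_inC hv, mul_one, sub_eq_zero]

/-- **Exact Eichler-Shimura on the cusps `Γ₀(N) ∞` in weight two.** -/
theorem exactES_zero (hN2 : 2 ≤ N) (hN : N ∣ M) (h49 : 4 ∣ M ∨ 9 ∣ M) (H : SymRank N M) :
    haveI := finite_Sym (n := 0) hN2 hN Even.zero
    Sys (PX.rhoN ℂ N M 0 hN) + 2 • {sysOf (trivV M)} =
      2 • Sys (rhoC M (0 + 2)) + (eisIn N 0 M + eisOut N 0 M) := by
  have hs := SB_surjective_all hN2 hN h49 H Even.zero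
  rw [Sys_eq_add hN2 hN Even.zero hs, ← Sys_rhoB_zero hN2 hN, ← Sys_rhoQ_zero hN2 hN h49 H,
    two_nsmul {sysOf (trivV M)}]
  abel

/-- **Exact Eichler-Shimura at the levels divisible by `9`, in degree `0`.** -/
theorem exactES9_zero : ExactES9 0 := by
  intro hn L _ h9
  rw [if_pos rfl, eis9_eq_add]
  exact exactES_zero (by norm_num) h9 (Or.inr h9) (symRank_nine h9)

/-- **Exact Eichler-Shimura at the levels divisible by `9`**, all even degrees. -/
theorem exactES9 (n : ℕ) : ExactES9 n := by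
  intro hn
  rcases Nat.eq_zero_or_pos n with rfl | h
  · exact exactES9_zero hn
  · obtain ⟨m, hm⟩ := hn
    exact exactES9_pos (by omega) ⟨m, hm⟩

end Gouvea.CN
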