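import Pool.Agent.Work.MP_d3517d_nt.CN.ExactPos
import Pool.Agent.Work.MP_d3517d_nt.Cnt.HopRep

/-!
# The boundary symbols of degree zero on the cusps `Γ₀(N) ∞` (MP_d3517d_nt, CN)

`Sys_rhoB_zero`: the systems of the boundary symbols of degree `0` and the line of the constants
are the lines `eisIn N 0 M`.
-/

open CongruenceSubgroup Polynomial
open scoped MatrixGroups

noncomputable section

namespace Gouvea.CN

open Gouvea.ES Gouvea.Theta Gouvea.POS Gouvea.Sys Gouvea.Desc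
open Gouvea.Cnt (SF HF hop hopF rhoH rhoH_X finite_HF vm)

/-- an eigenvector of the generators is an eigenvector -/
lemma eigen_of_X {V : Type*} [AddCommGroup V] [Module ℂ V]
    {ρ : MvPolynomial Nat.Primes ℤ →+* Module.End ℂ V} {t : Nat.Primes → ℂ} {w : V}
    (h : ∀ q, ρ (MvPolynomial.X q) w = t q • w) (r : MvPolynomial Nat.Primes ℤ) :
    ρ r w = sysOf t r • w := by
  induction r using MvPolynomial.induction_on with
  | C a =>
    have e : (MvPolynomial.C a : MvPolynomial Nat.Primes ℤ) = ((a : ℤ) : MvPolynomial _ ℤ) := by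
      simp
    rw [e, map_intCast, map_intCast, Module.End.intCast_apply, Int.cast_smul_eq_zsmul]
  | add p q hp hq => rw [map_add, map_add, LinearMap.add_apply, hp, hq, add_smul]
  | mul_X p i hp =>
    rw [map_mul, map_mul, Module.End.mul_apply, h, map_smul, hp, smul_smul, sysOf_X, mul_comm]

/-- the constant function on the vectors `≠ 0` -/
def oneF (v : ℤ × ℤ) : ℂ := if v = (0, 0) then 0 else 1

lemma oneF_of_ne {v : ℤ × ℤ} (hv : v ≠ (0, 0)) : oneF v = 1 := if_neg hv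

lemma oneF_zero : oneF (0, 0) = 0 := if_pos rfl

lemma vm_eq_zero_iff {A : Matrix (Fin 2) (Fin 2) ℤ} (hA : A.det ≠ 0) (v : ℤ × ℤ) :
    vm A v = (0, 0) ↔ v = (0, 0) := by
  constructor
  · intro h
    have h1 : A 0 0 * v.1 + A 0 1 * v.2 = 0 := congrArg Prod.fst h
    have h2 : A 1 0 * v.1 + A 1 1 * v.2 = 0 := congrArg Prod.snd h
    rw [Matrix.det_fin_two] at hA
    have h3 : (A 0 0 * A 1 1 - A 0 1 * A 1 0) * v.1 = 0 := by
      linear_combination A 1 1 * h1 - A 0 1 * h2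
    have h4 : (A 0 0 * A 1 1 - A 0 1 * A 1 0) * v.2 = 0 := by
      linear_combination A 0 0 * h2 - A 1 0 * h1
    exact Prod.ext ((mul_eq_zero.1 h3).resolve_left hA) ((mul_eq_zero.1 h4).resolve_left hA)
  · rintro rfl
    simp [vm]

lemma oneF_vm {A : Matrix (Fin 2) (Fin 2) ℤ} (hA : A.det ≠ 0) (v : ℤ × ℤ) :
    oneF (vm A v) = oneF v := by
  by_cases h : v = (0, 0)
  · rw [(vm_eq_zero_iff hA v).2 h, h]
  · rw [oneF_of_ne h, oneF_of_ne (fun h' => h ((vm_eq_zero_iff hA v).1 h'))]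

lemma oneF_mem (M : ℕ) : oneF ∈ HF (-((0 : ℕ) : ℤ)) M := by
  refine ⟨oneF_zero, fun l hl v => ?_, fun g hg v => ?_⟩
  · rw [Nat.cast_zero, neg_zero, zpow_zero, one_mul]
    by_cases h : v = (0, 0)
    · rw [h]
      simp
    · rw [oneF_of_ne h, oneF_of_ne]
      intro h'
      rw [Prod.mk.injEq] at h'
      exact h (Prod.ext ((mul_eq_zero.1 h'.1).resolve_left hl)
        ((mul_eq_zero.1 h'.2).resolve_left hl))
  · exact oneF_vm (by rw [g.2]; exact one_ne_zero) v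

lemma hop_oneF (M : ℕ) (q : Nat.Primes) : hop M q oneF = trivV M q • oneF := by
  have hq0 : ((q : ℕ) : ℤ) ≠ 0 := by exact_mod_cast q.2.ne_zero
  funext v
  rw [Cnt.hop_apply, Pi.smul_apply, smul_eq_mul]
  have h1 : ∀ b ∈ Finset.range (q : ℕ), oneF (vm !![1, (b : ℤ); 0, ((q : ℕ) : ℤ)] v) = oneF v :=
    fun b _ => oneF_vm (by rw [Matrix.det_fin_two_of]; simpa using hq0) v
  have h2 : oneF (vm !![((q : ℕ) : ℤ), 0; 0, 1] v) = oneF v :=
    oneF_vm (by rw [Matrix.det_fin_two_of]; simpa using hq0) v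
  rw [Finset.sum_congr rfl h1, h2, Finset.sum_const, Finset.card_range, nsmul_eq_mul]
  unfold trivV
  split_ifs
  · ring
  · ring

variable {N M : ℕ} [NeZero M]

/-- the functions which vanish at the cusps -/
def K0 (N M : ℕ) : Submodule ℂ (HF (-((0 : ℕ) : ℤ)) M) :=
  (HOut N (-((0 : ℕ) : ℤ)) M).comap (HF (-((0 : ℕ) : ℤ)) M).subtype

omit [NeZero M] in
lemma mem_K0 {F : HF (-((0 : ℕ) : ℤ)) M} :
    F ∈ K0 N M ↔ ∀ v, inC N v → (F : ℤ × ℤ → ℂ) v = 0 :=
  ⟨fun h => h.2, fun h => ⟨F.2, h⟩⟩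

omit [NeZero M] in
lemma K0_stable (hN : N ∣ M) (r : MvPolynomial Nat.Primes ℤ) :
    ∀ F ∈ K0 N M, rhoH (-((0 : ℕ) : ℤ)) M (fun q => ((q : ℕ) : ℂ) ^ 0) r F ∈ K0 N M := by
  refine mem_of_X (fun q F hF => ?_) r
  rw [rhoH_X]
  exact Submodule.smul_mem _ _ (hop_mem_HOut q.2 hN hF)

/-- the action on the values at the cusps -/
def rhoK (N M : ℕ) (hN : N ∣ M) : MvPolynomial Nat.Primes ℤ →+*
    Module.End ℂ (HF (-((0 : ℕ) : ℤ)) M ⧸ K0 N M) :=
  quotRep (rhoH (-((0 : ℕ) : ℤ)) M (fun q => ((q : ℕ) : ℂ) ^ 0)) _ (K0_stable hN)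

lemma Sys_rhoK (hN : N ∣ M) :
    ∃ _ : FiniteDimensional ℂ (HF (-((0 : ℕ) : ℤ)) M ⧸ K0 N M),
      Sys (rhoK N M hN) = eisIn N 0 M := by
  refine Sys_HIn (n := 0) Even.zero hN (rhoK N M hN) (K0 N M).mkQ (K0 N M).mkQ_surjective
    (fun F => ?_) (fun q F => ⟨((q : ℕ) : ℂ) ^ 0 • hopF _ M q.2 F, rfl, ?_⟩)
  · rw [Submodule.mkQ_apply, Submodule.Quotient.mk_eq_zero, mem_K0]
  · unfold rhoK
    rw [Submodule.mkQ_apply, quotRep_mk, rhoH_X]
    rfl

lemma ne_zero_of_inC {v : ℤ × ℤ} (hv : inC N v) : v ≠ (0, 0) := by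
  obtain ⟨l, a, b, hl, ha, hb, hne, rfl⟩ := hv
  intro h
  rw [Prod.mk.injEq] at h
  rcases hne with h' | h'
  · exact h' ((mul_eq_zero.1 h.1).resolve_left hl)
  · exact h' ((mul_eq_zero.1 h.2).resolve_left hl)

lemma inC_one (N : ℕ) : inC N (1, 0) :=
  ⟨1, 1, 0, one_ne_zero, isCoprime_one_left, dvd_zero _, Or.inl one_ne_zero, by simp⟩

/-- the class of the constants -/
def wK (N M : ℕ) : HF (-((0 : ℕ) : ℤ)) M ⧸ K0 N M := (K0 N M).mkQ ⟨oneF, oneF_mem M⟩

omit [NeZero M] in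
lemma wK_ne_zero : wK N M ≠ 0 := by
  intro h
  rw [wK, Submodule.mkQ_apply, Submodule.Quotient.mk_eq_zero, mem_K0] at h
  have h1 := h (1, 0) (inC_one N)
  change oneF (1, 0) = 0 at h1
  rw [oneF_of_ne (by simp)] at h1
  exact one_ne_zero h1

omit [NeZero M] in
lemma rhoK_wK (hN : N ∣ M) (q : Nat.Primes) :
    rhoK N M hN (MvPolynomial.X q) (wK N M) = trivV M q • wK N M := by
  unfold rhoK
  rw [wK, Submodule.mkQ_apply, quotRep_mk, rhoH_X, ← Submodule.Quotient.mk_smul]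
  congr 1
  refine Subtype.ext ?_
  change ((q : ℕ) : ℂ) ^ 0 • hop M q oneF = trivV M q • oneF
  rw [pow_zero, one_smul, hop_oneF]

/-- the one-dimensional representation -/
def oneRep (χ : MvPolynomial Nat.Primes ℤ →+* ℂ) :
    MvPolynomial Nat.Primes ℤ →+* Module.End ℂ ℂ := (algebraMap ℂ (Module.End ℂ ℂ)).comp χ

lemma oneRep_apply (χ : MvPolynomial Nat.Primes ℤ →+* ℂ) (r : MvPolynomial Nat.Primes ℤ) (x : ℂ) :
    oneRep χ r x = χ r • x := rfl

lemma Sys_oneRep (χ : MvPolynomial Nat.Primes ℤ →+* ℂ) : Sys (oneRep χ) = {χ} :=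
  Sys_one _ (Module.finrank_self ℂ) χ (oneRep_apply χ)

/-- a surjective map whose kernel is the line of an eigenvector -/
theorem Sys_of_line {V W : Type*} [AddCommGroup V] [Module ℂ V] [FiniteDimensional ℂ V]
    [AddCommGroup W] [Module ℂ W] [FiniteDimensional ℂ W]
    (ρV : MvPolynomial Nat.Primes ℤ →+* Module.End ℂ V)
    (ρW : MvPolynomial Nat.Primes ℤ →+* Module.End ℂ W) (g : V →ₗ[ℂ] W)
    (hg : Function.Surjective g) (w : V) (hw0 : w ≠ 0)
    (hk : ∀ x, g x = 0 ↔ ∃ c : ℂ, c • w = x) (t : Nat.Primes → ℂ)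
    (hw : ∀ q, ρV (MvPolynomial.X q) w = t q • w)
    (hge : ∀ q x, g (ρV (MvPolynomial.X q) x) = ρW (MvPolynomial.X q) (g x)) :
    Sys ρV = {sysOf t} + Sys ρW := by
  rw [← Sys_oneRep]
  refine Sys_ex (oneRep (sysOf t)) ρV ρW (LinearMap.toSpanSingleton ℂ V w) g ?_ hg ?_ ?_ ?_
  · rw [← LinearMap.ker_eq_bot]
    exact LinearMap.ker_toSpanSingleton ℂ hw0
  · ext x
    rw [LinearMap.mem_ker, hk x]
    rfl
  · intro r x
    rw [oneRep_apply, map_smul, LinearMap.toSpanSingleton_apply, map_smul,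
      eigen_of_X hw, smul_comm]
  · intro r x
    exact PX.equivariant_of_X (f := g.toAddMonoidHom) (ρU := ρV) (ρV := ρW) hge r x

/-- the boundary symbols in degree zero, abstractly -/
theorem Sys_bd_aux (hN : N ∣ M) {W : Type*} [AddCommGroup W] [Module ℂ W] [FiniteDimensional ℂ W]
    (ρW : MvPolynomial Nat.Primes ℤ →+* Module.End ℂ W) (β : HF (-((0 : ℕ) : ℤ)) M →ₗ[ℂ] W)
    (hβ : Function.Surjective β)
    (hker : ∀ F, β F = 0 ↔ ∃ c : ℂ, ∀ v, inC N v → (F : ℤ × ℤ → ℂ) v = c)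
    (hX : ∀ (q : Nat.Primes) (F : HF (-((0 : ℕ) : ℤ)) M), ρW (MvPolynomial.X q) (β F) =
      β (((q : ℕ) : ℂ) ^ 0 • hopF (-((0 : ℕ) : ℤ)) M q.2 F)) :
    {sysOf (trivV M)} + Sys ρW = eisIn N 0 M := by
  obtain ⟨hfK, hK⟩ := Sys_rhoK (M := M) hN
  rw [← hK]
  symm
  have hle : K0 N M ≤ LinearMap.ker β := fun F hF =>
    LinearMap.mem_ker.2 ((hker F).2 ⟨0, mem_K0.1 hF⟩)
  refine Sys_of_line (rhoK N M hN) ρW ((K0 N M).liftQ β hle) ?_ (wK N M) wK_ne_zero ?_
    (trivV M) (rhoK_wK hN) ?_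
  · intro y
    obtain ⟨F, rfl⟩ := hβ y
    exact ⟨Submodule.Quotient.mk F, Submodule.liftQ_apply _ _ _⟩
  · intro x
    induction x using Submodule.Quotient.induction_on with
    | H F =>
      rw [Submodule.liftQ_apply, hker]
      constructor
      · rintro ⟨c, hc⟩
        refine ⟨c, ?_⟩
        rw [wK, ← map_smul, Submodule.mkQ_apply, Submodule.Quotient.eq, mem_K0]
        intro v hv
        change c * oneF v - (F : ℤ × ℤ → ℂ) v = 0
        rw [oneF_of_ne (ne_zero_of_inC hv), hc v hv, mul_one, sub_self]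
      · rintro ⟨c, hc⟩
        refine ⟨c, fun v hv => ?_⟩
        rw [wK, ← map_smul, Submodule.mkQ_apply, Submodule.Quotient.eq, mem_K0] at hc
        have h := hc v hv
        change c * oneF v - (F : ℤ × ℤ → ℂ) v = 0 at h
        rw [oneF_of_ne (ne_zero_of_inC hv), mul_one, sub_eq_zero] at h
        exact h.symm
  · intro q x
    induction x using Submodule.Quotient.induction_on with
    | H F =>
      unfold rhoK
      rw [quotRep_mk, rhoH_X, Submodule.liftQ_apply, Submodule.liftQ_apply, hX]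
      rfl

/-- **The boundary symbols in degree zero.** -/
theorem Sys_rhoB_zero (hN2 : 2 ≤ N) (hN : N ∣ M) :
    haveI := finite_Sym (n := 0) hN2 hN Even.zero
    {sysOf (trivV M)} + Sys (V := LinearMap.range (bdS N M 0)) (rhoB N M 0 hN) =
      eisIn N 0 M := by
  have hfd := finite_Sym (n := 0) hN2 hN Even.zero
  have h1 := Sys_bd_aux (W := LinearMap.range (bdS N M 0)) hN (rhoB N M 0 hN)
    (bdS N M 0).rangeRestrict (LinearMap.surjective_rangeRestrict _)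
  refine h1 (fun F => ?_) ?_
  · rw [← bdS_zero_eq_zero_iff F]
    constructor
    · intro h
      exact congrArg Subtype.val h
    · intro h
      exact Subtype.ext h
  · intro q F
    exact Subtype.ext (rhoN_bdS hN q F)

end Gouvea.CN
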