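import Pool.Agent.Work.MP_d3517d_nt.CN.ExactPos
import Pool.Agent.Work.MP_d3517d_nt.CN.E0
import Pool.Agent.Work.MP_d3517d_nt.Cnt.ExactZero

/-!
# The residues in weight two, cusps `N ∣ c` (MP_d3517d_nt, CN)

The systems of eigenvalues on the partial symbols of weight two modulo those without residues are
the lines `eisOut N 0 M`, one line `trivV M` excepted (the residues have sum zero).
-/

open CongruenceSubgroup Module
open scoped MatrixGroups

noncomputable section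

namespace Gouvea.CN

open Gouvea.ES Gouvea.Theta Gouvea.POS Gouvea.Sys Gouvea.Desc
open Gouvea.Cnt (HF hop hopF hopF_comm hop_mem_HF oneRep oneRep_apply Sys_oneRep sinv E0 E0L
  E0_smul E0_hop)

variable {N M : ℕ}

/-- the Hecke operators on the functions which vanish at the cusps of `PX.Cusp N` -/
def opOut (e : ℤ) (hN : N ∣ M) (q : Nat.Primes) : Module.End ℂ (HOut N e M) :=
  (hop M q).restrict fun _ h => hop_mem_HOut q.2 hN h

lemma opOut_comm (e : ℤ) (hN : N ∣ M) (q r : Nat.Primes) :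
    Commute (opOut e hN q) (opOut e hN r) := by
  refine LinearMap.ext fun F => Subtype.ext ?_
  have h := congrArg (fun T : Module.End ℂ (HF e M) => ((T ⟨F.1, F.2.1⟩ : HF e M) : ℤ × ℤ → ℂ))
    (hopF_comm (e := e) (M := M) q.2 r.2)
  exact h

/-- the representation on the functions which vanish at the cusps of `PX.Cusp N` -/
def rhoOut (e : ℤ) (hN : N ∣ M) (s : Nat.Primes → ℂ) :
    MvPolynomial Nat.Primes ℤ →+* Module.End ℂ (HOut N e M) :=
  Gouvea.Desc.comEval (fun q => s q • opOut e hN q) fun q r =>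
    ((opOut_comm e hN q r).smul_left _).smul_right _

lemma rhoOut_X (e : ℤ) (hN : N ∣ M) (s : Nat.Primes → ℂ) (q : Nat.Primes)
    (x : HOut N e M) : (rhoOut e hN s (MvPolynomial.X q) x : ℤ × ℤ → ℂ) =
      s q • hop M q (x : ℤ × ℤ → ℂ) := by
  rw [rhoOut, Gouvea.Desc.comEval_X]
  rfl

variable [NeZero M]

theorem Sys_rhoOut {e : ℤ} (he : e = ((0 : ℕ) : ℤ) + 2) (hN : N ∣ M) :
    ∃ _ : FiniteDimensional ℂ (HOut N e M),
      Sys (V := HOut N e M) (rhoOut e hN sinv) = eisOut N 0 M := by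
  have h0 := @Sys_HOut N 0 Even.zero M _ hN (HOut N e M) _ _
  have h1 := h0 (rhoOut e hN sinv) (HOut N e M).subtype (Submodule.injective_subtype _)
  rw [← he] at h1
  exact h1 (fun x => x.2) (fun F hF => ⟨⟨F, hF⟩, rfl⟩) (rhoOut_X e hN sinv)

/-- the residue map in weight two -/
def resW (hN : N ∣ M) {e : ℤ} (he : e = ((0 : ℕ) : ℤ) + 2) :
    PX.Sym ℂ N M 0 →ₗ[ℂ] HOut N e M :=
  (resL N M 0).codRestrict (HOut N e M) fun ψ => by
    rw [he]
    exact res_mem hN ψ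

lemma ker_resW (hN : N ∣ M) {e : ℤ} (he : e = ((0 : ℕ) : ℤ) + 2) :
    LinearMap.ker (resW hN he) = LinearMap.ker (resL N M 0) := LinearMap.ker_codRestrict _ _ _

variable (N M) in
/-- the sum of the residues -/
def sumW (e : ℤ) : HOut N e M →ₗ[ℂ] ℂ := (E0L M).comp (HOut N e M).subtype

lemma sumW_apply (e : ℤ) (x : HOut N e M) : sumW N M e x = E0 M x := rfl

lemma le_ker_resW (hN : N ∣ M) {e : ℤ} (he : e = ((0 : ℕ) : ℤ) + 2) :
    LinearMap.ker (resL N M 0) ≤ LinearMap.ker (resW hN he) := by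
  rw [ker_resW]

lemma ker_resW_le (hN : N ∣ M) {e : ℤ} (he : e = ((0 : ℕ) : ℤ) + 2) :
    LinearMap.ker (resW hN he) ≤ LinearMap.ker (resL N M 0) := by
  rw [ker_resW]

/-- the residues on the quotient -/
def resQ (hN : N ∣ M) {e : ℤ} (he : e = ((0 : ℕ) : ℤ) + 2) :
    (PX.Sym ℂ N M 0 ⧸ LinearMap.ker (resL N M 0)) →ₗ[ℂ] HOut N e M :=
  Submodule.liftQ (LinearMap.ker (resL N M 0)) (resW hN he) (le_ker_resW hN he)

lemma resQ_mk (hN : N ∣ M) {e : ℤ} (he : e = ((0 : ℕ) : ℤ) + 2) (ψ : PX.Sym ℂ N M 0) :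
    resQ hN he ((LinearMap.ker (resL N M 0)).mkQ ψ) = resW hN he ψ := rfl

lemma resQ_injective (hN : N ∣ M) {e : ℤ} (he : e = ((0 : ℕ) : ℤ) + 2) :
    Function.Injective (resQ hN he) := by
  rw [← LinearMap.ker_eq_bot]
  exact Submodule.ker_liftQ_eq_bot _ _ (le_ker_resW hN he) (ker_resW_le hN he)

lemma resQ_equivariant (hN : N ∣ M) {e : ℤ} (he : e = ((0 : ℕ) : ℤ) + 2)
    (r : MvPolynomial Nat.Primes ℤ) (u : PX.Sym ℂ N M 0 ⧸ LinearMap.ker (resL N M 0)) :
    resQ hN he (rhoQ N M 0 hN r u) = rhoOut e hN sinv r (resQ hN he u) := by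
  refine equivariant_of_X (fun q u => ?_) r u
  obtain ⟨ψ, rfl⟩ := (LinearMap.ker (resL N M 0)).mkQ_surjective u
  refine Subtype.ext ?_
  rw [rhoOut_X, resQ_mk]
  exact resL_rhoN hN q ψ

lemma sumW_equivariant {e : ℤ} (he : e = 2) (hN : N ∣ M)
    (r : MvPolynomial Nat.Primes ℤ) (v : HOut N e M) :
    sumW N M e (rhoOut e hN sinv r v) = oneRep (sysOf (trivV M)) r (sumW N M e v) := by
  refine equivariant_of_X (fun q v => ?_) r v
  have hq0 : ((q : ℕ) : ℂ) ≠ 0 := by exact_mod_cast q.2.ne_zero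
  have h1 : (v : ℤ × ℤ → ℂ) ∈ HF 2 M := by
    rw [← he]
    exact v.2.1
  rw [sumW_apply, sumW_apply, rhoOut_X, E0_smul, E0_hop q.2 h1 (hop_mem_HF q.2 h1), oneRep_apply,
    sysOf_X, trivV, sinv, ← mul_assoc]
  congr 1
  split_ifs
  · field_simp
  · field_simp
    ring

/-- **the residues in weight two** -/
theorem Sys_rhoQ_zero (hN2 : 2 ≤ N) (hN : N ∣ M) (h49 : 4 ∣ M ∨ 9 ∣ M) (H : SymRank N M) :
    haveI := finite_Sym (n := 0) hN2 hN Even.zero
    Sys (V := PX.Sym ℂ N M 0 ⧸ LinearMap.ker (resL N M 0)) (rhoQ N M 0 hN) + {sysOf (trivV M)} =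
      eisOut N 0 M := by
  have hfd := finite_Sym (n := 0) hN2 hN Even.zero
  have he : ((0 : ℕ) : ℤ) + 2 = ((0 : ℕ) : ℤ) + 2 := rfl
  obtain ⟨hfin, hS⟩ := Sys_rhoOut he hN
  rw [← hS]
  have h20 : ((0 : ℕ) : ℤ) + 2 = 2 := by norm_num
  have hsurj : Function.Surjective (sumW N M (((0 : ℕ) : ℤ) + 2)) := by
    obtain ⟨h, hh, h0⟩ := exists_E0_ne_zero hN2 M hN
    rw [← h20] at hh
    intro c
    refine ⟨(c * (E0 M h)⁻¹) • ⟨h, hh⟩, ?_⟩
    rw [map_smul, sumW_apply, smul_eq_mul, inv_mul_cancel_right₀ h0]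
  have hle : LinearMap.range (resQ hN he) ≤ LinearMap.ker (sumW N M (((0 : ℕ) : ℤ) + 2)) := by
    rintro _ ⟨u, rfl⟩
    obtain ⟨ψ, rfl⟩ := (LinearMap.ker (resL N M 0)).mkQ_surjective u
    exact E0_res hN ψ
  have hcount : finrank ℂ (LinearMap.range (resQ hN he)) =
      finrank ℂ (LinearMap.ker (sumW N M (((0 : ℕ) : ℤ) + 2))) := by
    have h3 := LinearMap.finrank_range_add_finrank_ker (sumW N M (((0 : ℕ) : ℤ) + 2))
    rw [LinearMap.range_eq_top.2 hsurj, finrank_top, finrank_self] at h3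
    have h4 := LinearMap.finrank_range_of_inj (resQ_injective hN he)
    have h5 := Submodule.finrank_quotient_add_finrank (LinearMap.ker (resL N M 0))
    have h6 := LinearMap.finrank_range_add_finrank_ker (resL N M 0)
    have h7 := finrank_range_resL_zero hN2 hN h49 H
    rw [← h20] at h7
    omega
  have hker : LinearMap.range (resQ hN he) = LinearMap.ker (sumW N M (((0 : ℕ) : ℤ) + 2)) :=
    Submodule.eq_of_le_of_finrank_eq hle hcount
  have h := Sys_exact (ρU := rhoQ N M 0 hN) (ρV := rhoOut _ hN sinv)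
    (ρW := oneRep (sysOf (trivV M))) (resQ_equivariant hN he)
    (sumW_equivariant (by norm_num) hN) (resQ_injective hN he) hsurj hker
  rw [h, Sys_oneRep]

end Gouvea.CN
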