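import Pool.Agent.Work.MP_d3517d_nt.CN.ResDefs
import Pool.Agent.Work.MP_d3517d_nt.Cnt.Hev
import Pool.Agent.Work.MP_d3517d_nt.Cnt.BdF

/-!
# Extension of partial symbols without residues (MP_d3517d_nt, CN)

`exists_rst_eq` : a partial symbol `ψ` on the cusps of `PX.Cusp N` all of whose residues vanish is
the restriction of a full symbol.

The full symbol is `φ(y, z) = a_z - a_y` where `a_z` stands for the value of the symbol between `∞`
and `z`; the equation `a_{γ z} = a_z | γ⁻¹ - ψ(γ ∞, ∞)` says that `a` is equivariant for an affine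
action of `Γ₀(M)`, and the residue at `z` is the obstruction to the existence of a fixed point of
the stabilizer of `z`.
-/

open Polynomial CongruenceSubgroup
open scoped MatrixGroups

noncomputable section

namespace Gouvea.CN

open Gouvea.Theta
open Gouvea.ES (GQ matOf)
open Gouvea.Cnt (sQ SF mem_SF vm hev par tr col hev_slk hev_add hev_sub hev_smul hev_zero
  hev_one_zero pol pol_sub pol_zero pol_slk pol_coeff coeff_pol natDegree_pol_le pol_inj gOf
  gOf_smul sQ_mul sQ_inv sQ_one tr_smul vm_col eval_tr vm_one)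

/-! ### Equivariant choices -/

/-- A family of nonempty conditions, equivariant and with solutions fixed by the stabilizers, has
an equivariant solution. -/
theorem exists_equivariant {G X V : Type*} [Group G] (s : G → X → X) (t : G → V → V)
    (s1 : ∀ x, s 1 x = x) (sm : ∀ g h x, s (g * h) x = s g (s h x))
    (tm : ∀ g h v, t (g * h) v = t g (t h v))
    (A : X → V → Prop) (hA : ∀ g x v, A x v → A (s g x) (t g v))
    (h : ∀ x, ∃ v, A x v ∧ ∀ g, s g x = x → t g v = v) :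
    ∃ F : X → V, (∀ x, A x (F x)) ∧ ∀ g x, F (s g x) = t g (F x) := by
  classical
  let S : Setoid X :=
    { r := fun x y => ∃ g, s g x = y
      iseqv := ⟨fun x => ⟨1, s1 x⟩,
        fun {x y} ⟨g, hg⟩ => ⟨g⁻¹, by rw [← hg, ← sm, inv_mul_cancel, s1]⟩,
        fun {x y z} ⟨g, hg⟩ ⟨k, hk⟩ => ⟨k * g, by rw [sm, hg, hk]⟩⟩ }
  choose v hv1 hv2 using h
  let r : X → X := fun x => (Quotient.mk S x).out
  have hr : ∀ x, ∃ g, s g (r x) = x := fun x => Quotient.exact (Quotient.out_eq (Quotient.mk S x))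
  choose k hk using hr
  refine ⟨fun x => t (k x) (v (r x)), fun x => ?_, fun g x => ?_⟩
  · have := hA (k x) (r x) (v (r x)) (hv1 (r x))
    rwa [hk] at this
  · have hrr : r (s g x) = r x := by
      have h0 : Quotient.mk S (s g x) = Quotient.mk S x :=
        (Quotient.sound (s := S) (show S.r x (s g x) from ⟨g, rfl⟩)).symm
      show (Quotient.mk S _).out = (Quotient.mk S _).out
      rw [h0]
    have h2 := hk (s g x)
    rw [hrr] at h2
    show t (k (s g x)) (v (r (s g x))) = t g (t (k x) (v (r x)))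
    rw [hrr, ← tm]
    generalize k (s g x) = κ at h2 ⊢
    have h1 : s (κ⁻¹ * (g * k x)) (r x) = r x := by
      rw [sm, sm, hk, ← h2, ← sm, inv_mul_cancel, s1]
    have h3 := hv2 (r x) _ h1
    conv_lhs => rw [← h3]
    rw [← tm, mul_inv_cancel_left]

/-! ### The difference equation -/

lemma exists_diff {m : ℂ} (hm : m ≠ 0) (k : ℕ) : ∀ b : ℂ[X], b.degree < (k : WithBot ℕ) →
    ∃ a : ℂ[X], a.natDegree ≤ k ∧ a.comp (X + C m) - a = b := by
  induction k with
  | zero =>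
    intro b hb
    refine ⟨0, by simp, ?_⟩
    have : b = 0 := degree_eq_bot.1 (Nat.WithBot.lt_zero_iff.1 (by exact_mod_cast hb))
    rw [this, zero_comp, sub_zero]
  | succ k ih =>
    intro b hb
    set c : ℂ := b.coeff k with hc
    set d : ℂ := c / ((k + 1 : ℕ) * m) with hd
    have hk0 : (((k + 1 : ℕ) : ℂ) * m) ≠ 0 := mul_ne_zero (by exact_mod_cast Nat.succ_ne_zero k) hm
    have hb2 : (b - (C d * (X + C m) ^ (k + 1) - C d * X ^ (k + 1))).degree < (k : WithBot ℕ) := by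
      rw [degree_lt_iff_coeff_zero]
      intro j hj
      rw [coeff_sub, coeff_sub, coeff_C_mul, coeff_C_mul, coeff_X_add_C_pow, coeff_X_pow]
      rcases Nat.lt_or_ge j (k + 1) with h1 | h1
      · have hjk : j = k := by omega
        subst hjk
        rw [if_neg (by omega), mul_zero, sub_zero, Nat.add_sub_cancel_left, pow_one,
          Nat.choose_succ_self_right, ← hc, hd]
        field_simp
        ring
      · have hb0 : b.coeff j = 0 := by
          refine coeff_eq_zero_of_degree_lt (hb.trans_le ?_)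
          exact_mod_cast h1
        rcases Nat.eq_or_lt_of_le h1 with h2 | h2
        · subst h2
          rw [hb0, if_pos rfl, Nat.sub_self, pow_zero, Nat.choose_self]
          simp
        · rw [hb0, if_neg (by omega), Nat.choose_eq_zero_of_lt h2]
          simp
    obtain ⟨a, ha, hab⟩ := ih _ hb2
    refine ⟨a + C d * X ^ (k + 1), ?_, ?_⟩
    · refine (natDegree_add_le _ _).trans (max_le (ha.trans (Nat.le_succ k)) ?_)
      exact natDegree_C_mul_X_pow_le _ _
    · rw [add_comp, mul_comp, C_comp, pow_comp, X_comp]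
      linear_combination hab

/-! ### The action of `SL₂(ℤ)` on the coefficients -/

variable {N M n : ℕ}

/-- the action of `SL₂(ℤ)` on the coefficients -/
def sl (n : ℕ) (g : SL(2, ℤ)) (a : Fin (n + 1) → ℂ) : Fin (n + 1) → ℂ :=
  (PS.slk n (g.1.map (Int.cast : ℤ → ℂ))).mulVec a

lemma sl_mul (g h : SL(2, ℤ)) (a : Fin (n + 1) → ℂ) : sl n (g * h) a = sl n h (sl n g a) := by
  rw [sl, sl, sl, Matrix.SpecialLinearGroup.coe_mul, PS.map_cast_mul, PS.slk_mul,
    Matrix.mulVec_mulVec]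

lemma sl_one (a : Fin (n + 1) → ℂ) : sl n 1 a = a := by
  have : ((1 : SL(2, ℤ)) : Matrix (Fin 2) (Fin 2) ℤ).map (Int.cast : ℤ → ℂ) = 1 := by
    rw [Matrix.SpecialLinearGroup.coe_one]
    simp [Matrix.map_one]
  rw [sl, this, PS.slk_one, Matrix.one_mulVec]

lemma sl_add (g : SL(2, ℤ)) (a b : Fin (n + 1) → ℂ) : sl n g (a + b) = sl n g a + sl n g b :=
  Matrix.mulVec_add _ _ _

lemma sl_sub (g : SL(2, ℤ)) (a b : Fin (n + 1) → ℂ) : sl n g (a - b) = sl n g a - sl n g b :=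
  Matrix.mulVec_sub _ _ _

lemma sl_inv_sl (g : SL(2, ℤ)) (a : Fin (n + 1) → ℂ) : sl n g⁻¹ (sl n g a) = a := by
  rw [← sl_mul, mul_inv_cancel, sl_one]

lemma sl_sl_inv (g : SL(2, ℤ)) (a : Fin (n + 1) → ℂ) : sl n g (sl n g⁻¹ a) = a := by
  rw [← sl_mul, inv_mul_cancel, sl_one]

lemma hev_sl (g : SL(2, ℤ)) (a : Fin (n + 1) → ℂ) (w : ℤ × ℤ) :
    hev n (sl n g a) w = hev n a (vm g.1 w) := hev_slk n g.1 a w

lemma pol_sl (g : SL(2, ℤ)) (a : Fin (n + 1) → ℂ) :
    pol (sl n g a) = slashM n (matOf ℂ (sQ g)) (pol a) := by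
  rw [sl, pol_slk, Cnt.matOf_sQ]

lemma neg_one_pow_sl (a : Fin (n + 1) → ℂ) : sl n (-1) a = (-1 : ℂ) ^ n • a := by
  have : ((-1 : SL(2, ℤ)) : Matrix (Fin 2) (Fin 2) ℤ).map (Int.cast : ℤ → ℂ) =
      (-1 : ℂ) • (1 : Matrix (Fin 2) (Fin 2) ℂ) := by
    rw [Matrix.SpecialLinearGroup.coe_neg, Matrix.SpecialLinearGroup.coe_one]
    ext i j
    fin_cases i <;> fin_cases j <;> simp
  rw [sl, this, PS.slk_smul, PS.slk_one, Matrix.smul_mulVec, Matrix.one_mulVec]

/-- the difference equation for the translations -/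
lemma exists_sol_tr {m : ℤ} (hm : m ≠ 0) {b : Fin (n + 1) → ℂ} (hb : hev n b (1, 0) = 0) :
    ∃ a, sl n (tr m) a - a = b := by
  rw [hev_one_zero] at hb
  have h1 : (pol b).degree < (n : WithBot ℕ) := by
    rw [degree_lt_iff_coeff_zero]
    intro j hj
    rcases Nat.eq_or_lt_of_le hj with h | h
    · rw [← h]
      exact (coeff_pol b (Fin.last n)).trans hb
    · exact coeff_eq_zero_of_natDegree_lt ((natDegree_pol_le b).trans_lt h)
  obtain ⟨a, ha, hab⟩ := exists_diff (m := (m : ℂ)) (by exact_mod_cast hm) n (pol b) h1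
  refine ⟨fun i => a.coeff i, pol_inj ?_⟩
  rw [pol_sub, pol_sl, pol_coeff ha, ← hab]
  congr 1
  refine Polynomial.funext fun r => ?_
  rw [eval_tr n m ha, eval_comp, eval_add, eval_X, eval_C]

/-- the matrix `g (1 j; 0 1) g⁻¹` -/
def cj (g : SL(2, ℤ)) (j : ℤ) : SL(2, ℤ) := g * tr j * g⁻¹

lemma tr_add (i j : ℤ) : tr (i + j) = tr i * tr j := by
  ext a b
  fin_cases a <;> fin_cases b <;>
    simp [tr, Matrix.mul_apply, Fin.sum_univ_two, add_comm]

lemma tr_zero : tr 0 = 1 := by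
  ext a b
  fin_cases a <;> fin_cases b <;> simp [tr]

lemma tr_neg (j : ℤ) : tr (-j) = (tr j)⁻¹ := by
  rw [eq_inv_iff_mul_eq_one, ← tr_add, neg_add_cancel, tr_zero]

lemma cj_add (g : SL(2, ℤ)) (i j : ℤ) : cj g (i + j) = cj g i * cj g j := by
  rw [cj, cj, cj, tr_add]
  group

lemma cj_zero (g : SL(2, ℤ)) : cj g 0 = 1 := by
  rw [cj, tr_zero]
  group

lemma cj_neg (g : SL(2, ℤ)) (j : ℤ) : cj g (-j) = (cj g j)⁻¹ := by
  rw [cj, cj, tr_neg]
  group

lemma coe_cj (g : SL(2, ℤ)) (j : ℤ) : (cj g j).1 = par (col g) j := by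
  have hd := g.2
  rw [Matrix.det_fin_two] at hd
  rw [cj, Matrix.SpecialLinearGroup.coe_mul, Matrix.SpecialLinearGroup.coe_mul,
    Matrix.SpecialLinearGroup.coe_inv, Matrix.adjugate_fin_two]
  ext a b
  fin_cases a <;> fin_cases b <;>
    simp only [tr, par, col, Matrix.mul_apply, Fin.sum_univ_two, Fin.zero_eta, Fin.mk_one,
      Matrix.of_apply, Matrix.cons_val', Matrix.cons_val_zero, Matrix.cons_val_one,
      Matrix.empty_val', Matrix.cons_val_fin_one, Fin.isValue]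
  · linear_combination hd
  · ring
  · ring
  · linear_combination hd

lemma vm_cj (g : SL(2, ℤ)) (j : ℤ) : vm (cj g j).1 (col g) = col g := by
  rw [coe_cj, Cnt.vm_par]
  refine Prod.ext ?_ ?_ <;> ring

/-- the difference equation for the unipotent matrices -/
lemma exists_sol (g : SL(2, ℤ)) {m : ℤ} (hm : m ≠ 0) {b : Fin (n + 1) → ℂ}
    (hb : hev n b (col g) = 0) : ∃ a, sl n (cj g m)⁻¹ a - a = b := by
  have h1 : hev n (sl n g b) (1, 0) = 0 := by
    rw [hev_sl]
    have : vm g.1 (1, 0) = col g := by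
      simp [vm, col]
    rw [this, hb]
  obtain ⟨a, ha⟩ := exists_sol_tr (neg_ne_zero.2 hm) h1
  refine ⟨sl n g⁻¹ a, ?_⟩
  rw [← cj_neg, cj, sl_mul, sl_mul, sl_sl_inv, ← sl_sub, ha, sl_inv_sl]

/-! ### The stabilizers -/

/-- the stabilizer of `g ∞` in `SL₂(ℤ)` -/
lemma stab (g : SL(2, ℤ)) {k : SL(2, ℤ)}
    (hk : sQ k • (sQ g • (OnePoint.infty : OnePoint ℚ)) = sQ g • OnePoint.infty) :
    ∃ j, k = cj g j ∨ k = -1 * cj g j := by
  have h1 : sQ (g⁻¹ * k * g) • (OnePoint.infty : OnePoint ℚ) = OnePoint.infty := by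
    rw [sQ_mul, sQ_mul, mul_smul, mul_smul, hk, sQ_inv, inv_smul_smul]
  generalize hm : g⁻¹ * k * g = m at h1
  have h0 : m 1 0 = 0 := by
    have := OnePoint.smul_infty_eq_self_iff.1 h1
    simpa using this
  have hdet : m 0 0 * m 1 1 = 1 := by
    have := m.2
    rw [Matrix.det_fin_two] at this
    have h1 : m.1 1 0 = 0 := h0
    rw [h1, mul_zero, sub_zero] at this
    exact this
  have hkm : k = g * m * g⁻¹ := by
    rw [← hm]
    group
  rcases Int.eq_one_or_neg_one_of_mul_eq_one' hdet with h | h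
  · refine ⟨m 0 1, Or.inl ?_⟩
    have h2 : m = tr (m 0 1) := by
      ext a b
      fin_cases a <;> fin_cases b <;> simp [tr, h.1, h.2, h0]
    rw [hkm, cj, ← h2]
  · refine ⟨-(m 0 1), Or.inr ?_⟩
    have h2 : m = -1 * tr (-(m 0 1)) := by
      rw [neg_one_mul]
      ext a b
      fin_cases a <;> fin_cases b <;> simp [tr, h.1, h.2, h0]
    rw [hkm, cj]
    conv_lhs => rw [h2]
    rw [neg_one_mul, neg_one_mul, mul_neg, neg_mul]

/-! ### The action of `Γ₀(M)` on the cusps and on the symbols -/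

/-- `Γ₀(M)` in `SN N` -/
def toN (hN : N ∣ M) (g : Gamma0 M) : PX.SN N := ofSL hN g.2

lemma toN_mul (hN : N ∣ M) (g h : Gamma0 M) : toN hN (g * h) = toN hN g * toN hN h :=
  Subtype.ext (Matrix.SpecialLinearGroup.coe_mul g.1 h.1)

lemma toN_one (hN : N ∣ M) : toN hN 1 = 1 := Subtype.ext Matrix.SpecialLinearGroup.coe_one

lemma toP_toN (hN : N ∣ M) (g : Gamma0 M) (x : PX.Cusp N) :
    PX.toP (toN hN g • x) = sQ g.1 • PX.toP x := by
  rw [PX.toP_smul, toN, gQ_ofSL]

lemma toP_injective {x y : PX.Cusp N} (h : PX.toP x = PX.toP y) : x = y := by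
  revert h
  refine PX.Cusp.ind' (P := fun x => PX.toP x = PX.toP y → x = y) (fun u v hu hv hne => ?_) x
  refine PX.Cusp.ind' (P := fun y => PX.toP (PX.Cusp.mk u v hu hv hne) = PX.toP y →
    PX.Cusp.mk u v hu hv hne = y) (fun u' v' hu' hv' hne' => ?_) y
  intro h
  rw [PX.Cusp.mk_eq]
  rw [PX.toP_mk, PX.toP_mk] at h
  by_cases h1 : v = 0
  · by_cases h2 : v' = 0
    · rw [h1, h2, mul_zero, mul_zero]
    · rw [if_pos h1, if_neg h2] at h
      exact absurd h.symm (OnePoint.coe_ne_infty _)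
  · by_cases h2 : v' = 0
    · rw [if_neg h1, if_pos h2] at h
      exact absurd h (OnePoint.coe_ne_infty _)
    · rw [if_neg h1, if_neg h2] at h
      have h3 := OnePoint.coe_injective h
      have h4 : (v : ℚ) ≠ 0 := by exact_mod_cast h1
      have h5 : (v' : ℚ) ≠ 0 := by exact_mod_cast h2
      rw [div_eq_div_iff h4 h5] at h3
      exact_mod_cast h3

lemma neg_one_smul_pt (x : OnePoint ℚ) : (-1 : GQ) • x = x := by
  induction x using OnePoint.rec with
  | infty =>
    rw [OnePoint.smul_infty_eq_self_iff]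
    simp
  | coe r =>
    rw [OnePoint.smul_some_eq_ite]
    simp

/-- the element `-1` of `Γ₀(M)` -/
def neg1 (M : ℕ) : Gamma0 M := ⟨-1, by
  rw [Gamma0_mem, Matrix.SpecialLinearGroup.coe_neg, Matrix.SpecialLinearGroup.coe_one]
  simp⟩

lemma neg1_smul (hN : N ∣ M) (x : PX.Cusp N) : toN hN (neg1 M) • x = x := by
  refine toP_injective ?_
  rw [toP_toN]
  have h1 : sQ (neg1 M).1 = -1 := by
    ext i j
    have : ((sQ (neg1 M).1 : GQ) i j : ℚ) = (((neg1 M).1 i j : ℤ) : ℚ) := by simp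
    rw [this, neg1]
    fin_cases i <;> fin_cases j <;> simp
  rw [h1, neg_one_smul_pt]

section Sym

variable (hN : N ∣ M) {ψ : PX.Cusp N → PX.Cusp N → Fin (n + 1) → ℂ} (hψ : ψ ∈ PX.Sym ℂ N M n)

include hψ

lemma sl_psi (g : Gamma0 M) (x y : PX.Cusp N) :
    sl n g.1 (ψ (toN hN g • x) (toN hN g • y)) = ψ x y := by
  have h := hψ.2 (toN hN g) (isG0_ofSL hN g.2)
  exact congrFun (congrFun h x) y

lemma psi_smul (g : Gamma0 M) (x y : PX.Cusp N) :
    ψ (toN hN g • x) (toN hN g • y) = sl n g.1⁻¹ (ψ x y) := by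
  rw [← sl_psi hN hψ g x y, sl_inv_sl]

lemma psi_self (x : PX.Cusp N) : ψ x x = 0 := by
  have := hψ.1 x x x
  simpa using this

lemma psi_swap (x y : PX.Cusp N) : ψ x y = -ψ y x := by
  rw [eq_neg_iff_add_eq_zero, hψ.1 x y x, psi_self hψ]

include hN in
/-- there are no symbols of odd weight -/
lemma psi_eq_zero_of_odd (hn : Odd n) : ψ = 0 := by
  funext x y i
  have h := sl_psi hN hψ (neg1 M) x y
  rw [neg1_smul, neg1_smul] at h
  change sl n (-1) (ψ x y) = ψ x y at h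
  rw [neg_one_pow_sl, hn.neg_one_pow, neg_one_smul] at h
  exact self_eq_neg.1 (congrFun h i).symm

omit hψ in
variable (ψ) in
/-- the affine action of `Γ₀(M)` on the coefficients attached to a partial symbol -/
def tw (g : Gamma0 M) (a : Fin (n + 1) → ℂ) : Fin (n + 1) → ℂ :=
  sl n g.1⁻¹ a - ψ (toN hN g • PX.inf N) (PX.inf N)

lemma tw_mul (g h : Gamma0 M) (a : Fin (n + 1) → ℂ) :
    tw hN ψ (g * h) a = tw hN ψ g (tw hN ψ h a) := by
  have h1 := psi_smul hN hψ g (toN hN h • PX.inf N) (PX.inf N)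
  have h2 := hψ.1 (toN hN g • toN hN h • PX.inf N) (toN hN g • PX.inf N) (PX.inf N)
  rw [tw, tw, tw, toN_mul, mul_smul, sl_sub, ← h1, ← h2, Subgroup.coe_mul, mul_inv_rev, sl_mul]
  abel

lemma tw_neg1 (hn : Even n) (a : Fin (n + 1) → ℂ) : tw hN ψ (neg1 M) a = a := by
  rw [tw, neg1_smul, psi_self hψ, sub_zero]
  have h : ((neg1 M).1 : SL(2, ℤ))⁻¹ = -1 := by
    rw [inv_eq_iff_mul_eq_one]
    show (-1 : SL(2, ℤ)) * -1 = 1
    rw [neg_mul_neg, one_mul]
  rw [h, neg_one_pow_sl, hn.neg_one_pow, one_smul]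

lemma tw_one (a : Fin (n + 1) → ℂ) : tw hN ψ 1 a = a := by
  rw [tw, toN_one, one_smul, psi_self hψ, sub_zero, Subgroup.coe_one, inv_one, sl_one]

/-- the value of the symbol at `w` is additive along the stabilizer of `w` -/
lemma hev_add_stab {w : ℤ × ℤ} {g h : Gamma0 M} (hw : vm g.1.1 w = w) :
    hev n (ψ (PX.inf N) (toN hN (g * h) • PX.inf N)) w =
      hev n (ψ (PX.inf N) (toN hN g • PX.inf N)) w +
      hev n (ψ (PX.inf N) (toN hN h • PX.inf N)) w := by
  rw [toN_mul, mul_smul, ← hψ.1 _ (toN hN g • PX.inf N) _, hev_add]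
  congr 1
  rw [← sl_psi hN hψ g (PX.inf N) (toN hN h • PX.inf N), hev_sl, hw]

/-! ### The points outside the cusps of `PX.Cusp N` -/

/-- **Fixed points of the stabilizers.** If the residues of `ψ` vanish, the stabilizer of every
point has a fixed point. -/
theorem exists_fix [NeZero M] (hn : Even n) (hres : ∀ w, res N M n ψ w = 0) (z : OnePoint ℚ) :
    ∃ a : Fin (n + 1) → ℂ, ∀ g : Gamma0 M, sQ g.1 • z = z → tw hN ψ g a = a := by
  have hM0 : (M : ℤ) ≠ 0 := by exact_mod_cast NeZero.ne M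
  set g0 := gOf z with hg0
  have hz : sQ g0 • (OnePoint.infty : OnePoint ℚ) = z := gOf_smul z
  -- the parameters of the stabilizer
  let H : AddSubgroup ℤ :=
    { carrier := {j | cj g0 j ∈ Gamma0 M}
      zero_mem' := by
        show cj g0 0 ∈ Gamma0 M
        rw [cj_zero]
        exact one_mem _
      add_mem' := fun {i j} hi hj => by
        show cj g0 (i + j) ∈ Gamma0 M
        rw [cj_add]
        exact mul_mem hi hj
      neg_mem' := fun {j} hj => by
        show cj g0 (-j) ∈ Gamma0 M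
        rw [cj_neg]
        exact inv_mem hj }
  have hMH : (M : ℤ) ∈ H := by
    show cj g0 M ∈ Gamma0 M
    rw [Gamma0_mem]
    have : (cj g0 M).1 1 0 = -((M : ℤ) * (col g0).2 ^ 2) := by
      rw [coe_cj]
      simp [par]
    rw [show (cj g0 M) 1 0 = (cj g0 M).1 1 0 from rfl, this]
    simp
  -- the values of the symbol at the fixed vector
  let L : H →+ ℂ := AddMonoidHom.mk' (fun j =>
    hev n (ψ (PX.inf N) (toN hN ⟨cj g0 j.1, j.2⟩ • PX.inf N)) (col g0)) (fun i j => by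
      have h1 : (⟨cj g0 (i + j).1, (i + j).2⟩ : Gamma0 M) =
          ⟨cj g0 i.1, i.2⟩ * ⟨cj g0 j.1, j.2⟩ := Subtype.ext (cj_add g0 i.1 j.1)
      show hev n (ψ (PX.inf N) (toN hN ⟨cj g0 (i + j).1, (i + j).2⟩ • PX.inf N)) (col g0) = _
      rw [h1]
      exact hev_add_stab hN hψ (vm_cj g0 i.1))
  have hLM : L ⟨(M : ℤ), hMH⟩ = 0 := by
    have h1 := hres (col g0)
    rw [res] at h1
    have h2 := (mul_eq_zero.1 h1).resolve_left (inv_ne_zero (by exact_mod_cast NeZero.ne M))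
    have h3 : parN N (col g0) ((M / N : ℕ) : ℤ) = toN hN ⟨cj g0 (M : ℤ), hMH⟩ := by
      refine Subtype.ext ?_
      show par (col g0) (N * ((M / N : ℕ) : ℤ)) = (cj g0 M).1
      rw [coe_cj]
      congr 1
      exact_mod_cast Nat.mul_div_cancel' hN
    rw [h3] at h2
    exact h2
  have hL : ∀ j : H, L j = 0 := by
    intro j
    have h1 : (M : ℤ) • j = j.1 • (⟨(M : ℤ), hMH⟩ : H) := by
      refine Subtype.ext ?_
      show (M : ℤ) * j.1 = j.1 * (M : ℤ)
      ring
    have h2 : (M : ℤ) • L j = 0 := by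
      rw [← map_zsmul, h1, map_zsmul, hLM, smul_zero]
    rw [zsmul_eq_mul] at h2
    exact (mul_eq_zero.1 h2).resolve_left (by exact_mod_cast NeZero.ne M)
  -- the generator of the stabilizer
  obtain ⟨h, hH⟩ := Int.subgroup_cyclic H
  have hh : h ∈ H := by
    rw [hH]
    exact AddSubgroup.subset_closure rfl
  have hh0 : h ≠ 0 := by
    intro h0
    rw [hH, h0, AddSubgroup.closure_singleton_zero, AddSubgroup.mem_bot] at hMH
    exact hM0 hMH
  obtain ⟨a, ha⟩ := exists_sol (n := n) g0 hh0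
    (b := ψ (toN hN ⟨cj g0 h, hh⟩ • PX.inf N) (PX.inf N)) (by
      have h1 : hev n (ψ (PX.inf N) (toN hN ⟨cj g0 h, hh⟩ • PX.inf N)) (col g0) = 0 := hL ⟨h, hh⟩
      have h2 : ψ (toN hN ⟨cj g0 h, hh⟩ • PX.inf N) (PX.inf N) =
          (-1 : ℂ) • ψ (PX.inf N) (toN hN ⟨cj g0 h, hh⟩ • PX.inf N) := by
        rw [psi_swap hψ, neg_one_smul]
      rw [h2, hev_smul, h1, mul_zero])
  refine ⟨a, fun g hg => ?_⟩
  let K : AddSubgroup ℤ :=
    { carrier := {j | ∃ hj : cj g0 j ∈ Gamma0 M, tw hN ψ ⟨cj g0 j, hj⟩ a = a}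
      zero_mem' := by
        refine ⟨H.zero_mem, ?_⟩
        have : (⟨cj g0 0, H.zero_mem⟩ : Gamma0 M) = 1 := Subtype.ext (cj_zero g0)
        rw [this, tw_one hN hψ]
      add_mem' := by
        rintro i j ⟨hi, hi'⟩ ⟨hj, hj'⟩
        refine ⟨H.add_mem hi hj, ?_⟩
        have : (⟨cj g0 (i + j), H.add_mem hi hj⟩ : Gamma0 M) = ⟨cj g0 i, hi⟩ * ⟨cj g0 j, hj⟩ :=
          Subtype.ext (cj_add g0 i j)
        rw [this, tw_mul hN hψ, hj', hi']
      neg_mem' := by
        rintro j ⟨hj, hj'⟩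
        refine ⟨H.neg_mem hj, ?_⟩
        have h1 : (⟨cj g0 (-j), H.neg_mem hj⟩ : Gamma0 M) * ⟨cj g0 j, hj⟩ = 1 :=
          Subtype.ext (by
            show cj g0 (-j) * cj g0 j = 1
            rw [← cj_add, neg_add_cancel, cj_zero])
        conv_lhs => rw [← hj']
        rw [← tw_mul hN hψ, h1, tw_one hN hψ] }
  have hK : H ≤ K := by
    rw [hH, AddSubgroup.closure_le, Set.singleton_subset_iff]
    refine ⟨hh, ?_⟩
    show sl n (cj g0 h)⁻¹ a - _ = a
    rw [← ha]
    abel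
  rw [← hz] at hg
  obtain ⟨j, hj | hj⟩ := stab g0 hg
  · have hjH : cj g0 j ∈ Gamma0 M := by
      rw [← hj]
      exact g.2
    obtain ⟨h1, h2⟩ := hK hjH
    have h3 : g = ⟨cj g0 j, h1⟩ := Subtype.ext hj
    rw [h3, h2]
  · have hjH : cj g0 j ∈ Gamma0 M := by
      have h1 : cj g0 j = (neg1 M).1 * g.1 := by
        rw [hj]
        show cj g0 j = -1 * (-1 * cj g0 j)
        rw [← mul_assoc, neg_mul_neg, one_mul, one_mul]
      rw [h1]
      exact mul_mem (neg1 M).2 g.2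
    obtain ⟨h1, h2⟩ := hK hjH
    have h3 : g = neg1 M * ⟨cj g0 j, h1⟩ := Subtype.ext hj
    rw [h3, tw_mul hN hψ, h2, tw_neg1 hN hψ hn]

end Sym

/-- **Extension of partial symbols.** A partial symbol without residues is the restriction of a
full symbol. -/
theorem exists_rst_eq (hN : N ∣ M) [NeZero M] (ψ : PX.Sym ℂ N M n)
    (hres : ∀ w, res N M n ψ.1 w = 0) : ∃ φ : SF n M, rst N n M φ = ψ := by
  rcases Nat.even_or_odd n with hn | hn
  swap
  · refine ⟨0, ?_⟩
    rw [map_zero]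
    exact (Subtype.ext (psi_eq_zero_of_odd hN ψ.2 hn)).symm
  have hψ := ψ.2
  obtain ⟨F, hF1, hF2⟩ := exists_equivariant (G := Gamma0 M) (X := OnePoint ℚ)
    (V := Fin (n + 1) → ℂ) (fun g z => sQ g.1 • z) (tw hN ψ.1)
    (fun x => by
      show sQ (1 : Gamma0 M).1 • x = x
      rw [Subgroup.coe_one, sQ_one, one_smul])
    (fun g h x => by
      show sQ (g * h : Gamma0 M).1 • x = sQ g.1 • sQ h.1 • x
      rw [Subgroup.coe_mul, sQ_mul, mul_smul])
    (tw_mul hN hψ)
    (fun z a => ∀ s : PX.Cusp N, PX.toP s = z → a = ψ.1 (PX.inf N) s)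
    (fun g z a ha s hs => by
      have h1 : PX.toP (toN hN g⁻¹ • s) = z := by
        rw [toP_toN, hs, Subgroup.coe_inv, sQ_inv, inv_smul_smul]
      have h2 : toN hN g • toN hN g⁻¹ • s = s := by
        rw [← mul_smul, ← toN_mul, mul_inv_cancel, toN_one, one_smul]
      rw [ha _ h1, tw, ← psi_smul hN hψ, h2]
      have h3 := hψ.1 (toN hN g • PX.inf N) (PX.inf N) s
      rw [← h3]
      abel)
    (fun z => by
      by_cases hz : ∃ s : PX.Cusp N, PX.toP s = z
      · obtain ⟨s, rfl⟩ := hz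
        refine ⟨ψ.1 (PX.inf N) s, fun s' hs' => by rw [toP_injective hs'], fun g hg => ?_⟩
        have h1 : toN hN g • s = s := toP_injective (by rw [toP_toN]; exact hg)
        rw [tw, ← psi_smul hN hψ, h1]
        have h3 := hψ.1 (toN hN g • PX.inf N) (PX.inf N) s
        rw [← h3]
        abel
      · obtain ⟨a, ha⟩ := exists_fix hN hψ hn hres z
        exact ⟨a, fun s hs => absurd ⟨s, hs⟩ hz, ha⟩)
  have hdiff : ∀ (g : Gamma0 M) (y z : OnePoint ℚ),
      F (sQ g.1 • z) - F (sQ g.1 • y) = sl n g.1⁻¹ (F z - F y) := by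
    intro g y z
    have h1 := hF2 g z
    have h2 := hF2 g y
    rw [h1, h2, tw, tw, sl_sub]
    abel
  refine ⟨⟨fun y z => pol (F z - F y), ⟨fun y z => natDegree_pol_le _, fun x y z => ?_,
    fun g hg => ?_⟩⟩, ?_⟩
  · rw [← Cnt.pol_add]
    congr 1
    abel
  · funext y z
    show slashM n (matOf ℂ (sQ g)) (pol (F (sQ g • z) - F (sQ g • y))) = pol (F z - F y)
    rw [hdiff ⟨g, hg⟩, ← pol_sl, sl_sl_inv]
  · refine Subtype.ext ?_
    funext x y i
    show (pol (F (PX.toP y) - F (PX.toP x))).coeff i = ψ.1 x y i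
    rw [coeff_pol, hF1 _ y rfl, hF1 _ x rfl]
    have h3 := hψ.1 (PX.inf N) x y
    rw [← h3, add_sub_cancel_left]

end Gouvea.CN
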