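import Pool.Agent.Work.MP_d3517d_nt.CN.Dim
import Pool.Agent.Work.MP_d3517d_nt.CN.Ext
import Pool.Agent.Work.MP_d3517d_nt.CN.BdJoin
import Pool.Agent.Work.MP_d3517d_nt.P5.MainX

/-!
# The exact counts for the partial symbols on `Γ₀(N) ∞` (MP_d3517d_nt, CN)

`N ∣ M`, `4 ∣ M` or `9 ∣ M`; the dimension of the space of partial symbols (`SymRank N M`) is a
hypothesis, proved for `N = 9` in `CN/Index9`.
-/

open Polynomial CongruenceSubgroup Module
open scoped MatrixGroups

noncomputable section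

namespace Gouvea.CN

open Gouvea.Theta
open Gouvea.ES (GQ matOf sym)
open Gouvea.Cnt (sQ SF mem_SF BF mem_BF BF_le HF finrank_HF finite_HF finrank_BF_eq_HF finite_BF
  finrank_BF_zero_eq_HF finrank_HF_eq E0 wt2 finiteDimensional_SF)

variable {N M n : ℕ}

/-- the dimension of the spaces of partial symbols -/
def SymRank (N M : ℕ) : Prop :=
  ∀ n, Even n → 6 * finrank ℂ (PX.Sym ℂ N M n) = (Gamma0 M).index * (n + 1)

theorem symRank_nine [NeZero M] (hM : 9 ∣ M) : SymRank 9 M := fun n hn =>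
  six_mul_finrank_Sym9 ℂ M hM n hn

theorem finite_Sym [NeZero M] (hN2 : 2 ≤ N) (hN : N ∣ M) (hn : Even n) :
    FiniteDimensional ℂ (PX.Sym ℂ N M n) := (P5.finrank_Sym_le_add ℂ hN2 hN hn).2

/-- **The partial symbols without residues are the restrictions of full symbols.** -/
theorem ker_resL [NeZero M] (hN : N ∣ M) :
    LinearMap.ker (resL N M n) = LinearMap.range (rst N n M) := by
  refine le_antisymm ?_ (range_rst_le hN)
  intro ψ hψ
  rw [LinearMap.mem_ker, resL_apply] at hψ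
  exact exists_rst_eq hN ψ fun w => congrFun hψ w

theorem range_resL_le [NeZero M] (hN : N ∣ M) :
    LinearMap.range (resL N M n) ≤ HOut N (n + 2) M := by
  rintro _ ⟨ψ, rfl⟩
  exact res_mem hN ψ

lemma even_cast_add_two (hn : Even n) : Even ((n : ℤ) + 2) := by
  have : Even (n : ℤ) := by exact_mod_cast hn
  exact this.add even_two

/-! ### The counts -/

theorem finrank_range_rst [NeZero M] (hN : N ∣ M) (hn : Even n) {e : ℤ} (he : Even e) :
    finrank ℂ (LinearMap.range (rst N n M)) + finrank ℂ (HOut N e M) = finrank ℂ (SF n M) := by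
  rw [← finrank_ker_rst he n M hN hn]
  exact LinearMap.finrank_range_add_finrank_ker (rst N n M)

theorem finrank_range_resL [NeZero M] (hN2 : 2 ≤ N) (hN : N ∣ M) (hn : Even n) {e : ℤ}
    (he : Even e) : finrank ℂ (LinearMap.range (resL N M n)) + finrank ℂ (SF n M) =
      finrank ℂ (PX.Sym ℂ N M n) + finrank ℂ (HOut N e M) := by
  have := finite_Sym hN2 hN hn
  have h1 := LinearMap.finrank_range_add_finrank_ker (resL N M n)
  rw [ker_resL hN] at h1
  have h2 := finrank_range_rst (n := n) hN hn he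
  omega

theorem finrank_Sym_le_SF [NeZero M] (hN2 : 2 ≤ N) (hN : N ∣ M) (hn : Even n) :
    finrank ℂ (PX.Sym ℂ N M n) ≤ finrank ℂ (SF n M) := by
  have he := even_cast_add_two hn
  have h1 := finrank_range_resL hN2 hN hn he
  have := finite_HOut N he M
  have h2 := Submodule.finrank_mono (range_resL_le (n := n) hN)
  omega

section Counts

variable [NeZero M] (hN2 : 2 ≤ N) (hN : N ∣ M) (h49 : 4 ∣ M ∨ 9 ∣ M) (H : SymRank N M)

include hN2 hN h49 H

/-- **The dimension of the space of full symbols.** -/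
theorem six_finrank_SF (hn : Even n) (hn2 : 2 ≤ n) :
    6 * finrank ℂ (SF n M) = (Gamma0 M).index * (n + 1) := by
  have h1 := finrank_Sym_le_SF hN2 hN hn
  have h3 := H n hn
  have h2 := finrank_SF_le (n := n) h49 hn
  rw [if_neg (by omega), add_zero] at h2
  omega

/-- `2 dim S_k + c = d (k - 1)` for `k ≥ 4`, `c` the number of cusps. -/
theorem six_two_finrank_add (hn : Even n) (hn2 : 2 ≤ n) :
    12 * finrank ℂ (Gouvea.Cusp M (n + 2)) + 6 * finrank ℂ (HF 0 M) =
      (Gamma0 M).index * (n + 1) := by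
  rw [← six_finrank_SF hN2 hN h49 H hn hn2, finrank_SF hn2 hn]
  ring

/-- **The residues are arbitrary** for `n ≥ 2`. -/
theorem range_resL (hn : Even n) (hn2 : 2 ≤ n) :
    LinearMap.range (resL N M n) = HOut N (n + 2) M := by
  have he := even_cast_add_two hn
  have := finite_HOut N he M
  refine Submodule.eq_of_le_of_finrank_eq (range_resL_le hN) ?_
  have h1 := finrank_range_resL hN2 hN hn he
  have h2 := six_finrank_SF hN2 hN h49 H hn hn2
  have h3 := H n hn
  omega

/-! ### weight two -/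

theorem weight_two_aux :
    12 * finrank ℂ (Gouvea.Cusp M 2) + 6 * finrank ℂ (HF 0 M) = (Gamma0 M).index + 12 ∧
    6 * finrank ℂ (SF 0 M) = (Gamma0 M).index + 6 ∧
    finrank ℂ (SF 0 M) = 2 * finrank ℂ (Gouvea.Cusp M 2) + finrank ℂ (BF 0 M) := by
  have h6 : 12 * finrank ℂ (Gouvea.Cusp M 6) + 6 * finrank ℂ (HF 0 M) =
      (Gamma0 M).index * 5 := six_two_finrank_add (n := 4) hN2 hN h49 H (by decide) (by norm_num)
  have h8 : 12 * finrank ℂ (Gouvea.Cusp M 8) + 6 * finrank ℂ (HF 0 M) =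
      (Gamma0 M).index * 7 := six_two_finrank_add (n := 6) hN2 hN h49 H (by decide) (by norm_num)
  have h12 : 12 * finrank ℂ (Gouvea.Cusp M 12) + 6 * finrank ℂ (HF 0 M) =
      (Gamma0 M).index * 11 := six_two_finrank_add (n := 10) hN2 hN h49 H (by decide) (by norm_num)
  have hw := wt2 M
  have hb := finrank_BF_zero_eq_HF (e := 0) ⟨0, by ring⟩ M
  have h4 : 6 * finrank ℂ (SF 0 M) ≤ (Gamma0 M).index * (0 + 1) + if (0 : ℕ) = 0 then 6 else 0 :=
    finrank_SF_le (n := 0) (M := M) h49 Even.zero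
  rw [if_pos rfl] at h4
  have hfin := finite_BF 0 M Even.zero
  have hinj : Function.Injective (SB 0 M) := SB_injective_of fun x hx => by
    obtain ⟨h1, h3⟩ := eq_zero_of_isBdry_zero hx
    exact Prod.ext h1 h3
  have h5 := LinearMap.finrank_le_finrank_of_injective hinj
  have h7 : finrank ℂ ((Gouvea.Cusp M (0 + 2) × Gouvea.Cusp M (0 + 2)) × BF 0 M) =
      finrank ℂ (Gouvea.Cusp M 2) + finrank ℂ (Gouvea.Cusp M 2) + finrank ℂ (BF 0 M) := by
    rw [Module.finrank_prod, Module.finrank_prod]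
  rw [h7] at h5
  refine ⟨by omega, by omega, by omega⟩

/-- **`SF = S + S + BF`** in weight two -/
theorem SB_surjective_zero : Function.Surjective (SB 0 M) := by
  obtain ⟨h1, h2, h3⟩ := weight_two_aux hN2 hN h49 H
  have hfin := finite_BF 0 M Even.zero
  have hinj : Function.Injective (SB 0 M) := SB_injective_of fun x hx => by
    obtain ⟨h1, h3⟩ := eq_zero_of_isBdry_zero hx
    exact Prod.ext h1 h3
  have h7 : finrank ℂ ((Gouvea.Cusp M (0 + 2) × Gouvea.Cusp M (0 + 2)) × BF 0 M) =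
      finrank ℂ (Gouvea.Cusp M 2) + finrank ℂ (Gouvea.Cusp M 2) + finrank ℂ (BF 0 M) := by
    rw [Module.finrank_prod, Module.finrank_prod]
  refine (LinearMap.injective_iff_surjective_of_finrank_eq_finrank ?_).1 hinj
  rw [h7, h3]
  ring

/-- **`SF = S + S + BF`** for all even `n` -/
theorem SB_surjective_all (hn : Even n) : Function.Surjective (SB n M) := by
  rcases Nat.lt_or_ge n 2 with h | h
  · have h0 : n = 0 := by
      obtain ⟨m, rfl⟩ := hn
      omega
    subst h0
    exact SB_surjective_zero hN2 hN h49 H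
  · exact SB_surjective h hn

/-- the number of the conditions on the residues in weight two -/
theorem finrank_range_resL_zero :
    finrank ℂ (LinearMap.range (resL N M 0)) + 1 = finrank ℂ (HOut N 2 M) := by
  obtain ⟨h1, h2, h3⟩ := weight_two_aux hN2 hN h49 H
  have h4 := finrank_range_resL (n := 0) hN2 hN Even.zero (e := 2) even_two
  have h5 := H 0 Even.zero
  omega

end Counts

/-- uniqueness for all even `n` -/
theorem uniq [NeZero M] (hn : Even n) (x : Gouvea.Cusp M (n + 2) × Gouvea.Cusp M (n + 2))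
    (hx : IsBdry n M (SS n M x).1) : x = 0 := by
  rcases Nat.lt_or_ge n 2 with h | h
  · have h0 : n = 0 := by
      obtain ⟨m, rfl⟩ := hn
      omega
    subst h0
    obtain ⟨h1, h3⟩ := eq_zero_of_isBdry_zero hx
    exact Prod.ext h1 h3
  · obtain ⟨h1, h3⟩ := eq_zero_of_isBdry h hn hx
    exact Prod.ext h1 h3

/-! ### the map of Eichler-Shimura and the boundary symbols -/

section Phi

variable [NeZero M]

lemma gQ_epsM : PX.gQ (PX.epsM N) = ES.eps := by
  ext i j
  rw [PX.gQ_apply]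
  fin_cases i <;> fin_cases j <;>
    simp [PX.epsM, ES.eps, ES.triQ, Matrix.GeneralLinearGroup.mkOfDetNeZero]

omit [NeZero M] in
lemma rst_eps (φ : SF n M) :
    rst N n M ⟨fact n ES.eps φ.1, FSM.eps φ.2⟩ = PX.epsX N M n (rst N n M φ) := by
  refine Subtype.ext ?_
  change rstFun N n (fact n ES.eps φ.1) = PX.act ℂ N n (PX.epsM N) (rstFun N n φ.1)
  rw [act_rstFun, gQ_epsM]

lemma rst_sym (f : Gouvea.Cusp M (n + 2)) :
    rst N n M ⟨sym n f, FSM_sym f⟩ = PX.symX N M n f := rfl

lemma rst_SS (f g : Gouvea.Cusp M (n + 2)) :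
    rst N n M (SS n M (f, g)) = PX.symX N M n f + PX.epsX N M n (PX.symX N M n g) := by
  have e : SS n M (f, g) = ⟨sym n f, FSM_sym f⟩ + ⟨fact n ES.eps (sym n g), (FSM_sym g).eps⟩ := rfl
  rw [e, map_add, rst_sym, ← rst_sym g, ← rst_eps]

lemma ESX_eq (f g : Gouvea.Cusp M (n + 2)) :
    PX.ESX N M n (f, g) = rst N n M (SS n M (f + g, f - g)) := by
  rw [PX.ESX_apply, rst_SS, map_add, map_sub, map_sub]
  abel

/-- the map of the pairs of cusp forms and the boundary symbols -/
def PhiX (N n M : ℕ) [NeZero M] : (Gouvea.Cusp M (n + 2) × Gouvea.Cusp M (n + 2)) ×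
    LinearMap.range (bdS N M n) →ₗ[ℂ] PX.Sym ℂ N M n :=
  (PX.ESX N M n).coprod (LinearMap.range (bdS N M n)).subtype

lemma PhiX_apply (x) (b : LinearMap.range (bdS N M n)) :
    PhiX N n M (x, b) = PX.ESX N M n x + b := by
  simp [PhiX]

lemma mem_range_bdS (hn : Even n) {ψ : PX.Sym ℂ N M n} :
    ψ ∈ LinearMap.range (bdS N M n) ↔ ∃ φ : SF n M, φ.1 ∈ BF n M ∧ rst N n M φ = ψ := by
  rw [← map_rst_BF N n M hn]
  constructor
  · rintro ⟨φ, hφ, rfl⟩
    exact ⟨φ, hφ, rfl⟩
  · rintro ⟨φ, hφ, rfl⟩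
    exact ⟨φ, hφ, rfl⟩

theorem PhiX_injective (hN : N ∣ M) (hn : Even n) : Function.Injective (PhiX N n M) := by
  rw [injective_iff_map_eq_zero]
  rintro ⟨⟨f, g⟩, ⟨b, hb⟩⟩ h
  rw [PhiX_apply, ESX_eq] at h
  obtain ⟨φ, hφ, hφb⟩ := (mem_range_bdS hn).1 hb
  have h' : rst N n M (SS n M (f + g, f - g) + φ) = 0 := by
    rw [map_add, hφb]
    exact h
  have h3 := mem_BF_of_rst hN h'
  have h5 : (SS n M (f + g, f - g) : SF n M).1 ∈ BF n M := by
    have : (SS n M (f + g, f - g) : SF n M).1 = (SS n M (f + g, f - g) + φ : SF n M).1 - φ.1 := by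
      simp
    rw [this]
    exact sub_mem h3 hφ
  have h6 := uniq hn _ h5
  have h7 : f + g = 0 := congrArg Prod.fst h6
  have h8 : f - g = 0 := congrArg Prod.snd h6
  have hf : f = 0 := by
    have h9 : (2 : ℂ) • f = (f + g) + (f - g) := by
      rw [two_smul]
      abel
    rw [h7, h8, add_zero] at h9
    exact (smul_eq_zero.1 h9).resolve_left two_ne_zero
  have hg : g = 0 := by
    rw [hf, zero_add] at h7
    exact h7
  subst hf hg
  have hb0 : b = 0 := by
    rw [← ESX_eq] at h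
    have h9 : PX.ESX N M n ((0 : Gouvea.Cusp M (n + 2)), (0 : Gouvea.Cusp M (n + 2))) = 0 :=
      map_zero (PX.ESX N M n)
    rw [h9, zero_add] at h
    exact h
  subst hb0
  rfl

theorem range_PhiX (hN : N ∣ M) (hn : Even n) (hs : Function.Surjective (SB n M)) :
    LinearMap.range (PhiX N n M) = LinearMap.range (rst N n M) := by
  apply le_antisymm
  · rintro _ ⟨⟨⟨f, g⟩, b⟩, rfl⟩
    rw [PhiX_apply, ESX_eq]
    obtain ⟨φ, hφ, hφb⟩ := (mem_range_bdS hn).1 b.2
    rw [← hφb, ← map_add]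
    exact LinearMap.mem_range_self _ _
  · rintro _ ⟨φ, rfl⟩
    obtain ⟨⟨⟨f, g⟩, b⟩, hb⟩ := hs φ
    rw [SB_apply] at hb
    refine ⟨(((1 / 2 : ℂ) • (f + g), (1 / 2 : ℂ) • (f - g)),
      ⟨rst N n M (Submodule.inclusion (BF_le n M) b),
        (mem_range_bdS hn).2 ⟨_, b.2, rfl⟩⟩), ?_⟩
    rw [PhiX_apply, ESX_eq]
    have e1 : (1 / 2 : ℂ) • (f + g) + (1 / 2 : ℂ) • (f - g) = f := by
      rw [← smul_add, show f + g + (f - g) = (2 : ℂ) • f by rw [two_smul]; abel, smul_smul]
      norm_num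
    have e2 : (1 / 2 : ℂ) • (f + g) - (1 / 2 : ℂ) • (f - g) = g := by
      rw [← smul_sub, show f + g - (f - g) = (2 : ℂ) • g by rw [two_smul]; abel, smul_smul]
      norm_num
    rw [e1, e2]
    change rst N n M (SS n M (f, g)) + rst N n M (Submodule.inclusion (BF_le n M) b) =
      rst N n M φ
    rw [← map_add, ← hb]

end Phi

end Gouvea.CN
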