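import Pool.Agent.Work.MP_d3517d_nt.CN.ResDefs
import Pool.Agent.Work.MP_d3517d_nt.Cnt.Res
import Pool.Agent.Work.MP_d3517d_nt.P5.Rep

/-!
# Residues of partial modular symbols on `Γ₀(N) ∞` (MP_d3517d_nt, exact Eichler–Shimura)

The residue `res N M n ψ` of a partial symbol `ψ` of level `Γ₀(M)`, `N ∣ M`, is a function on
vectors, homogeneous of degree `n + 2`, invariant under `Γ₀(M)`, zero at the cusps of `PX.Cusp N`,
and `res (T_q ψ) = q⁻¹ hop (res ψ)`.
-/

open Polynomial CongruenceSubgroup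
open scoped MatrixGroups

noncomputable section

namespace Gouvea.CN

open Gouvea.ES Gouvea.Theta
open Gouvea.Cnt (vm HF hop par hev vm_mul det_par vm_par par_mul)

namespace Res

open Gouvea.Cnt.Res (hev_add hev_zero hev_neg hev_smul hev_sum hev_scale hev_slk vm_par_self)

variable {n N : ℕ}

/-! ### Matrices -/

lemma parN_mul (w : ℤ × ℤ) (i j : ℤ) : parN N w i * parN N w j = parN N w (i + j) := by
  apply Subtype.ext
  rw [Submonoid.coe_mul, parN_coe, parN_coe, parN_coe, par_mul, mul_add]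

lemma parN_zero (w : ℤ × ℤ) : parN N w 0 = 1 := by
  apply Subtype.ext
  rw [parN_coe, Submonoid.coe_one, par]
  ext a b
  fin_cases a <;> fin_cases b <;> simp

lemma parN_scale (l : ℤ) (w : ℤ × ℤ) (j : ℤ) :
    parN N (l * w.1, l * w.2) j = parN N w (l ^ 2 * j) := by
  apply Subtype.ext
  rw [parN_coe, parN_coe, par, par]
  ext a b
  fin_cases a <;> fin_cases b <;> simp <;> ring

/-- `g par(w, det(g) j) = par(g w, j) g` -/
lemma mul_parN (g : PX.SN N) (w : ℤ × ℤ) (j : ℤ) :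
    g * parN N w (g.1.det * j) = parN N (vm g.1 w) j * g := by
  apply Subtype.ext
  rw [Submonoid.coe_mul, Submonoid.coe_mul, parN_coe, parN_coe, par, par, Matrix.det_fin_two]
  ext a b
  fin_cases a <;> fin_cases b <;>
    simp [Matrix.mul_apply, Fin.sum_univ_two, vm] <;> ring

/-! ### The residue -/

variable {M : ℕ} {ψ : PX.Cusp N → PX.Cusp N → Fin (n + 1) → ℂ}

/-- the value of `(ψ | g)` -/
lemma hev_act (g : PX.SN N) (ψ : PX.Cusp N → PX.Cusp N → Fin (n + 1) → ℂ) (x y : PX.Cusp N)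
    (w : ℤ × ℤ) : hev n (PX.act ℂ N n g ψ x y) w = hev n (ψ (g • x) (g • y)) (vm g.1 w) := by
  rw [PX.act_apply, hev_slk]

lemma sym_self (hψ : ψ ∈ PX.Sym ℂ N M n) (x : PX.Cusp N) : ψ x x = 0 := by
  have := hψ.1 x x x
  simpa using this

lemma hev_inv (hψ : ψ ∈ PX.Sym ℂ N M n) {w : ℤ × ℤ} {g : PX.SN N} (hg : PX.IsG0 M g)
    (hw : vm g.1 w = w) (x y : PX.Cusp N) : hev n (ψ (g • x) (g • y)) w = hev n (ψ x y) w := by
  have h := hev_act g ψ x y w
  rw [hψ.2 g hg, hw] at h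
  exact h.symm

/-- independence of the cusp -/
lemma indep (hψ : ψ ∈ PX.Sym ℂ N M n) {w : ℤ × ℤ} {g : PX.SN N} (hg : PX.IsG0 M g)
    (hw : vm g.1 w = w) (x y : PX.Cusp N) : hev n (ψ x (g • x)) w = hev n (ψ y (g • y)) w := by
  have h1 : ψ x (g • x) = ψ x y + ψ y (g • y) + ψ (g • y) (g • x) := by
    rw [hψ.1, hψ.1]
  have h2 : ψ y x = -ψ x y := by
    have := hψ.1 x y x
    rw [sym_self hψ] at this
    exact eq_neg_of_add_eq_zero_right this
  rw [h1, hev_add, hev_add, hev_inv hψ hg hw, h2, hev_neg]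
  ring

/-- additivity -/
lemma add_par (hψ : ψ ∈ PX.Sym ℂ N M n) {w : ℤ × ℤ} {i : ℤ} (hi : (M : ℤ) ∣ N * i)
    (j : ℤ) (x : PX.Cusp N) :
    hev n (ψ x (parN N w (i + j) • x)) w =
      hev n (ψ x (parN N w i • x)) w + hev n (ψ x (parN N w j • x)) w := by
  rw [← parN_mul, mul_smul, ← hψ.1 x (parN N w j • x), hev_add,
    indep hψ (isG0_parN M w hi) (vm_par_self w _) (parN N w j • x) x]
  ring

lemma nsmul_par (hψ : ψ ∈ PX.Sym ℂ N M n) {w : ℤ × ℤ} {i : ℤ} (hi : (M : ℤ) ∣ N * i)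
    (x : PX.Cusp N) (m : ℕ) :
    hev n (ψ x (parN N w (m * i) • x)) w = m * hev n (ψ x (parN N w i • x)) w := by
  induction m with
  | zero => rw [Nat.cast_zero, zero_mul, parN_zero, one_smul, sym_self hψ, hev_zero]; simp
  | succ m ih =>
    have h1 : ((m + 1 : ℕ) : ℤ) * i = m * i + i := by push_cast; ring
    have h2 : (M : ℤ) ∣ N * (m * i) := by
      rw [mul_left_comm]
      exact hi.mul_left _
    rw [h1, add_par hψ h2, ih]
    push_cast
    ring

/-- **independence** of the cusp and of the power. -/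
theorem res_eq_nat [NeZero M] (hM : N ∣ M) (hψ : ψ ∈ PX.Sym ℂ N M n) (w : ℤ × ℤ)
    (x : PX.Cusp N) {j : ℕ} (hj : M ∣ N * j) :
    hev n (ψ x (parN N w j • x)) w = N * j * res N M n ψ w := by
  obtain ⟨m, hm⟩ := hM
  have hM0 : (M : ℂ) ≠ 0 := by exact_mod_cast NeZero.ne M
  have hN0 : N ≠ 0 := by
    rintro rfl
    exact NeZero.ne M (by rw [hm, zero_mul])
  have hN0' : (N : ℂ) ≠ 0 := by exact_mod_cast hN0
  have hm4 : M / N = m := by rw [hm, Nat.mul_div_cancel_left _ (Nat.pos_of_ne_zero hN0)]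
  rw [hm, mul_dvd_mul_iff_left hN0] at hj
  obtain ⟨t, ht⟩ := hj
  have h1 : (M : ℤ) ∣ N * (m : ℤ) := by rw [hm]; push_cast; exact dvd_rfl
  have h2 : ((j : ℕ) : ℤ) = (t : ℕ) * (m : ℤ) := by rw [ht]; push_cast; ring
  rw [h2, nsmul_par hψ h1, res, hm4, indep hψ (isG0_parN M w h1) (vm_par_self w _) (PX.inf N) x]
  have h3 : (M : ℂ) = N * m := by rw [hm]; push_cast; ring
  have h4 : (j : ℂ) = m * t := by rw [ht]; push_cast; ring
  have hm0 : (m : ℂ) ≠ 0 := by
    intro h5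
    rw [h3, h5, mul_zero] at hM0
    exact hM0 rfl
  rw [h3, h4]
  field_simp

/-- the same for integers -/
theorem res_eq_int [NeZero M] (hM : N ∣ M) (hψ : ψ ∈ PX.Sym ℂ N M n) (w : ℤ × ℤ)
    (x : PX.Cusp N) {j : ℤ} (hj : (M : ℤ) ∣ N * j) :
    hev n (ψ x (parN N w j • x)) w = N * j * res N M n ψ w := by
  obtain ⟨m, rfl | rfl⟩ := Int.eq_nat_or_neg j
  · have hj' : M ∣ N * m := by exact_mod_cast hj
    have := res_eq_nat hM hψ w x hj'
    exact_mod_cast this
  · have hj1 : (M : ℤ) ∣ N * (m : ℤ) := by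
      rw [mul_neg, dvd_neg] at hj
      exact hj
    have hj' : M ∣ N * m := by exact_mod_cast hj1
    have h1 := res_eq_nat hM hψ w x hj'
    have h2 := add_par hψ (w := w) hj (m : ℤ) x
    rw [neg_add_cancel, parN_zero, one_smul, sym_self hψ, hev_zero, h1] at h2
    push_cast
    linear_combination -h2

end Res

open Gouvea.Cnt.Res (hev_add hev_zero hev_sum hev_scale hev_smul)

variable {n M N : ℕ} [NeZero M]

/-- **independence** of the cusp and of the power. -/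
theorem res_eq (hM : N ∣ M) (ψ : PX.Sym ℂ N M n) (w : ℤ × ℤ) (x : PX.Cusp N)
    {j : ℤ} (hj : (M : ℤ) ∣ N * j) :
    hev n (ψ.1 x (parN N w j • x)) w = N * j * res N M n ψ.1 w := Res.res_eq_int hM ψ.2 w x hj

omit [NeZero M] in
lemma ne_zero_of_dvd' [NeZero M] (hM : N ∣ M) : (N : ℂ) ≠ 0 := by
  have hN0 : N ≠ 0 := by
    rintro rfl
    exact NeZero.ne M (zero_dvd_iff.1 hM)
  exact_mod_cast hN0

/-- **The residues are homogeneous functions of degree `n + 2`, zero at the cusps `u/v`,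
`N ∣ v`, `(u, N) = 1`.** -/
theorem res_mem (hM : N ∣ M) (ψ : PX.Sym ℂ N M n) : res N M n ψ.1 ∈ HOut N (n + 2) M := by
  have hM0 : (M : ℂ) ≠ 0 := by exact_mod_cast NeZero.ne M
  have hN0 : (N : ℂ) ≠ 0 := ne_zero_of_dvd' hM
  have hMd : (M : ℤ) ∣ N * (M : ℤ) := Dvd.intro_left _ rfl
  have hNM : (N : ℂ) * ((M : ℤ) : ℂ) ≠ 0 := by
    push_cast
    exact mul_ne_zero hN0 hM0
  refine ⟨⟨?_, fun l hl v => ?_, fun g hg v => ?_⟩, fun v hv => ?_⟩
  · have h := res_eq hM ψ (0, 0) (PX.inf N) hMd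
    have h1 : parN N (0, 0) (M : ℤ) = 1 := by
      apply Subtype.ext
      rw [parN_coe, Submonoid.coe_one, par]
      ext a b
      fin_cases a <;> fin_cases b <;> simp
    rw [h1, one_smul, Res.sym_self ψ.2, hev_zero] at h
    exact (mul_eq_zero.1 h.symm).resolve_left hNM
  · have h1 := res_eq hM ψ (l * v.1, l * v.2) (PX.inf N) hMd
    have h2 := res_eq hM ψ v (PX.inf N) (j := l ^ 2 * M) (by
      rw [mul_left_comm]
      exact hMd.mul_left _)
    rw [Res.parN_scale, hev_scale, h2] at h1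
    have h4 : (l : ℂ) ^ ((n : ℤ) + 2) = (l : ℂ) ^ n * (l : ℂ) ^ 2 := by
      rw [← pow_add]
      exact_mod_cast rfl
    rw [h4]
    refine mul_left_cancel₀ hNM ?_
    push_cast at h1
    push_cast
    linear_combination -h1
  · have hG := isG0_ofSL hM hg
    have hdet : (ofSL hM hg).1.det = 1 := hG.1
    have h1 := res_eq hM ψ (vm g.1 v) (ofSL hM hg • PX.inf N) hMd
    have h2 := res_eq hM ψ v (PX.inf N) hMd
    have h3 := Res.mul_parN (ofSL hM hg) v (M : ℤ)
    rw [hdet, one_mul, ofSL_coe] at h3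
    rw [← mul_smul, ← h3, mul_smul] at h1
    have h4 := Res.hev_act (ofSL hM hg) ψ.1 (PX.inf N) (parN N v (M : ℤ) • PX.inf N) v
    rw [ψ.2.2 _ hG, ofSL_coe] at h4
    rw [← h4, h2] at h1
    exact (mul_left_cancel₀ hNM h1).symm
  · obtain ⟨l, a, c, hl, ha, hc, hac, rfl⟩ := hv
    have h := res_eq hM ψ (l * a, l * c) (PX.Cusp.mk a c ha hc hac) hMd
    have h1 : parN N (l * a, l * c) (M : ℤ) • PX.Cusp.mk a c ha hc hac =
        PX.Cusp.mk a c ha hc hac := by
      obtain ⟨h1, h2, h3, h4⟩ := PX.smul_mk (parN N (l * a, l * c) (M : ℤ)) a c ha hc hac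
      rw [h4, PX.Cusp.mk_eq]
      simp only [parN_coe, par, Matrix.of_apply, Matrix.cons_val', Matrix.cons_val_zero,
        Matrix.cons_val_one, Matrix.cons_val_fin_one]
      ring
    rw [h1, Res.sym_self ψ.2, hev_zero] at h
    exact (mul_eq_zero.1 h.symm).resolve_left hNM

/-- the residue of `ψ | g`, with the same power -/
lemma res_act (hM : N ∣ M) (ψ : PX.Sym ℂ N M n) (g : PX.SN N) (w : ℤ × ℤ) (x : PX.Cusp N)
    {j : ℤ} (hj : (M : ℤ) ∣ N * j) :
    hev n (PX.act ℂ N n g ψ.1 x (parN N w (g.1.det * j) • x)) w =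
      N * j * res N M n ψ.1 (vm g.1 w) := by
  rw [Res.hev_act, ← mul_smul, Res.mul_parN, mul_smul, res_eq hM ψ _ _ hj]

/-- **The residues and the Hecke operators.** -/
theorem res_hecke (hM : N ∣ M) (ψ : PX.Sym ℂ N M n) {q : ℕ} (hq : q.Prime) :
    res N M n (PX.hecke ℂ N M n q ψ.1) = (q : ℂ)⁻¹ • hop M q (res N M n ψ.1) := by
  have hM0 : (M : ℂ) ≠ 0 := by exact_mod_cast NeZero.ne M
  have hN0 : (N : ℂ) ≠ 0 := ne_zero_of_dvd' hM
  have hq0 : (q : ℂ) ≠ 0 := by exact_mod_cast hq.ne_zero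
  have hqz : (q : ℤ) ≠ 0 := by exact_mod_cast hq.ne_zero
  have hMd : (M : ℤ) ∣ N * (M : ℤ) := Dvd.intro_left _ rfl
  funext w
  have h1 := res_eq hM ⟨_, PX.hecke_mem hq hM (NeZero.ne M) ψ.2⟩ w (PX.inf N)
    (j := q * M) (by rw [mul_left_comm]; exact hMd.mul_left _)
  have h2 : ∀ b : ℕ, hev n (PX.act ℂ N n (PX.upS N 1 b q) ψ.1 (PX.inf N)
      (parN N w (q * M) • PX.inf N)) w =
        N * M * res N M n ψ.1 (vm !![1, (b : ℤ); 0, (q : ℤ)] w) := by
    intro b
    have hq1 : (1 : ℤ) * (q : ℤ) ≠ 0 := by rw [one_mul]; exact hqz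
    have hd : (PX.upS N 1 b q).1.det = q := by
      rw [PX.upS_coe isCoprime_one_left hq1, Matrix.det_fin_two_of]
      ring
    have h3 := res_act hM ψ (PX.upS N 1 b q) w (PX.inf N) hMd
    rw [hd, PX.upS_coe isCoprime_one_left hq1] at h3
    push_cast at h3
    exact h3
  have h3 : ¬ q ∣ M → hev n (PX.act ℂ N n (PX.upS N q 0 1) ψ.1 (PX.inf N)
      (parN N w (q * M) • PX.inf N)) w =
        N * M * res N M n ψ.1 (vm !![(q : ℤ), 0; 0, 1] w) := by
    intro hqM
    have hcop : IsCoprime (q : ℤ) (N : ℤ) := by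
      rw [Nat.isCoprime_iff_coprime]
      exact (hq.coprime_iff_not_dvd.2 fun h => hqM (h.trans hM))
    have hq1 : (q : ℤ) * 1 ≠ 0 := by rw [mul_one]; exact hqz
    have hd : (PX.upS N q 0 1).1.det = q := by
      rw [PX.upS_coe hcop hq1, Matrix.det_fin_two_of]
      ring
    have h3 := res_act hM ψ (PX.upS N q 0 1) w (PX.inf N) hMd
    rw [hd, PX.upS_coe hcop hq1] at h3
    push_cast at h3
    exact h3
  have h4 : hev n (PX.hecke ℂ N M n q ψ.1 (PX.inf N) (parN N w (q * M) • PX.inf N)) w =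
      N * M * hop M q (res N M n ψ.1) w := by
    rw [PX.hecke, LinearMap.add_apply, LinearMap.sum_apply]
    simp only [Pi.add_apply, Finset.sum_apply]
    rw [hev_add, hev_sum]
    simp only [h2]
    change _ = (N : ℂ) * (M : ℂ) *
      (∑ b ∈ Finset.range q, res N M n ψ.1 (vm !![1, (b : ℤ); 0, (q : ℤ)] w) +
      if q ∣ M then 0 else res N M n ψ.1 (vm !![(q : ℤ), 0; 0, 1] w))
    rw [mul_add, Finset.mul_sum]
    congr 1
    split_ifs with h5
    · rw [mul_zero]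
      exact hev_zero w
    · exact h3 h5
  rw [h4] at h1
  show res N M n (PX.hecke ℂ N M n q ψ.1) w = (q : ℂ)⁻¹ * hop M q (res N M n ψ.1) w
  push_cast at h1
  field_simp
  refine mul_left_cancel₀ (mul_ne_zero hN0 hM0) ?_
  linear_combination -h1

omit [NeZero M] in
/-- the residue as a linear map -/
def resL (N M n : ℕ) : PX.Sym ℂ N M n →ₗ[ℂ] (ℤ × ℤ → ℂ) where
  toFun ψ := res N M n ψ.1
  map_add' φ ψ := by
    funext w
    simp only [res, Submodule.coe_add, Pi.add_apply]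
    rw [hev_add, mul_add]
  map_smul' a φ := by
    funext w
    simp only [res, Submodule.coe_smul, Pi.smul_apply, RingHom.id_apply, smul_eq_mul]
    rw [hev_smul]
    ring

@[simp] lemma resL_apply (N M n : ℕ) (ψ : PX.Sym ℂ N M n) : resL N M n ψ = res N M n ψ.1 := rfl

end Gouvea.CN
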