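import Pool.Agent.Work.MP_d3517d_nt.CN.Res
import Pool.Agent.Work.MP_d3517d_nt.Cnt.BdF
import Pool.Agent.Work.MP_d3517d_nt.Cnt.Hev

/-!
# The residues of the restriction of a full symbol are zero (MP_d3517d_nt, CN)
-/

open Polynomial CongruenceSubgroup
open scoped MatrixGroups

noncomputable section

namespace Gouvea.CN

open Gouvea.Theta
open Gouvea.ES (GQ matOf)
open Gouvea.Cnt (sQ SF mem_SF BF mem_BF HF hop vm vm_mul par det_par vm_par par_mul hev hev_add
  hev_zero hev_slk pol pol_coeff pol_slk coeff_pol matOf_sQ pt pt_vm)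

variable {N M n : ℕ}

/-- the coefficients of the values of a full symbol -/
def cf (n : ℕ) (φ : Symb) (x y : OnePoint ℚ) : Fin (n + 1) → ℂ := fun i => (φ x y).coeff i

lemma cf_add (φ : SF n M) (x y z : OnePoint ℚ) :
    cf n φ.1 x y + cf n φ.1 y z = cf n φ.1 x z := by
  funext i
  change (φ.1 x y).coeff i + (φ.1 y z).coeff i = (φ.1 x z).coeff i
  rw [← coeff_add, φ.2.add]

lemma pol_cf (φ : SF n M) (x y : OnePoint ℚ) : pol (cf n φ.1 x y) = φ.1 x y :=
  pol_coeff (φ.2.deg _ _)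

lemma cf_self (φ : SF n M) (x : OnePoint ℚ) : cf n φ.1 x x = 0 := by
  have h := cf_add φ x x x
  rwa [add_eq_left] at h

lemma hev_cf (φ : SF n M) {g : SL(2, ℤ)} (hg : g ∈ Gamma0 M) (x y : OnePoint ℚ) (w : ℤ × ℤ) :
    hev n (cf n φ.1 (sQ g • x) (sQ g • y)) (vm g.1 w) = hev n (cf n φ.1 x y) w := by
  have h1 : (PS.slk n (g.1.map (Int.cast : ℤ → ℂ))).mulVec (cf n φ.1 (sQ g • x) (sQ g • y)) =
      cf n φ.1 x y := by
    funext i
    rw [← coeff_pol ((PS.slk n (g.1.map (Int.cast : ℤ → ℂ))).mulVec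
      (cf n φ.1 (sQ g • x) (sQ g • y))) i, pol_slk, pol_cf, ← matOf_sQ]
    have h2 := congrFun (congrFun (φ.2.inv g hg) x) y
    change (fact n (sQ g) φ.1 x y).coeff i = _
    rw [h2]
    rfl
  rw [← hev_slk, h1]

/-- **the residues of the restriction of a full symbol are zero** -/
theorem res_rst [NeZero M] (hN : N ∣ M) (φ : SF n M) (w : ℤ × ℤ) :
    res N M n (rst N n M φ).1 w = 0 := by
  have hMN : (N : ℤ) * ((M / N : ℕ) : ℤ) = M := by
    exact_mod_cast Nat.mul_div_cancel' hN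
  set γ : SL(2, ℤ) := ⟨par w M, det_par w M⟩ with hγ
  have hγ0 : γ ∈ Gamma0 M := by
    rw [Gamma0_mem, ZMod.intCast_zmod_eq_zero_iff_dvd]
    refine ⟨-(w.2 ^ 2), ?_⟩
    simp [hγ, par]
  have hc : (parN N w ((M / N : ℕ) : ℤ)) = ofSL hN hγ0 := by
    refine Subtype.ext ?_
    rw [parN_coe, ofSL_coe, hMN]
  have h1 : PX.toP (parN N w ((M / N : ℕ) : ℤ) • PX.inf N) = sQ γ • (OnePoint.infty : OnePoint ℚ) := by
    rw [PX.toP_smul, hc, gQ_ofSL, PX.toP_inf]
  have h2 : (rst N n M φ).1 (PX.inf N) (parN N w ((M / N : ℕ) : ℤ) • PX.inf N) =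
      cf n φ.1 OnePoint.infty (sQ γ • OnePoint.infty) := by
    rw [rst_coe]
    funext i
    rw [rstFun, h1, PX.toP_inf]
    rfl
  have h3 : vm γ.1 w = w := by
    rw [hγ]
    change vm (par w M) w = w
    rw [vm_par]
    refine Prod.ext ?_ ?_ <;> ring
  have key : hev n (cf n φ.1 OnePoint.infty (sQ γ • OnePoint.infty)) w = 0 := by
    by_cases hw : w = (0, 0)
    · have h4 : γ = 1 := by
        refine Subtype.ext ?_
        rw [hγ, hw]
        ext i j
        fin_cases i <;> fin_cases j <;> simp [par]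
      rw [h4, sQ, map_one, one_smul, cf_self, hev_zero]
    · have h5 := hev_cf φ hγ0 (pt w) OnePoint.infty w
      rw [← pt_vm γ hw, h3] at h5
      rw [← cf_add φ _ (pt w), hev_add, h5, ← hev_add, cf_add, cf_self, hev_zero]
  rw [res, h2, key, mul_zero]

theorem range_rst_le [NeZero M] (hN : N ∣ M) :
    LinearMap.range (rst N n M) ≤ LinearMap.ker (resL N M n) := by
  rintro _ ⟨φ, rfl⟩
  rw [LinearMap.mem_ker, resL_apply]
  funext w
  exact res_rst hN φ w

end Gouvea.CN
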