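import Pool.Agent.Work.MP_d3517d_nt.Cnt.TwoA
import Pool.Agent.Work.MP_d3517d_nt.P5.Rep

/-!
# The residue theorem in weight two (MP_d3517d_nt, exact Eichler–Shimura, general cusps)

The port of `Cnt/TwoA` to the symbols on the cusps `Γ₀(N) ∞`, `N ∣ M`.
-/

open Polynomial CongruenceSubgroup
open scoped MatrixGroups

noncomputable section

namespace Gouvea.CN

open Gouvea.ES Gouvea.Theta

namespace TwoA

variable {N : ℕ}

/-- in weight two the symbols are invariant functions -/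
lemma sym_inv {M : ℕ} {ψ : PX.Cusp N → PX.Cusp N → Fin (0 + 1) → ℂ} (h : ψ ∈ PX.Sym ℂ N M 0)
    {g : PX.SN N} (hg : PX.IsG0 M g) (x y : PX.Cusp N) : ψ (g • x) (g • y) = ψ x y := by
  have h1 := congrFun (congrFun (h.2 g hg) x) y
  rw [PX.act_apply, Cnt.TwoA.slk_zero, Matrix.one_mulVec] at h1
  exact h1

lemma ofG0_mul {M : ℕ} (hM : N ∣ M) (g h : Gamma0 M) :
    PX.ofG0 hM (g * h : Gamma0 M).1 (g * h : Gamma0 M).2 =
      PX.ofG0 hM g.1 g.2 * PX.ofG0 hM h.1 h.2 := by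
  refine Subtype.ext ?_
  rfl

/-- the homomorphism `γ ↦ ψ(∞, γ ∞)` -/
def lam {M : ℕ} (hM : N ∣ M) {ψ : PX.Cusp N → PX.Cusp N → Fin (0 + 1) → ℂ}
    (h : ψ ∈ PX.Sym ℂ N M 0) : Gamma0 M →* Multiplicative ℂ where
  toFun g := Multiplicative.ofAdd (ψ (PX.inf N) (PX.ofG0 hM g.1 g.2 • PX.inf N) 0)
  map_one' := by
    have h1 : PX.ofG0 hM (1 : Gamma0 M).1 (1 : Gamma0 M).2 = 1 := Subtype.ext rfl
    rw [h1, one_smul]
    have h2 := congrFun (h.1 (PX.inf N) (PX.inf N) (PX.inf N)) 0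
    rw [Pi.add_apply] at h2
    have h3 : ψ (PX.inf N) (PX.inf N) 0 = 0 := by simpa using h2
    rw [h3, ofAdd_zero]
  map_mul' g k := by
    rw [← ofAdd_add, ofG0_mul, mul_smul]
    congr 1
    have h1 := congrFun (h.1 (PX.inf N) (PX.ofG0 hM g.1 g.2 • PX.inf N)
      (PX.ofG0 hM g.1 g.2 • PX.ofG0 hM k.1 k.2 • PX.inf N)) 0
    rw [Pi.add_apply, sym_inv h (PX.isG0_ofG0 hM g.1 g.2)] at h1
    exact h1.symm

/-- **The residue theorem**, in terms of values. -/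
theorem sum_val {M : ℕ} [NeZero M] (hM : N ∣ M) [Fintype (SL(2, ℤ) ⧸ Gamma0 M)]
    (ψ : PX.Sym ℂ N M 0) :
    ∑ x : SL(2, ℤ) ⧸ Gamma0 M, (ψ : PX.Cusp N → PX.Cusp N → Fin (0 + 1) → ℂ) (PX.inf N)
      (PX.ofG0 hM (x.out⁻¹ * ModularGroup.T ^ M * x.out) (Cnt.TwoA.conj_mem M x.out) •
        PX.inf N) 0 = 0 := by
  set lm := lam hM ψ.2
  -- the transfer vanishes at `T^M`
  have h1 : MonoidHom.transfer lm (ModularGroup.T ^ M) = 1 := by
    rw [map_pow, Cnt.TwoA.hom_T, one_pow]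
  let T0 : (Gamma0 M).LeftTransversal :=
    ⟨Set.range Quotient.out, Subgroup.isComplement_range_left Quotient.out_eq'⟩
  have hT0 : ∀ q : SL(2, ℤ) ⧸ Gamma0 M, (T0.2.leftQuotientEquiv q : SL(2, ℤ)) = q.out :=
    fun q => Subgroup.IsComplement.leftQuotientEquiv_apply (f := Quotient.out)
      Quotient.out_eq' q
  rw [MonoidHom.transfer_def lm T0] at h1
  change ∑ x : SL(2, ℤ) ⧸ Gamma0 M, Multiplicative.toAdd
      (lm ⟨x.out⁻¹ * ModularGroup.T ^ M * x.out, Cnt.TwoA.conj_mem M x.out⟩) = 0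
  have h3 := congrArg Multiplicative.toAdd h1
  rw [toAdd_one, Subgroup.leftTransversals.diff] at h3
  rw [← h3, toAdd_prod]
  have h4 : ∀ x : SL(2, ℤ) ⧸ Gamma0 M, (((ModularGroup.T ^ M) • T0).2.leftQuotientEquiv x :
      SL(2, ℤ)) = ModularGroup.T ^ M * x.out := fun x => by
    rw [Subgroup.smul_apply_eq_smul_apply_inv_smul,
      inv_smul_eq_iff.2 (Cnt.TwoA.T_smul M x).symm, hT0, smul_eq_mul]
  refine Finset.sum_congr (by ext; simp) fun x _ => ?_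
  congr 2
  refine Subtype.ext ?_
  change _ = (T0.2.leftQuotientEquiv x : SL(2, ℤ))⁻¹ *
    (((ModularGroup.T ^ M) • T0).2.leftQuotientEquiv x : SL(2, ℤ))
  rw [h4, hT0]
  exact mul_assoc _ _ _

end TwoA

end Gouvea.CN
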